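import Pool.Agent.helper40.Laz.Fun2

/-!
# Lazard library, part 14: conjugation, commuting elements have zero bracket
-/

namespace Pool.Agent.helper40.Laz

open Finset MulOpposite

attribute [local instance 100] LieRing.ofAssociativeRing

section

variable {R : Type*} [CommRing R] {X : Type*} {c : ℕ}

theorem A'_word_mem (w : FreeMonoid X) {l : Q R X c} (hl : l ∈ lieS R X c) :
    A' (word R c w) l ∈ lieS R X c := by
  induction w using FreeMonoid.inductionOn' generalizing l with
  | one => rw [word_one, A'_one]; exact hl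
  | of_mul x v ih =>
    rw [word_mul, A'_mul]
    apply ih
    show A' (lt R c x) l ∈ _
    rw [← evQ_leaf, A'_evQ]
    exact lieS_lie hl (evQ_mem_lieS _)

theorem A'_mem_lieS (u : Q R X c) {l : Q R X c} (hl : l ∈ lieS R X c) :
    A' u l ∈ lieS R X c := by
  induction u using Q.induction with
  | hw w => exact A'_word_mem w hl
  | hadd x y hx hy => rw [A'_add]; exact add_mem hx hy
  | hsmul r x hx => rw [A'_smul]; exact Submodule.smul_mem _ _ hx

/-- `exp(-v) y exp(v)`. -/
theorem conj_nexp (hc : Inv R c) {v : Q R X c} (hv : v ∈ lieS R X c) (α : Q R X c) :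
    nexp R c (-v) * nexp R c α * nexp R c v = nexp R c (A' (nexp R c v) α) := by
  have hP := (PP_nexp hc hv).1
  have h1 := nexp_neg_mul hc (lieS_le_F hv)
  have h2 := nexp_mul_neg hc (lieS_le_F hv)
  have h3 : ∀ α : Q R X c, A' (nexp R c v) α = nexp R c (-v) * α * nexp R c v := by
    intro α
    calc A' (nexp R c v) α = (nexp R c (-v) * nexp R c v) * A' (nexp R c v) α := by
          rw [h1, one_mul]
      _ = nexp R c (-v) * (nexp R c v * A' (nexp R c v) α) := by rw [mul_assoc]
      _ = _ := by rw [hP, mul_assoc]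
  have h4 : ∀ k : ℕ, (nexp R c (-v) * α * nexp R c v) ^ k =
      nexp R c (-v) * α ^ k * nexp R c v := by
    intro k
    induction k with
    | zero => rw [pow_zero, pow_zero, mul_one, h1]
    | succ k ih =>
      rw [pow_succ, ih, pow_succ]
      calc nexp R c (-v) * α ^ k * nexp R c v * (nexp R c (-v) * α * nexp R c v) =
          nexp R c (-v) * α ^ k * (nexp R c v * nexp R c (-v)) * α * nexp R c v := by
            noncomm_ring
        _ = _ := by rw [h2]; noncomm_ring
  rw [h3]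
  have h5 : nexp R c (nexp R c (-v) * α * nexp R c v) =
      ∑ k ∈ range (c + 1), ifac R k • (nexp R c (-v) * α * nexp R c v) ^ k := rfl
  have h6 : nexp R c α = ∑ k ∈ range (c + 1), ifac R k • α ^ k := rfl
  rw [h5, h6, mul_sum, sum_mul]
  refine Finset.sum_congr rfl fun k _ => ?_
  rw [h4, mul_smul_comm, smul_mul_assoc]

variable {L : Type*} [LieRing L] [LieAlgebra R L] (Φ : LFil R L c)

theorem evL_A' (hc : Inv R c) (f : X → L) (hf : ∀ x, f x ∈ Φ.Λ 1) (u : Q R X c) {l : Q R X c}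
    (hl : l ∈ lieS R X c) : evL Φ f hf (A' u l) = Ac Φ f hf u (evL Φ f hf l) := by
  induction u using Q.induction with
  | hw w =>
    induction w using FreeMonoid.inductionOn' generalizing l with
    | one => rw [word_one, A'_one, Ac_one]
    | of_mul x v ih =>
      have h1 : A' (word R c (FreeMonoid.of x)) l = ⁅l, lt R c x⁆ := by
        show A' (lt R c x) l = _
        rw [← evQ_leaf, A'_evQ]
      have h2 : Ac Φ f hf (word R c (FreeMonoid.of x)) (evL Φ f hf l) = ⁅evL Φ f hf l, f x⁆ :=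
        Ac_lt Φ f hf x _
      rw [word_mul, A'_mul, Ac_mul, h1, h2, ih (lieS_lie hl (lt_mem_lieS x)),
        evL_lie Φ f hf hc hl (lt_mem_lieS x), evL_lt Φ f hf hc]
  | hadd x y hx hy => rw [A'_add, map_add, hx, hy, Ac_add]
  | hsmul r x hx => rw [A'_smul, map_smul, hx, Ac_smul]

theorem Ac_pow_lt (f : X → L) (hf : ∀ x, f x ∈ Φ.Λ 1) (x : X) (k : ℕ) (l : L) :
    Ac Φ f hf (lt R c x ^ k) l = (brR (R := R) (f x) ^ k) l := by
  induction k generalizing l with
  | zero => rw [pow_zero, pow_zero, Ac_one]; rfl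
  | succ k ih => rw [pow_succ', Ac_mul, ih, Ac_lt, pow_succ, Module.End.mul_apply, brR_apply]

variable (h1 : ∀ x, x ∈ Φ.Λ 1)

/-- Conjugation in the group of a Lie algebra. -/
theorem laz_conj (hc : Inv R c) (h1c : 1 ≤ c) (x y : L) :
    laz Φ h1 (laz Φ h1 (-x) y) x =
      ∑ k ∈ range (c + 1), ifac R k • (brR (R := R) x ^ k) y := by
  have hX : lt R c false ∈ lieS R Bool c := lt_mem_lieS _
  have hY : lt R c true ∈ lieS R Bool c := lt_mem_lieS _
  have hXY := bm_mem hc h1c (neg_mem hX) hY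
  have h2 : laz Φ h1 (laz Φ h1 (-x) y) x = evL Φ (two x y) (fun _ => h1 _)
      (bm (bm (-lt R c false) (lt R c true)) (lt R c false)) := by
    rw [evL_bm Φ h1 hc h1c _ hXY hX, evL_bm Φ h1 hc h1c _ (neg_mem hX) hY, map_neg,
      evL_lt _ _ _ hc, evL_lt _ _ _ hc]
    rfl
  have h3 : bm (bm (-lt R c false) (lt R c true)) (lt R c false) =
      A' (nexp R c (lt R c false)) (lt R c true) := by
    apply nexp_inj h1c (lieS_le_F (bm_mem hc h1c hXY hX)) (lieS_le_F (A'_mem_lieS _ hY))
    rw [nexp_bm hc h1c hXY hX, nexp_bm hc h1c (neg_mem hX) hY, conj_nexp hc hX]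
  rw [h2, h3, evL_A' Φ hc _ _ _ hY, evL_lt _ _ _ hc]
  have h4 : ∀ (s : Finset ℕ), Ac Φ (two x y) (fun _ => h1 _)
      (∑ k ∈ s, ifac R k • lt R c false ^ k) (two x y true) =
      ∑ k ∈ s, ifac R k • (brR (R := R) x ^ k) y := by
    intro s
    induction s using Finset.induction_on with
    | empty => rw [sum_empty, sum_empty, Ac_zero]
    | insert a s ha ih =>
      rw [sum_insert ha, sum_insert ha, Ac_add, ih, Ac_smul, Ac_pow_lt]
      rfl
  exact h4 _

theorem brR_pow_mem {a : ℕ} {x l : L} (hx : x ∈ Φ.Λ 1) (hl : l ∈ Φ.Λ a) (k : ℕ) :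
    (brR (R := R) x ^ k) l ∈ Φ.Λ (a + k) := by
  induction k with
  | zero => exact hl
  | succ k ih =>
    rw [pow_succ', Module.End.mul_apply, brR_apply]
    exact Φ.lie (a + k) 1 _ _ ih hx

/-- Commuting elements of the group of a Lie algebra have zero bracket. -/
theorem lie_of_laz_comm (hc : Inv R c) (h1c : 1 ≤ c) {x y : L}
    (h : laz Φ h1 x y = laz Φ h1 y x) : ⁅x, y⁆ = 0 := by
  have h2 := laz_conj Φ h1 hc h1c x y
  rw [laz_assoc Φ h1 hc h1c, ← h, ← laz_assoc Φ h1 hc h1c, laz_neg_self Φ h1 hc h1c,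
    laz_zero_left Φ h1 hc h1c] at h2
  obtain ⟨d, rfl⟩ : ∃ d, c = d + 1 := ⟨c - 1, by omega⟩
  rw [Finset.sum_range_succ', Finset.sum_range_succ', pow_zero, zero_add, ifac_zero, one_smul,
    Module.End.one_apply, pow_one, ifac_one, one_smul, brR_apply] at h2
  have h3 : ⁅y, x⁆ = -∑ k ∈ range d, ifac R (k + 1 + 1) • (brR (R := R) x ^ (k + 1)) ⁅y, x⁆ := by
    have h4 : ∀ k, (brR (R := R) x ^ (k + 1 + 1)) y = (brR (R := R) x ^ (k + 1)) ⁅y, x⁆ := by
      intro k
      rw [pow_succ, Module.End.mul_apply, brR_apply]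
    simp only [h4] at h2
    have h5 : (∑ k ∈ range d, ifac R (k + 1 + 1) • (brR (R := R) x ^ (k + 1)) ⁅y, x⁆) + ⁅y, x⁆ =
        0 := by
      have h6 := h2
      rw [eq_comm, add_eq_right] at h6
      exact h6
    exact eq_neg_of_add_eq_zero_right h5
  have key : ∀ k, ⁅y, x⁆ ∈ Φ.Λ k := by
    intro k
    induction k with
    | zero => exact Φ.top _
    | succ k ih =>
      rw [h3]
      refine neg_mem (sum_mem fun i _ => Submodule.smul_mem _ _ ?_)
      exact Φ.anti _ _ (by omega) (brR_pow_mem Φ (h1 x) ih (i + 1))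
  have h7 : ⁅y, x⁆ = 0 := Φ.bot _ _ (Nat.lt_succ_self _) (key (d + 1 + 1))
  rw [← lie_skew, h7, neg_zero]

end

end Pool.Agent.helper40.Laz
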