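import Pool.Agent.helper40.Laz.Fun

/-!
# Lazard library, part 13: naturality, change of scalars, the class of the group of a Lie algebra,
the filtration by the lower central series
-/

namespace Pool.Agent.helper40.Laz

open Finset MulOpposite

open scoped commutatorElement

attribute [local instance 100] LieRing.ofAssociativeRing

/-! ## Naturality -/

section

variable {R : Type*} [CommRing R] {X : Type*} {c : ℕ} {L L' : Type*} [LieRing L] [LieAlgebra R L]
  [LieRing L'] [LieAlgebra R L']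

theorem map_actW (ψ : L →ₗ⁅R⁆ L') (f : X → L) (w : FreeMonoid X) (l : L) :
    ψ (unop (actW R f w) l) = unop (actW R (fun x => ψ (f x)) w) (ψ l) := by
  induction w using FreeMonoid.inductionOn' generalizing l with
  | one => rw [map_one, map_one]; rfl
  | of_mul x v ih => rw [actW_mul, actW_of, ih, LieHom.map_lie, actW_mul, actW_of]

theorem map_dynW (ψ : L →ₗ⁅R⁆ L') (f : X → L) (w : FreeMonoid X) :
    ψ (dynW R f w) = dynW R (fun x => ψ (f x)) w := by
  induction w using FreeMonoid.inductionOn' with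
  | one => rw [dynW_one, dynW_one, map_zero]
  | of_mul x v ih => rw [dynW_of_mul, dynW_of_mul, map_actW]

theorem evL_word (Φ : LFil R L c) (f : X → L) (hf : ∀ x, f x ∈ Φ.Λ 1) (w : FreeMonoid X) :
    evL Φ f hf (word R c w) = inv' R w.length • dynW R f w := by
  have h3 : evL Φ f hf (word R c w) = Dy Φ f hf (dv (word R c w)) := rfl
  have h4 : (dv (word R c w) : Q R X c) = inv' R w.length • word R c w := Q.lift_word _ _ _
  rw [h3, h4, map_smul, Dy_word]

theorem map_evL (Φ : LFil R L c) (Φ' : LFil R L' c) (ψ : L →ₗ⁅R⁆ L') (f : X → L)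
    (hf : ∀ x, f x ∈ Φ.Λ 1) (hf' : ∀ x, ψ (f x) ∈ Φ'.Λ 1) (z : Q R X c) :
    ψ (evL Φ f hf z) = evL Φ' (fun x => ψ (f x)) hf' z := by
  have h : ψ.toLinearMap.comp (evL Φ f hf) = evL Φ' (fun x => ψ (f x)) hf' := by
    refine Q.hom_ext fun w _ => ?_
    rw [LinearMap.comp_apply, evL_word, evL_word, map_smul]
    congr 1
    exact map_dynW ψ f w
  exact LinearMap.congr_fun h z

theorem map_laz (Φ : LFil R L c) (h1 : ∀ x, x ∈ Φ.Λ 1) (Φ' : LFil R L' c)
    (h1' : ∀ x, x ∈ Φ'.Λ 1) (ψ : L →ₗ⁅R⁆ L') (x y : L) :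
    ψ (laz Φ h1 x y) = laz Φ' h1' (ψ x) (ψ y) := by
  unfold laz
  rw [map_evL Φ Φ' ψ _ _ (fun _ => h1' _)]
  congr 1
  have h2 : (fun b => ψ (two x y b)) = two (ψ x) (ψ y) := by
    funext b; cases b <;> rfl
  simp only [h2]

/-- The product does not depend on the filtration. -/
theorem laz_indep (Φ : LFil R L c) (h1 : ∀ x, x ∈ Φ.Λ 1) (Φ' : LFil R L c)
    (h1' : ∀ x, x ∈ Φ'.Λ 1) (x y : L) : laz Φ h1 x y = laz Φ' h1' x y :=
  map_laz Φ h1 Φ' h1' LieHom.id x y

end

/-! ## Change of scalars -/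

section

variable {R R' : Type*} [CommRing R] [CommRing R'] [Algebra R R'] {X : Type*} {c : ℕ}

variable (R R' X c) in
/-- Change of scalars. -/
noncomputable def red : Q R X c →ₐ[R] Q R' X c :=
  Q.algHom (fun x => lt R' c x) (by
    intro w hw
    exact F_eq_zero hw (lift_mem_F _ (fun x => lt_mem_F c x) w))

theorem lift_lt (w : FreeMonoid X) : FreeMonoid.lift (fun x => lt R' c x) w = word R' c w := by
  induction w using FreeMonoid.inductionOn' with
  | one => rw [map_one, word_one]
  | of_mul x v ih => rw [map_mul, FreeMonoid.lift_eval_of, ih, word_mul]; rfl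

theorem red_word (w : FreeMonoid X) : red R R' X c (word R c w) = word R' c w := by
  unfold red
  rw [Q.algHom_word, lift_lt]

theorem red_lt (x : X) : red R R' X c (lt R c x) = lt R' c x := red_word _

theorem inv'_map {k : ℕ} (hk : IsUnit (k : R)) : algebraMap R R' (inv' R k) = inv' R' k := by
  have h1 : inv' R k * k = 1 := Ring.inverse_mul_cancel _ hk
  have h2 := congrArg (algebraMap R R') h1
  rw [map_mul, map_natCast, map_one] at h2
  have h3 : IsUnit (k : R') := IsUnit.of_mul_eq_one_right _ h2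
  have h4 : inv' R' k * k = 1 := Ring.inverse_mul_cancel _ h3
  calc algebraMap R R' (inv' R k) = algebraMap R R' (inv' R k) * (k * inv' R' k) := by
        rw [mul_comm (k : R'), h4, mul_one]
    _ = inv' R' k := by rw [← mul_assoc, h2, one_mul]

theorem ifac_map (hc : Inv R c) {k : ℕ} (hk : k ≤ c) :
    algebraMap R R' (ifac R k) = ifac R' k := by
  have h0 := hc.fac k hk
  have h1 : ifac R k * (k.factorial : R) = 1 := Ring.inverse_mul_cancel _ h0
  have h2 := congrArg (algebraMap R R') h1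
  rw [map_mul, map_natCast, map_one] at h2
  have h3 : IsUnit (k.factorial : R') := IsUnit.of_mul_eq_one_right _ h2
  have h4 : ifac R' k * (k.factorial : R') = 1 := Ring.inverse_mul_cancel _ h3
  calc algebraMap R R' (ifac R k) =
      algebraMap R R' (ifac R k) * ((k.factorial : R') * ifac R' k) := by
        rw [mul_comm (k.factorial : R'), h4, mul_one]
    _ = ifac R' k := by rw [← mul_assoc, h2, one_mul]

theorem red_nexp (hc : Inv R c) (x : Q R X c) :
    red R R' X c (nexp R c x) = nexp R' c (red R R' X c x) := by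
  rw [map_nexp]
  unfold nexp
  refine Finset.sum_congr rfl fun k hk => ?_
  rw [← ifac_map (R := R) (R' := R') hc (by have := Finset.mem_range.1 hk; omega),
    algebraMap_smul]

theorem red_F {k : ℕ} {x : Q R X c} (hx : x ∈ F R X c k) : red R R' X c x ∈ F R' X c k := by
  refine Submodule.span_induction (p := fun x _ => red R R' X c x ∈ F R' X c k) ?_ ?_ ?_ ?_ hx
  · rintro _ ⟨w, hw, rfl⟩
    rw [red_word]
    exact word_mem_F hw
  · rw [map_zero]; exact zero_mem _
  · intro x y _ _ hx hy; rw [map_add]; exact add_mem hx hy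
  · intro r x _ hx
    rw [map_smul, ← algebraMap_smul R' r]
    exact Submodule.smul_mem _ _ hx

theorem Inv.map (hc : Inv R c) : Inv R' c := by
  intro k h0 hk
  have := (hc k h0 hk).map (algebraMap R R')
  rwa [map_natCast] at this

theorem red_bchE (hc : Inv R c) (h1c : 1 ≤ c) : red R R' Bool c (bchE R c) = bchE R' c := by
  have h0 : bchE R c ∈ lieS R Bool c := bm_mem hc h1c (lt_mem_lieS _) (lt_mem_lieS _)
  have h1 : nexp R c (bchE R c) = nexp R c (lt R c false) * nexp R c (lt R c true) :=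
    nexp_bm hc h1c (lt_mem_lieS _) (lt_mem_lieS _)
  have hc' : Inv R' c := Inv.map (R := R) (R' := R') hc
  have h0' : bchE R' c ∈ lieS R' Bool c := bm_mem hc' h1c (lt_mem_lieS _) (lt_mem_lieS _)
  have h1' : nexp R' c (bchE R' c) = nexp R' c (lt R' c false) * nexp R' c (lt R' c true) :=
    nexp_bm hc' h1c (lt_mem_lieS _) (lt_mem_lieS _)
  refine nexp_inj h1c (red_F (lieS_le_F h0)) (lieS_le_F h0') ?_
  rw [← red_nexp hc, h1, map_mul, red_nexp hc, red_nexp hc, red_lt, red_lt, h1']

variable {L : Type*} [LieRing L] [LieAlgebra R L] [LieAlgebra R' L]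

omit [Algebra R R'] in
theorem actW_scalar (f : X → L) (w : FreeMonoid X) (l : L) :
    unop (actW R f w) l = unop (actW R' f w) l := by
  induction w using FreeMonoid.inductionOn' generalizing l with
  | one => rw [map_one, map_one]; rfl
  | of_mul x v ih => rw [actW_mul, actW_of, actW_mul, actW_of, ih]

omit [Algebra R R'] in
theorem dynW_scalar (f : X → L) (w : FreeMonoid X) : dynW R f w = dynW R' f w := by
  induction w using FreeMonoid.inductionOn' with
  | one => rw [dynW_one, dynW_one]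
  | of_mul x v ih => rw [dynW_of_mul, dynW_of_mul, actW_scalar (R := R) (R' := R')]

theorem evL_scalar [IsScalarTower R R' L] (hc : Inv R c) (Φ : LFil R L c) (Φ' : LFil R' L c)
    (f : X → L) (hf : ∀ x, f x ∈ Φ.Λ 1) (hf' : ∀ x, f x ∈ Φ'.Λ 1) (z : Q R X c) :
    evL Φ' f hf' (red R R' X c z) = evL Φ f hf z := by
  induction z using Q.induction with
  | hw w =>
    rw [red_word, evL_word, evL_word, dynW_scalar (R := R) (R' := R')]
    rcases Nat.eq_zero_or_pos w.length with h | h
    · have h2 : w = 1 := FreeMonoid.length_eq_zero.1 h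
      rw [h2, dynW_one, smul_zero, smul_zero]
    · rcases Nat.lt_or_ge c w.length with h3 | h3
      · have h4 : dynW R' f w = 0 := Φ'.bot _ _ h3 (dynW_mem Φ' f w hf')
        rw [h4, smul_zero, smul_zero]
      · rw [← inv'_map (R := R) (R' := R') (hc _ h h3), algebraMap_smul]
  | hadd x y hx hy => rw [map_add, map_add, map_add, hx, hy]
  | hsmul r x hx =>
    have h2 : red R R' X c (r • x) = r • red R R' X c x := map_smul _ _ _
    rw [h2, ← algebraMap_smul R' r (red R R' X c x), LinearMap.map_smul, hx,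
      algebraMap_smul, LinearMap.map_smul]

/-- The product does not depend on the ring of scalars. -/
theorem laz_scalar [IsScalarTower R R' L] (hc : Inv R c) (h1c : 1 ≤ c) (Φ : LFil R L c)
    (h1 : ∀ x, x ∈ Φ.Λ 1) (Φ' : LFil R' L c) (h1' : ∀ x, x ∈ Φ'.Λ 1) (x y : L) :
    laz Φ' h1' x y = laz Φ h1 x y := by
  unfold laz
  rw [← evL_scalar (R := R) (R' := R') hc Φ Φ' (two x y) (fun _ => h1 _) (fun _ => h1' _),
    red_bchE hc h1c]

end

/-! ## Weights -/

section

variable {R : Type*} [CommRing R] {X : Type*} {c : ℕ}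

/-- The weight of a word. -/
def wt (ω : X → ℕ) (w : FreeMonoid X) : ℕ := (w.toList.map ω).sum

theorem wt_mul (ω : X → ℕ) (v w : FreeMonoid X) : wt ω (v * w) = wt ω v + wt ω w := by
  unfold wt
  rw [FreeMonoid.toList_mul, List.map_append, List.sum_append]

theorem wt_of (ω : X → ℕ) (x : X) : wt ω (FreeMonoid.of x) = ω x := by
  unfold wt
  rw [FreeMonoid.toList_of, List.map_singleton, List.sum_singleton]

variable (R c) in
/-- The filtration by weights. -/
noncomputable def FW (ω : X → ℕ) (k : ℕ) : Submodule R (Q R X c) :=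
  Submodule.span R {x | ∃ w : FreeMonoid X, k ≤ wt ω w ∧ x = word R c w}

theorem FW_zero (ω : X → ℕ) (x : Q R X c) : x ∈ FW R c ω 0 := by
  induction x using Q.induction with
  | hw w => exact Submodule.subset_span ⟨w, Nat.zero_le _, rfl⟩
  | hadd x y hx hy => exact add_mem hx hy
  | hsmul r x hx => exact Submodule.smul_mem _ _ hx

theorem FW_mul (ω : X → ℕ) {a b : ℕ} {x y : Q R X c} (hx : x ∈ FW R c ω a)
    (hy : y ∈ FW R c ω b) : x * y ∈ FW R c ω (a + b) := by
  refine Submodule.span_induction (p := fun x _ => x * y ∈ FW R c ω (a + b)) ?_ ?_ ?_ ?_ hx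
  · rintro x ⟨v, hv, rfl⟩
    refine Submodule.span_induction (p := fun y _ => word R c v * y ∈ FW R c ω (a + b))
      ?_ ?_ ?_ ?_ hy
    · rintro y ⟨w, hw, rfl⟩
      rw [← word_mul]
      exact Submodule.subset_span ⟨_, by rw [wt_mul]; omega, rfl⟩
    · rw [mul_zero]; exact zero_mem _
    · intro y z _ _ hy hz; rw [mul_add]; exact add_mem hy hz
    · intro r y _ hy; rw [mul_smul_comm]; exact Submodule.smul_mem _ _ hy
  · rw [zero_mul]; exact zero_mem _
  · intro x z _ _ hx hz; rw [add_mul]; exact add_mem hx hz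
  · intro r x _ hx; rw [smul_mul_assoc]; exact Submodule.smul_mem _ _ hx

theorem FW_mul_right (ω : X → ℕ) {a : ℕ} {x : Q R X c} (y : Q R X c) (hx : x ∈ FW R c ω a) :
    x * y ∈ FW R c ω a := by
  have := FW_mul ω hx (FW_zero ω y)
  rwa [Nat.add_zero a] at this

theorem lt_mem_FW (ω : X → ℕ) (x : X) : lt R c x ∈ FW R c ω (ω x) :=
  Submodule.subset_span ⟨FreeMonoid.of x, (wt_of ω x).ge, rfl⟩

theorem nexp_sub_mem_FW (ω : X → ℕ) {k : ℕ} {v : Q R X c} (hv : v ∈ FW R c ω k) :
    nexp R c v - 1 ∈ FW R c ω k := by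
  unfold nexp
  rw [Finset.sum_range_succ', pow_zero, ifac_zero, one_smul, add_sub_cancel_right]
  refine sum_mem fun i _ => Submodule.smul_mem _ _ ?_
  rw [pow_succ']
  exact FW_mul_right ω _ hv

theorem isUnit_of_sub_mem {x : Q R X c} (hx : x - 1 ∈ F R X c 1) : IsUnit x := by
  have h : IsNilpotent (x - 1) := by
    refine ⟨c + 1, ?_⟩
    have := F_pow hx (c + 1)
    exact F_eq_zero (by omega : c < (c + 1) * 1) this
  have h2 := h.isUnit_one_add
  rwa [add_sub_cancel] at h2

theorem mem_FW_of_nexp (h1c : 1 ≤ c) (ω : X → ℕ) {k : ℕ} {z : Q R X c} (hz : z ∈ F R X c 1)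
    (h : nexp R c z - 1 ∈ FW R c ω k) : z ∈ FW R c ω k := by
  have h1 : nexp R c z - 1 = z * ∑ i ∈ range c, ifac R (i + 1) • z ^ i := by
    unfold nexp
    rw [Finset.sum_range_succ', pow_zero, ifac_zero, one_smul, add_sub_cancel_right, mul_sum]
    refine Finset.sum_congr rfl fun i _ => ?_
    rw [mul_smul_comm, ← pow_succ']
  have h2 : (∑ i ∈ range c, ifac R (i + 1) • z ^ i) - 1 ∈ F R X c 1 := by
    obtain ⟨d, rfl⟩ : ∃ d, c = d + 1 := ⟨c - 1, by omega⟩
    rw [Finset.sum_range_succ', pow_zero, zero_add, ifac_one, one_smul, add_sub_cancel_right]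
    refine sum_mem fun i _ => Submodule.smul_mem _ _ ?_
    rw [pow_succ']
    exact F_mul_right _ hz
  obtain ⟨e, he⟩ := isUnit_of_sub_mem h2
  rw [h1, ← he] at h
  have h3 := FW_mul_right ω (((e⁻¹ : (Q R X c)ˣ)) : Q R X c) h
  rwa [mul_assoc, Units.mul_inv, mul_one] at h3

variable {L : Type*} [LieRing L] [LieAlgebra R L] (Φ : LFil R L c) (h1 : ∀ x, x ∈ Φ.Λ 1)

theorem actW_wt (ω : X → ℕ) {f : X → L} (hf : ∀ x, f x ∈ Φ.Λ (ω x)) (w : FreeMonoid X)
    {a : ℕ} {l : L} (hl : l ∈ Φ.Λ a) : unop (actW R f w) l ∈ Φ.Λ (a + wt ω w) := by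
  induction w using FreeMonoid.inductionOn' generalizing a l with
  | one => simpa [wt] using hl
  | of_mul x v ih =>
    rw [actW_mul, actW_of, wt_mul, wt_of, ← add_assoc]
    exact ih (Φ.lie _ _ _ _ hl (hf x))

theorem dynW_wt (ω : X → ℕ) {f : X → L} (hf : ∀ x, f x ∈ Φ.Λ (ω x)) (w : FreeMonoid X) :
    dynW R f w ∈ Φ.Λ (wt ω w) := by
  induction w using FreeMonoid.inductionOn' with
  | one => rw [dynW_one]; exact zero_mem _
  | of_mul x u _ =>
    rw [dynW_of_mul, wt_mul, wt_of]
    exact actW_wt Φ ω hf u (hf x)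

include h1 in
theorem evL_FW (ω : X → ℕ) {f : X → L} (hf : ∀ x, f x ∈ Φ.Λ (ω x)) {k : ℕ} {u : Q R X c}
    (hu : u ∈ FW R c ω k) : evL Φ f (fun _ => h1 _) u ∈ Φ.Λ k := by
  refine Submodule.span_induction (p := fun u _ => evL Φ f (fun _ => h1 _) u ∈ Φ.Λ k)
    ?_ ?_ ?_ ?_ hu
  · rintro _ ⟨w, hw, rfl⟩
    rw [evL_word]
    exact Submodule.smul_mem _ _ (Φ.anti _ _ hw (dynW_wt Φ ω hf w))
  · rw [map_zero]; exact zero_mem _
  · intro x y _ _ hx hy; rw [map_add]; exact add_mem hx hy
  · intro r x _ hx; rw [map_smul]; exact Submodule.smul_mem _ _ hx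

theorem laz_mem (hc : Inv R c) (h1c : 1 ≤ c) {k : ℕ} {x y : L} (hx : x ∈ Φ.Λ k)
    (hy : y ∈ Φ.Λ k) : laz Φ h1 x y ∈ Φ.Λ k := by
  have hm : bchE R c ∈ F R Bool c 1 :=
    lieS_le_F (bm_mem hc h1c (lt_mem_lieS _) (lt_mem_lieS _))
  refine evL_FW Φ h1 (fun _ => k) (f := two x y) ?_ (k := k) ?_
  · intro b; cases b
    · exact hx
    · exact hy
  · refine Submodule.span_induction (p := fun u _ => u ∈ FW R c (fun _ => k) k) ?_ ?_ ?_ ?_ hm
    · rintro _ ⟨w, hw, rfl⟩
      refine Submodule.subset_span ⟨w, ?_, rfl⟩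
      have h2 : wt (fun _ => k) w = w.length * k := by
        unfold wt
        rw [List.map_const', List.sum_replicate, smul_eq_mul]; rfl
      rw [h2]
      exact Nat.le_mul_of_pos_left k hw
    · exact zero_mem _
    · intro x y _ _ hx hy; exact add_mem hx hy
    · intro r x _ hx; exact Submodule.smul_mem _ _ hx

/-- The commutator of two elements of the group of a Lie algebra. -/
theorem laz_comm_mem (hc : Inv R c) (h1c : 1 ≤ c) {i j : ℕ} {x y : L} (hx : x ∈ Φ.Λ i)
    (hy : y ∈ Φ.Λ j) :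
    laz Φ h1 (laz Φ h1 (laz Φ h1 x y) (-x)) (-y) ∈ Φ.Λ (i + j) := by
  have hX : lt R c false ∈ lieS R Bool c := lt_mem_lieS _
  have hY : lt R c true ∈ lieS R Bool c := lt_mem_lieS _
  have hXY := bm_mem hc h1c hX hY
  have hXYX := bm_mem hc h1c hXY (neg_mem hX)
  have hz := bm_mem hc h1c hXYX (neg_mem hY)
  have h2 : laz Φ h1 (laz Φ h1 (laz Φ h1 x y) (-x)) (-y) =
      evL Φ (two x y) (fun _ => h1 _)
        (bm (bm (bm (lt R c false) (lt R c true)) (-lt R c false)) (-lt R c true)) := by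
    rw [evL_bm Φ h1 hc h1c _ hXYX (neg_mem hY), evL_bm Φ h1 hc h1c _ hXY (neg_mem hX),
      evL_bm Φ h1 hc h1c _ hX hY, map_neg, map_neg, evL_lt _ _ _ hc, evL_lt _ _ _ hc]
    rfl
  rw [h2]
  let ω : Bool → ℕ := fun b => if b then j else i
  refine evL_FW Φ h1 ω (f := two x y) ?_ (k := i + j) ?_
  · intro b; cases b
    · exact hx
    · exact hy
  refine mem_FW_of_nexp h1c ω (lieS_le_F hz) ?_
  rw [nexp_bm hc h1c hXYX (neg_mem hY), nexp_bm hc h1c hXY (neg_mem hX), nexp_bm hc h1c hX hY]
  have h3 : nexp R c (lt R c false) - 1 ∈ FW R c ω i := nexp_sub_mem_FW ω (lt_mem_FW ω false)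
  have h4 : nexp R c (lt R c true) - 1 ∈ FW R c ω j := nexp_sub_mem_FW ω (lt_mem_FW ω true)
  have h5 := nexp_mul_neg (R := R) (X := Bool) hc (lt_mem_F c false)
  have h6 := nexp_mul_neg (R := R) (X := Bool) hc (lt_mem_F c true)
  set A := nexp R c (lt R c false)
  set B := nexp R c (lt R c true)
  set A' := nexp R c (-lt R c false)
  set B' := nexp R c (-lt R c true)
  have h7 : A * B * A' * B' - 1 =
      ((A - 1) * (B - 1) - (B - 1) * (A - 1)) * (A' * B') := by
    have h8 : (A - 1) * (B - 1) - (B - 1) * (A - 1) = A * B - B * A := by noncomm_ring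
    have h9 : B * A * (A' * B') = 1 := by
      rw [mul_assoc, ← mul_assoc A, h5, one_mul, h6]
    rw [h8, sub_mul, h9, ← mul_assoc]
  rw [h7]
  refine FW_mul_right ω _ (sub_mem (FW_mul ω h3 h4) ?_)
  have h8 := FW_mul ω h4 h3
  rwa [Nat.add_comm j i] at h8

/-- The lower central series of a group mapping to the group of a Lie algebra. -/
theorem Gm_map (hc : Inv R c) (h1c : 1 ≤ c) {G : Type*} [Group G] (φ : G → L)
    (hφ : ∀ x y, φ (x * y) = laz Φ h1 (φ x) (φ y)) {k : ℕ} {g : G} (hg : g ∈ Gm G k) :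
    φ g ∈ Φ.Λ (k + 1) := by
  let D : ℕ → Subgroup G := fun k =>
    { carrier := {g | φ g ∈ Φ.Λ (k + 1)}
      mul_mem' := by
        intro a b ha hb
        show φ (a * b) ∈ Φ.Λ (k + 1)
        rw [hφ]
        exact laz_mem Φ h1 hc h1c ha hb
      one_mem' := by
        show φ 1 ∈ Φ.Λ (k + 1)
        rw [laz_map_one Φ h1 hc h1c φ hφ]
        exact zero_mem _
      inv_mem' := by
        intro a ha
        show φ a⁻¹ ∈ Φ.Λ (k + 1)
        rw [laz_map_inv Φ h1 hc h1c φ hφ]
        exact neg_mem ha }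
  have key : ∀ k, Gm G k ≤ D k := by
    intro k
    induction k with
    | zero => exact fun g _ => h1 _
    | succ k ih =>
      refine Subgroup.commutator_le.2 fun a ha b _ => ?_
      show φ ⁅a, b⁆ ∈ Φ.Λ (k + 1 + 1)
      rw [commutatorElement_def, hφ, hφ, hφ, laz_map_inv Φ h1 hc h1c φ hφ,
        laz_map_inv Φ h1 hc h1c φ hφ]
      exact laz_comm_mem Φ h1 hc h1c (ih ha) (h1 _)
  exact key k hg

end

/-! ## The filtration by the lower central series -/

section

variable {R : Type*} [CommRing R] {c : ℕ} {L : Type*} [LieRing L] [LieAlgebra R L]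

theorem lie_mem_lcs (a : ℕ) : ∀ b : ℕ, ∀ x y : L, x ∈ LieModule.lowerCentralSeries R L L a →
    y ∈ LieModule.lowerCentralSeries R L L b →
    ⁅x, y⁆ ∈ LieModule.lowerCentralSeries R L L (a + b + 1) := by
  induction a with
  | zero =>
    intro b x y _ hy
    rw [Nat.zero_add, LieModule.lowerCentralSeries_succ]
    exact LieSubmodule.lie_mem_lie (LieSubmodule.mem_top _) hy
  | succ a ih =>
    intro b x y hx hy
    rw [LieModule.lowerCentralSeries_succ, ← LieSubmodule.mem_toSubmodule,
      LieSubmodule.lieIdeal_oper_eq_linear_span'] at hx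
    refine Submodule.span_induction (p := fun x _ => ⁅x, y⁆ ∈
      LieModule.lowerCentralSeries R L L (a + 1 + b + 1)) ?_ ?_ ?_ ?_ hx
    · rintro _ ⟨u, _, v, hv, rfl⟩
      rw [lie_lie]
      refine sub_mem ?_ ?_
      · have h2 := ih b v y hv hy
        have h3 : a + 1 + b + 1 = (a + b + 1) + 1 := by omega
        rw [h3, LieModule.lowerCentralSeries_succ]
        exact LieSubmodule.lie_mem_lie (LieSubmodule.mem_top _) h2
      · have h2 : ⁅u, y⁆ ∈ LieModule.lowerCentralSeries R L L (b + 1) := by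
          rw [LieModule.lowerCentralSeries_succ]
          exact LieSubmodule.lie_mem_lie (LieSubmodule.mem_top _) hy
        have h3 := ih (b + 1) v _ hv h2
        have h4 : a + 1 + b + 1 = a + (b + 1) + 1 := by omega
        rwa [h4]
    · rw [zero_lie]; exact zero_mem _
    · intro x z _ _ hx hz; rw [add_lie]; exact add_mem hx hz
    · intro r x _ hx; rw [smul_lie]; exact (LieModule.lowerCentralSeries R L L (a + 1 + b + 1)).toSubmodule.smul_mem r hx

/-- The lower central series as a filtration. -/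
noncomputable def lcsFil (h : LieModule.lowerCentralSeries R L L c = ⊥) : LFil R L c where
  Λ k := (LieModule.lowerCentralSeries R L L (k - 1)).toSubmodule
  top x := by rw [Nat.zero_sub, LieModule.lowerCentralSeries_zero]; trivial
  anti a b hab := LieModule.antitone_lowerCentralSeries R L L (by omega)
  lie a b x y hx hy := by
    refine (LieModule.antitone_lowerCentralSeries R L L ?_) (lie_mem_lcs (a - 1) (b - 1) x y hx hy)
    omega
  bot k x hk hx := by
    have h2 := (LieModule.antitone_lowerCentralSeries R L L (show c ≤ k - 1 by omega)) hx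
    rw [h] at h2
    exact (LieSubmodule.mem_bot _).1 h2

theorem lcsFil_one (h : LieModule.lowerCentralSeries R L L c = ⊥) (x : L) :
    x ∈ (lcsFil h).Λ 1 := by
  show x ∈ LieModule.lowerCentralSeries R L L (1 - 1)
  rw [Nat.sub_self, LieModule.lowerCentralSeries_zero]
  exact LieSubmodule.mem_top _

end

end Pool.Agent.helper40.Laz
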