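import Pool.Agent.helper40.Laz.Fun2

/-!
# Lazard library: the logarithm series
-/

namespace Pool.Agent.helper40.Laz

open Finset

section Poly

open Polynomial

variable {R : Type*} [CommRing R] {c : ℕ}

variable (R c) in
/-- The logarithm polynomial of `1 + X`. -/
noncomputable def lgP : R[X] := ∑ k ∈ Ico 1 (c + 1), C ((-1) ^ (k + 1) * inv' R k) * X ^ k

variable (R c) in
/-- The exponential polynomial. -/
noncomputable def exP : R[X] := ∑ k ∈ range (c + 1), C (ifac R k) * X ^ k

theorem coeff_exP (n : ℕ) : (exP R c).coeff n = if n ≤ c then ifac R n else 0 := by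
  unfold exP
  rw [finsetSum_coeff]
  simp only [coeff_C_mul, coeff_X_pow, mul_ite, mul_one, mul_zero]
  rw [Finset.sum_ite_eq]
  simp only [mem_range, Nat.lt_succ_iff]

theorem coeff_lgP (n : ℕ) : (lgP R c).coeff n =
    if 1 ≤ n ∧ n ≤ c then (-1) ^ (n + 1) * inv' R n else 0 := by
  unfold lgP
  rw [finsetSum_coeff]
  simp only [coeff_C_mul, coeff_X_pow, mul_ite, mul_one, mul_zero]
  rw [Finset.sum_ite_eq]
  simp only [mem_Ico, Nat.lt_succ_iff]

theorem ifac_succ_mul (hc : Inv R c) {n : ℕ} (hn : n + 1 ≤ c) :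
    ifac R (n + 1) * (n + 1 : ℕ) = ifac R n := by
  have h1 := ifac_mul hc hn
  have h2 := ifac_mul hc (show n ≤ c by omega)
  rw [Nat.factorial_succ, Nat.cast_mul] at h1
  calc ifac R (n + 1) * ((n + 1 : ℕ) : R)
      = ifac R (n + 1) * ((n + 1 : ℕ) : R) * ((n.factorial : R) * ifac R n) := by rw [h2, mul_one]
    _ = (((n + 1 : ℕ) : R) * (n.factorial : R) * ifac R (n + 1)) * ifac R n := by ring
    _ = ifac R n := by rw [h1, one_mul]

theorem derivative_exP (hc : Inv R c) :
    derivative (exP R c) = exP R c - C (ifac R c) * X ^ c := by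
  ext n
  rw [coeff_derivative, coeff_sub, coeff_exP, coeff_exP, coeff_C_mul, coeff_X_pow]
  rcases lt_trichotomy n c with h | h | h
  · rw [if_pos (by omega), if_pos (by omega), if_neg (by omega), mul_zero, sub_zero]
    have := ifac_succ_mul hc (show n + 1 ≤ c by omega)
    rw [Nat.cast_add, Nat.cast_one] at this
    exact this
  · subst h
    rw [if_neg (by omega), if_pos le_rfl, if_pos rfl]
    ring
  · rw [if_neg (by omega), if_neg (by omega), if_neg (by omega)]
    ring

theorem derivative_lgP (hc : Inv R c) :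
    (1 + X) * derivative (lgP R c) = 1 - (-X) ^ c := by
  have h1 : ∀ n, (derivative (lgP R c)).coeff n = if n < c then (-1) ^ n else 0 := by
    intro n
    rw [coeff_derivative, coeff_lgP]
    by_cases h : n < c
    · rw [if_pos ⟨by omega, by omega⟩, if_pos h]
      have := inv'_mul hc (Nat.succ_pos n) (show n + 1 ≤ c by omega)
      rw [Nat.succ_eq_add_one, Nat.cast_add, Nat.cast_one] at this
      calc (-1 : R) ^ (n + 1 + 1) * inv' R (n + 1) * ((n : R) + 1)
          = (-1) ^ n * (((n : R) + 1) * inv' R (n + 1)) := by ring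
        _ = (-1) ^ n := by rw [this, mul_one]
    · rw [if_neg (by omega), if_neg h, zero_mul]
  have h2 : derivative (lgP R c) = ∑ k ∈ range c, (-X) ^ k := by
    ext n
    rw [h1, finsetSum_coeff]
    have h3 : ∀ k, ((-X : R[X]) ^ k).coeff n = if n = k then (-1) ^ k else 0 := by
      intro k
      rw [neg_pow, show ((-1 : R[X]) ^ k) = C ((-1) ^ k) by rw [map_pow, map_neg, map_one],
        coeff_C_mul, coeff_X_pow, mul_ite, mul_one, mul_zero]
    simp only [h3]
    rw [Finset.sum_ite_eq]
    simp only [mem_range]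
  rw [h2]
  have h4 := geom_sum_mul (-X : R[X]) c
  have h5 : (1 + X : R[X]) = -((-X) - 1) := by ring
  rw [h5, neg_mul, mul_comm, h4]
  ring

theorem X_dvd_lgP : (X : R[X]) ∣ lgP R c := by
  rw [X_dvd_iff, coeff_lgP, if_neg (by omega)]

/-- `exp (log (1 + X)) = 1 + X` modulo `X ^ (c+1)`. -/
theorem exP_lgP (hc : Inv R c) : (X : R[X]) ^ (c + 1) ∣ (exP R c).comp (lgP R c) - (1 + X) := by
  set f := (exP R c).comp (lgP R c) with hf
  have h1 : (X : R[X]) ^ c ∣ (1 + X) * derivative f - f := by
    have h2 : (1 + X) * derivative f - f = -((-X) ^ c * (f - C (ifac R c) * lgP R c ^ c)) -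
        C (ifac R c) * lgP R c ^ c := by
      rw [hf, derivative_comp, ← mul_assoc, derivative_lgP hc, derivative_exP hc, sub_comp,
        mul_comp, C_comp, X_pow_comp]
      ring
    rw [h2]
    have h3 : (X : R[X]) ^ c ∣ lgP R c ^ c := pow_dvd_pow_of_dvd X_dvd_lgP c
    refine dvd_sub (dvd_neg.2 (Dvd.dvd.mul_right ?_ _)) (Dvd.dvd.mul_left h3 _)
    rw [neg_pow]
    exact dvd_mul_left _ _
  have h0 : f.coeff 0 = 1 := by
    rw [coeff_zero_eq_eval_zero, hf, eval_comp, ← coeff_zero_eq_eval_zero, coeff_lgP,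
      if_neg (by omega), ← coeff_zero_eq_eval_zero, coeff_exP, if_pos (Nat.zero_le _), ifac_zero]
  have hrec : ∀ n, n < c → ((n : R) + 1) * f.coeff (n + 1) = (1 - n) * f.coeff n := by
    intro n hn
    have h4 := X_pow_dvd_iff.1 h1 n hn
    rw [coeff_sub, add_mul, one_mul, coeff_add, coeff_derivative] at h4
    cases n with
    | zero =>
      rw [coeff_X_mul_zero] at h4
      rw [Nat.cast_zero] at h4 ⊢
      linear_combination h4
    | succ n =>
      rw [coeff_X_mul, coeff_derivative] at h4
      rw [Nat.cast_add, Nat.cast_one] at h4 ⊢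
      linear_combination h4
  have hcan : ∀ n, n < c → ∀ y : R, ((n : R) + 1) * y = 0 → y = 0 := by
    intro n hn y hy
    have hu : IsUnit (((n + 1 : ℕ) : R)) := hc (n + 1) (Nat.succ_pos n) (by omega)
    rw [Nat.cast_add, Nat.cast_one] at hu
    exact (hu.mul_right_eq_zero).1 hy
  have h2 : ∀ n, n + 2 ≤ c → f.coeff (n + 2) = 0 := by
    intro n
    induction n with
    | zero =>
      intro hn
      apply hcan 1 (by omega)
      have := hrec 1 (by omega)
      rw [Nat.cast_one, sub_self, zero_mul] at this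
      rw [Nat.cast_one]
      exact this
    | succ n ih =>
      intro hn
      apply hcan (n + 2) (by omega)
      rw [hrec (n + 2) (by omega), ih (by omega), mul_zero]
  rw [X_pow_dvd_iff]
  intro n hn
  rw [coeff_sub, coeff_add, coeff_one, coeff_X]
  match n, hn with
  | 0, _ => rw [h0]; simp
  | 1, hn =>
    have := hrec 0 (by omega)
    rw [Nat.cast_zero, zero_add, sub_zero, one_mul, one_mul, h0] at this
    rw [zero_add] at this
    rw [this]
    simp
  | n + 2, hn =>
    rw [h2 n (by omega)]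
    simp

end Poly

section

open Polynomial

variable {R : Type*} [CommRing R] {X : Type*} {c : ℕ}

variable (R c) in
/-- The truncated logarithm of `1 + u`. -/
noncomputable def nlog {A : Type*} [Ring A] [Algebra R A] (u : A) : A :=
  ∑ k ∈ Ico 1 (c + 1), ((-1) ^ (k + 1) * inv' R k) • u ^ k

theorem aeval_lgP {A : Type*} [Ring A] [Algebra R A] (u : A) : aeval u (lgP R c) = nlog R c u := by
  unfold lgP nlog
  rw [map_sum]
  refine Finset.sum_congr rfl fun k _ => ?_
  rw [map_mul, aeval_C, map_pow, aeval_X, Algebra.smul_def]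

theorem aeval_exP {A : Type*} [Ring A] [Algebra R A] (u : A) : aeval u (exP R c) = nexp R c u := by
  unfold exP nexp
  rw [map_sum]
  refine Finset.sum_congr rfl fun k _ => ?_
  rw [map_mul, aeval_C, map_pow, aeval_X, Algebra.smul_def]

theorem nexp_nlog' (hc : Inv R c) {A : Type*} [Ring A] [Algebra R A] {u : A}
    (hu : u ^ (c + 1) = 0) : nexp R c (nlog R c u) = 1 + u := by
  obtain ⟨q, hq⟩ := exP_lgP hc
  have h := congrArg (aeval u) hq
  rw [map_sub, aeval_comp, aeval_lgP, aeval_exP, map_mul, map_pow, aeval_X, hu, zero_mul, map_add,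
    map_one, aeval_X] at h
  exact sub_eq_zero.1 h

theorem map_nlog {A B : Type*} [Ring A] [Algebra R A] [Ring B] [Algebra R B] (f : A →ₐ[R] B)
    (u : A) : f (nlog R c u) = nlog R c (f u) := by
  unfold nlog
  rw [map_sum]
  refine Finset.sum_congr rfl fun k _ => ?_
  rw [map_smul, map_pow]

theorem nlog_mem {u : Q R X c} (hu : u ∈ F R X c 1) : nlog R c u ∈ F R X c 1 := by
  unfold nlog
  refine sum_mem fun k hk => Submodule.smul_mem _ _ ?_
  obtain ⟨n, rfl⟩ : ∃ n, k = n + 1 := ⟨k - 1, by have := (mem_Ico.1 hk).1; omega⟩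
  rw [pow_succ]
  exact F_mul_left _ hu

theorem nexp_nlog (hc : Inv R c) {u : Q R X c} (hu : u ∈ F R X c 1) :
    nexp R c (nlog R c u) = 1 + u := by
  refine nexp_nlog' hc (F_eq_zero (k := c + 1) (Nat.lt_succ_self c) ?_)
  have := F_pow hu (c + 1)
  rwa [mul_one] at this

/-- The logarithm is given by the logarithm series. -/
theorem lg_eq_nlog (hc : Inv R c) (h1c : 1 ≤ c) {g : Q R X c} (hg : g - 1 ∈ F R X c 1) :
    lg g = nlog R c (g - 1) := by
  have h := nexp_nlog hc hg
  rw [add_sub_cancel] at h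
  conv_lhs => rw [← h]
  exact lg_nexp h1c (nlog_mem hg)

/-- The Baker-Campbell-Hausdorff element is `log (e^X e^Y)`. -/
theorem bchE_eq (hc : Inv R c) (h1c : 1 ≤ c) : bchE R c =
    nlog R c (nexp R c (lt R c false) * nexp R c (lt R c true) - 1) := by
  unfold bchE
  refine lg_eq_nlog hc h1c ?_
  have h1 := nexp_sub_mem (R := R) (lt_mem_F c false)
  have h2 := nexp_sub_mem (R := R) (lt_mem_F c true)
  have h3 : nexp R c (lt R c false) * nexp R c (lt R c true) - 1 =
      (nexp R c (lt R c false) - 1) * nexp R c (lt R c true) +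
      (nexp R c (lt R c true) - 1) := by noncomm_ring
  rw [h3]
  exact add_mem (F_mul_right _ h1) h2

end

end Pool.Agent.helper40.Laz
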