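import Mathlib

/-!
# Lazard library, part 7: commutator calculus
-/

namespace Pool.Agent.helper40.Laz

open Subgroup

open scoped commutatorElement Pointwise

variable {G : Type*} [Group G]

variable (G) in
/-- The lower central series, starting with `Gm 0 = G`. -/
abbrev Gm (k : ℕ) : Subgroup G := (⊤ : Subgroup G).lowerCentralSeries k

theorem Gm_anti {i j : ℕ} (h : i ≤ j) : Gm G j ≤ Gm G i :=
  Subgroup.lowerCentralSeries_antitone _ h

theorem Gm_comm_top {i : ℕ} {a : G} (ha : a ∈ Gm G i) (x : G) : ⁅a, x⁆ ∈ Gm G (i + 1) :=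
  commutator_mem_commutator ha (mem_top x)

theorem Gm_comm_le (i j : ℕ) : ⁅Gm G i, Gm G j⁆ ≤ Gm G (i + j + 1) := by
  induction j generalizing i with
  | zero => exact le_rfl
  | succ j ih =>
    have h1 : ⁅⁅(⊤ : Subgroup G), Gm G i⁆, Gm G j⁆ ≤ Gm G (i + (j + 1) + 1) := by
      have : ⁅(⊤ : Subgroup G), Gm G i⁆ = Gm G (i + 1) := commutator_comm _ _
      rw [this]
      exact (ih (i + 1)).trans (le_of_eq (by congr 1; omega))
    have h2 : ⁅⁅Gm G i, Gm G j⁆, (⊤ : Subgroup G)⁆ ≤ Gm G (i + (j + 1) + 1) :=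
      (commutator_mono (ih i) le_rfl).trans (le_of_eq (by
        show Gm G (i + j + 1 + 1) = _
        congr 1))
    let π := QuotientGroup.mk' (Gm G (i + (j + 1) + 1))
    have hker : ∀ K : Subgroup G, K ≤ Gm G (i + (j + 1) + 1) → K.map π = ⊥ := by
      intro K hK
      rw [Subgroup.map_eq_bot_iff, QuotientGroup.ker_mk']
      exact hK
    have h3 := commutator_commutator_eq_bot_of_rotate (H₁ := (Gm G j).map π)
      (H₂ := (⊤ : Subgroup G).map π) (H₃ := (Gm G i).map π)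
      (by rw [← Subgroup.map_commutator, ← Subgroup.map_commutator]; exact hker _ h1)
      (by rw [← Subgroup.map_commutator, ← Subgroup.map_commutator]; exact hker _ h2)
    rw [← Subgroup.map_commutator, ← Subgroup.map_commutator, Subgroup.map_eq_bot_iff,
      QuotientGroup.ker_mk', commutator_comm] at h3
    exact h3

theorem Gm_comm {i j : ℕ} {a b : G} (ha : a ∈ Gm G i) (hb : b ∈ Gm G j) :
    ⁅a, b⁆ ∈ Gm G (i + j + 1) := Gm_comm_le i j (commutator_mem_commutator ha hb)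

/-- Left-normed commutators. -/
def Cw {X : Type*} (f : X → G) : G → List X → G
  | a, [] => a
  | a, x :: s => Cw f ⁅a, f x⁆ s

variable {X : Type*} (f : X → G)

theorem Cw_nil (a : G) : Cw f a [] = a := rfl

theorem Cw_cons (a : G) (x : X) (s : List X) : Cw f a (x :: s) = Cw f ⁅a, f x⁆ s := rfl

theorem Cw_append (a : G) (u v : List X) : Cw f a (u ++ v) = Cw f (Cw f a u) v := by
  induction u generalizing a with
  | nil => rfl
  | cons x u ih => rw [List.cons_append, Cw_cons, Cw_cons, ih]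

theorem Cw_mem {i : ℕ} {a : G} (ha : a ∈ Gm G i) (s : List X) :
    Cw f a s ∈ Gm G (i + s.length) := by
  induction s generalizing i a with
  | nil => exact ha
  | cons x s ih =>
    rw [Cw_cons, List.length_cons]
    have := ih (Gm_comm_top ha (f x))
    rwa [show i + (s.length + 1) = i + 1 + s.length by omega]

theorem Cw_one (s : List X) : Cw f (1 : G) s = 1 := by
  induction s with
  | nil => rfl
  | cons x s ih => rw [Cw_cons, commutatorElement_one_left, ih]

section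

variable {n : ℕ} (hn : Gm G (n + 1) = ⊥)

include hn

theorem Cw_eq_one {i : ℕ} {a : G} (ha : a ∈ Gm G i) (s : List X) (h : n < i + s.length) :
    Cw f a s = 1 := by
  have := Gm_anti (show n + 1 ≤ i + s.length by omega) (Cw_mem f ha s)
  rw [hn] at this
  exact this

theorem Cw_mul {i : ℕ} {a b : G} (ha : a ∈ Gm G i) (hb : b ∈ Gm G i) (s : List X)
    (h : i + s.length = n) : Cw f (a * b) s = Cw f a s * Cw f b s := by
  induction s generalizing i a b with
  | nil => rfl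
  | cons x s ih =>
    rw [List.length_cons] at h
    rw [Cw_cons, Cw_cons, Cw_cons, commutatorElement_mul_left_eq_conj_mul]
    have hd := Gm_comm_top ha (f x)
    have hc := Gm_comm_top hb (f x)
    set d := ⁅a, f x⁆
    set c := ⁅b, f x⁆
    have hr : c⁻¹ * d⁻¹ * (a * c * a⁻¹ * d) ∈ Gm G (i + 2) := by
      have h1 : ⁅a, c⁆ ∈ Gm G (i + 2) := Gm_anti (by omega) (Gm_comm ha hc)
      have h2 : ⁅d⁻¹, c⁆ ∈ Gm G (i + 2) := Gm_anti (by omega) (Gm_comm (inv_mem hd) hc)
      have h3 : c⁻¹ * d⁻¹ * (a * c * a⁻¹ * d) =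
          (c⁻¹ * ((d⁻¹ * ⁅a, c⁆ * d) * ⁅d⁻¹, c⁆) * c) := by
        simp only [commutatorElement_def]; group
      rw [h3]
      have hN : (Gm G (i + 2)).Normal := inferInstance
      have h4 : d⁻¹ * ⁅a, c⁆ * d ∈ Gm G (i + 2) := by
        have := hN.conj_mem _ h1 d⁻¹
        rwa [inv_inv] at this
      have := hN.conj_mem _ (mul_mem h4 h2) c⁻¹
      rwa [inv_inv] at this
    have h5 : a * c * a⁻¹ * d = d * (c * (c⁻¹ * d⁻¹ * (a * c * a⁻¹ * d))) := by group
    have h1 := Gm_anti (by omega : i + 1 ≤ i + 2) hr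
    rw [h5, ih hd (mul_mem hc h1) (by omega), ih hc h1 (by omega),
      Cw_eq_one f hn hr s (by omega), mul_one]

theorem Cw_inv {i : ℕ} {a : G} (ha : a ∈ Gm G i) (s : List X) (h : i + s.length = n) :
    Cw f a⁻¹ s = (Cw f a s)⁻¹ := by
  have := Cw_mul f hn ha (inv_mem ha) s h
  rw [mul_inv_cancel, Cw_one] at this
  exact eq_inv_of_mul_eq_one_right this.symm

theorem Cw_congr {i : ℕ} {a b : G} (ha : a ∈ Gm G i) (hab : a⁻¹ * b ∈ Gm G (i + 1))
    (s : List X) (h : i + s.length = n) : Cw f a s = Cw f b s := by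
  have h1 : b = a * (a⁻¹ * b) := by group
  conv_rhs => rw [h1]
  rw [Cw_mul f hn ha (Gm_anti (by omega) hab) s h, Cw_eq_one f hn hab s (by omega), mul_one]

/-- `⁅g, c x⁆` and `⁅g, x⁆` agree modulo higher commutators. -/
theorem Cw_comm_conj {i j : ℕ} {g b x : G} (hg : g ∈ Gm G i) (hb : b ∈ Gm G j)
    (k : ℕ) (hx : x ∈ Gm G k) (s : List X) (h : i + k + 1 + s.length = n) :
    Cw f ⁅g, b * x * b⁻¹⁆ s = Cw f ⁅g, x⁆ s := by
  symm
  refine Cw_congr f hn (Gm_comm hg hx) ?_ s h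
  have h1 : b * x * b⁻¹ = x * (⁅x⁻¹, b⁆) := by
    simp only [commutatorElement_def]; group
  have h2 : ⁅x⁻¹, b⁆ ∈ Gm G (k + 1) := Gm_anti (by omega) (Gm_comm (inv_mem hx) hb)
  have h3 : ⁅g, x * ⁅x⁻¹, b⁆⁆ = ⁅g, x⁆ * (x * ⁅g, ⁅x⁻¹, b⁆⁆ * x⁻¹) := by
    rw [commutatorElement_mul_right_eq_mul_conj]; group
  rw [h1, h3]
  have h4 : ⁅g, ⁅x⁻¹, b⁆⁆ ∈ Gm G (i + k + 1 + 1) := Gm_anti (by omega) (Gm_comm hg h2)
  have hN : (Gm G (i + k + 1 + 1)).Normal := inferInstance
  have h5 := hN.conj_mem _ h4 x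
  rwa [inv_mul_cancel_left]

/-- Jacobi identity. -/
theorem Cw_jacobi {i j : ℕ} {a b : G} (ha : a ∈ Gm G i) (hb : b ∈ Gm G j) (x : G)
    (s : List X) (h : i + j + 2 + s.length = n) :
    Cw f ⁅a, ⁅b, x⁆⁆ s = Cw f ⁅⁅a, b⁆, x⁆ s * (Cw f ⁅⁅a, x⁆, b⁆ s)⁻¹ := by
  have hx : x ∈ Gm G 0 := mem_top x
  have hHW := commutatorElement_commutatorElement_conj_mul a b x
  have hab := Gm_comm ha hb
  have hbx := Gm_comm hb hx
  have hxa := Gm_comm hx ha
  have hax := Gm_comm ha hx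
  have hN : ∀ k, (Gm G k).Normal := fun k => inferInstance
  have m1 : ⁅⁅a, b⁆, b * x * b⁻¹⁆ ∈ Gm G (i + j + 2) :=
    Gm_anti (by omega) (Gm_comm hab ((hN 0).conj_mem _ hx b))
  have m2 : ⁅⁅b, x⁆, x * a * x⁻¹⁆ ∈ Gm G (i + j + 2) :=
    Gm_anti (by omega) (Gm_comm hbx ((hN i).conj_mem _ ha x))
  have m3 : ⁅⁅x, a⁆, a * b * a⁻¹⁆ ∈ Gm G (i + j + 2) :=
    Gm_anti (by omega) (Gm_comm hxa ((hN j).conj_mem _ hb a))
  have h1 := congrArg (fun g => Cw f g s) hHW
  beta_reduce at h1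
  rw [Cw_mul f hn (mul_mem m1 m2) m3 s h, Cw_mul f hn m1 m2 s h, Cw_one,
    Cw_comm_conj f hn hab hb 0 hx s (by omega), Cw_comm_conj f hn hbx hx i ha s (by omega),
    Cw_comm_conj f hn hxa ha j hb s (by omega)] at h1
  have h2 : Cw f ⁅⁅b, x⁆, a⁆ s = (Cw f ⁅a, ⁅b, x⁆⁆ s)⁻¹ := by
    rw [← commutatorElement_inv, Cw_inv f hn (Gm_comm ha hbx) s (by omega)]
  have h3 : Cw f ⁅⁅x, a⁆, b⁆ s = (Cw f ⁅⁅a, x⁆, b⁆ s)⁻¹ := by
    have h4 : ⁅⁅x, a⁆, b⁆ = (⁅⁅a, x⁆, b⁆)⁻¹ * ((⁅⁅a, x⁆, b⁆) * ⁅⁅a, x⁆⁻¹, b⁆) := by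
      rw [commutatorElement_inv]; group
    have h5 : (⁅⁅a, x⁆, b⁆) * ⁅⁅a, x⁆⁻¹, b⁆ ∈ Gm G (i + j + 3) := by
      have h6 : (⁅⁅a, x⁆, b⁆) * ⁅⁅a, x⁆⁻¹, b⁆ = ⁅⁅⁅a, x⁆, b⁆, ⁅a, x⁆⁻¹⁆ := by
        simp only [commutatorElement_def]; group
      rw [h6]
      exact Gm_anti (by omega) (Gm_comm (Gm_comm hax hb) (inv_mem hax))
    rw [h4, Cw_mul f hn (Gm_anti (by omega) (inv_mem (Gm_comm hax hb)))
      (Gm_anti (by omega : i + j + 2 ≤ i + j + 3) h5) s h, Cw_eq_one f hn h5 s (by omega), mul_one,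
      Cw_inv f hn (Gm_comm hax hb) s (by omega)]
  rw [h2, h3] at h1
  have h6 : Cw f ⁅⁅a, b⁆, x⁆ s * (Cw f ⁅a, ⁅b, x⁆⁆ s)⁻¹ = Cw f ⁅⁅a, x⁆, b⁆ s := by
    rw [mul_inv_eq_one] at h1
    exact h1
  have hcomm : Commute (Cw f ⁅a, ⁅b, x⁆⁆ s) (Cw f ⁅⁅a, x⁆, b⁆ s)⁻¹ := by
    have h7 : Cw f ⁅a, ⁅b, x⁆⁆ s ∈ Gm G n :=
      Gm_anti (by omega) (Cw_mem f (Gm_comm ha hbx) s)
    have h8 := Gm_comm_top h7 (Cw f ⁅⁅a, x⁆, b⁆ s)⁻¹
    rw [hn] at h8
    exact (commutatorElement_eq_one_iff_commute).1 h8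
  generalize Cw f ⁅⁅a, b⁆, x⁆ s = P at *
  generalize Cw f ⁅a, ⁅b, x⁆⁆ s = T at *
  generalize Cw f ⁅⁅a, x⁆, b⁆ s = S at *
  have h9 : P = S * T := by rw [← h6]; group
  rw [h9, mul_assoc, hcomm.eq]
  group

end

/-! ## Dynkin's identity for commutators -/

/-- Expansion of the left-normed bracket of the word `y :: r.reverse` into words. -/
def val {B : Type*} [Group B] (y : X) : List X → (List X → B) → B
  | [], t => t [y]
  | x :: r, t => val y r (fun u => t (u ++ [x])) * (val y r (fun u => t (x :: u)))⁻¹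

section

variable {n : ℕ} (hn : Gm G (n + 1) = ⊥)

include hn

theorem Cw_comm_val {i : ℕ} {a : G} (ha : a ∈ Gm G i) (y : X) (r s : List X)
    (h : i + r.length + 1 + s.length = n) :
    Cw f ⁅a, Cw f (f y) r.reverse⁆ s = val y r (fun u => Cw f a (u ++ s)) := by
  induction r generalizing i a s with
  | nil => rfl
  | cons x r ih =>
    rw [List.length_cons] at h
    have h1 : Cw f (f y) (x :: r).reverse = ⁅Cw f (f y) r.reverse, f x⁆ := by
      rw [List.reverse_cons, Cw_append]; rfl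
    have hc : Cw f (f y) r.reverse ∈ Gm G r.length := by
      have := Cw_mem f (i := 0) (mem_top (f y)) r.reverse
      rwa [List.length_reverse, zero_add] at this
    rw [h1, Cw_jacobi f hn ha hc (f x) s (by omega)]
    have h2 := ih ha (x :: s) (by rw [List.length_cons]; omega)
    have h3 := ih (Gm_comm_top ha (f x)) s (by omega)
    rw [Cw_cons] at h2
    rw [h2, h3]
    show _ = val y r (fun u => Cw f a ((u ++ [x]) ++ s)) *
      (val y r (fun u => Cw f a ((x :: u) ++ s)))⁻¹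
    simp only [List.append_assoc, List.cons_append, List.nil_append, Cw_cons]

/-- Left-normed commutators of words. -/
def Cv {G X : Type*} [Group G] (f : X → G) : List X → G
  | [] => 1
  | x :: s => Cw f (f x) s

theorem Cv_val (y : X) (r s : List X) (h : r.length + s.length = n) :
    val y r (fun u => Cv f (u ++ s)) = Cw f (f y) (r.reverse ++ s) ^ (r.length + 1) := by
  induction r generalizing s with
  | nil =>
    show Cv f ([y] ++ s) = _
    rw [List.length_nil, zero_add, pow_one]; rfl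
  | cons x r ih =>
    rw [List.length_cons] at h
    have h1 : val y (x :: r) (fun u => Cv f (u ++ s)) =
        val y r (fun u => Cv f (u ++ (x :: s))) * (val y r (fun u => Cw f (f x) (u ++ s)))⁻¹ := by
      show val y r (fun u => Cv f ((u ++ [x]) ++ s)) * (val y r (fun u => Cv f ((x :: u) ++ s)))⁻¹ =
        _
      simp only [List.append_assoc, List.cons_append, List.nil_append]
      rfl
    have hc : Cw f (f y) r.reverse ∈ Gm G r.length := by
      have := Cw_mem f (i := 0) (mem_top (f y)) r.reverse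
      rwa [List.length_reverse, zero_add] at this
    have h2 := ih (x :: s) (by rw [List.length_cons]; omega)
    have h3 := Cw_comm_val f hn (i := 0) (mem_top (f x)) y r s (by omega)
    have h4 : Cw f ⁅f x, Cw f (f y) r.reverse⁆ s =
        (Cw f (f y) ((x :: r).reverse ++ s))⁻¹ := by
      rw [← commutatorElement_inv, Cw_inv f hn (Gm_comm_top hc (f x)) s (by omega),
        List.reverse_cons, List.append_assoc, Cw_append]
      rfl
    have h5 : r.reverse ++ x :: s = (x :: r).reverse ++ s := by simp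
    rw [h1, h2, ← h3, h4, inv_inv, h5, ← pow_succ, List.length_cons]

end

/-! ## Generation by left-normed commutators -/

theorem Gm_generate (hf : Subgroup.closure (Set.range f) = ⊤) (n : ℕ) :
    Gm G n ≤ Subgroup.closure {g | ∃ w : List X, w.length = n + 1 ∧ g = Cv f w} ⊔ Gm G (n + 1) := by
  induction n with
  | zero =>
    refine le_trans ?_ le_sup_left
    rw [show Gm G 0 = ⊤ from rfl, ← hf]
    refine Subgroup.closure_mono ?_
    rintro _ ⟨x, rfl⟩
    exact ⟨[x], rfl, rfl⟩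
  | succ n ih =>
    set K := Subgroup.closure {g | ∃ w : List X, w.length = n + 1 + 1 ∧ g = Cv f w} ⊔
      Gm G (n + 1 + 1) with hK
    have hKG : Gm G (n + 1 + 1) ≤ K := le_sup_right
    have hmod : ∀ {a b : G}, a ∈ K → a⁻¹ * b ∈ Gm G (n + 1 + 1) → b ∈ K := by
      intro a b ha hab
      have := mul_mem ha (hKG hab)
      rwa [mul_inv_cancel_left] at this
    have hN : ∀ k, (Gm G k).Normal := fun k => inferInstance
    -- step 1 : right linearity
    have h1 : ∀ a ∈ Gm G n, (∀ x : X, ⁅a, f x⁆ ∈ K) → ∀ y : G, ⁅a, y⁆ ∈ K := by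
      intro a ha hx y
      have hy : y ∈ Subgroup.closure (Set.range f) := by rw [hf]; exact mem_top y
      refine Subgroup.closure_induction (p := fun y _ => ⁅a, y⁆ ∈ K) ?_ ?_ ?_ ?_ hy
      · rintro _ ⟨x, rfl⟩; exact hx x
      · rw [commutatorElement_one_right]; exact one_mem _
      · intro b c _ _ hb hc
        refine hmod (mul_mem hb hc) ?_
        have h2 : (⁅a, b⁆ * ⁅a, c⁆)⁻¹ * ⁅a, b * c⁆ = ⁅⁅a, c⁆⁻¹, b⁆ := by
          simp only [commutatorElement_def]; group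
        rw [h2]
        exact Gm_anti (by omega) (Gm_comm_top (inv_mem (Gm_comm_top ha c)) b)
      · intro b _ hb
        refine hmod (inv_mem hb) ?_
        have h2 : (⁅a, b⁆⁻¹)⁻¹ * ⁅a, b⁻¹⁆ = ⁅⁅a, b⁆, b⁻¹⁆ := by
          simp only [commutatorElement_def]; group
        rw [h2]
        exact Gm_comm_top (Gm_comm_top ha b) b⁻¹
    -- step 2 : left linearity
    have h2 : ∀ a ∈ Gm G n, ∀ y : G, ⁅a, y⁆ ∈ K := by
      intro a ha
      have ha2 := ih ha
      have key : ∀ a ∈ Subgroup.closure {g | ∃ w : List X, w.length = n + 1 ∧ g = Cv f w},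
          a ∈ Gm G n ∧ ∀ y : G, ⁅a, y⁆ ∈ K := by
        intro a ha
        refine Subgroup.closure_induction
          (p := fun a _ => a ∈ Gm G n ∧ ∀ y : G, ⁅a, y⁆ ∈ K) ?_ ?_ ?_ ?_ ha
        · rintro _ ⟨w, hw, rfl⟩
          have hm : Cv f w ∈ Gm G n := by
            cases w with
            | nil => simp at hw
            | cons x s =>
              have := Cw_mem f (i := 0) (mem_top (f x)) s
              rw [List.length_cons] at hw
              rwa [zero_add, show s.length = n by omega] at this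
          refine ⟨hm, h1 _ hm fun x => ?_⟩
          refine (le_sup_left : _ ≤ K) (Subgroup.subset_closure ⟨w ++ [x], by simp [hw], ?_⟩)
          cases w with
          | nil => simp at hw
          | cons z s =>
            show ⁅Cw f (f z) s, f x⁆ = Cw f (f z) (s ++ [x])
            rw [Cw_append]; rfl
        · exact ⟨one_mem _, fun y => by rw [commutatorElement_one_left]; exact one_mem _⟩
        · intro b c _ _ hb hc
          refine ⟨mul_mem hb.1 hc.1, fun y => hmod (mul_mem (hc.2 y) (hb.2 y)) ?_⟩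
          have h3 : (⁅c, y⁆ * ⁅b, y⁆)⁻¹ * ⁅b * c, y⁆ = ⁅b, y⁆⁻¹ * ⁅⁅c, y⁆⁻¹, b⁆ * ⁅b, y⁆ := by
            simp only [commutatorElement_def]; group
          rw [h3]
          have h4 : ⁅⁅c, y⁆⁻¹, b⁆ ∈ Gm G (n + 1 + 1) :=
            Gm_comm_top (inv_mem (Gm_comm_top hc.1 y)) b
          have := (hN (n + 1 + 1)).conj_mem _ h4 ⁅b, y⁆⁻¹
          rwa [inv_inv] at this
        · intro b _ hb
          refine ⟨inv_mem hb.1, fun y => hmod (inv_mem (hb.2 y)) ?_⟩
          have h3 : (⁅b, y⁆⁻¹)⁻¹ * ⁅b⁻¹, y⁆ = ⁅⁅b, y⁆, b⁻¹⁆ := by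
            simp only [commutatorElement_def]; group
          rw [h3]
          exact Gm_comm_top (Gm_comm_top hb.1 y) b⁻¹
      intro y
      have h3 : a ∈ ((Subgroup.closure {g | ∃ w : List X, w.length = n + 1 ∧ g = Cv f w} : Set G) *
          (Gm G (n + 1) : Set G)) := by
        rw [← Subgroup.mul_normal]; exact ha2
      obtain ⟨b, hb, d, hd, rfl⟩ := h3
      have hb2 := key b hb
      refine hmod (hb2.2 y) ?_
      have h4 : ⁅b, y⁆⁻¹ * ⁅b * d, y⁆ = ⁅b, y⁆⁻¹ * (b * ⁅d, y⁆ * b⁻¹) * ⁅b, y⁆ := by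
        simp only [commutatorElement_def]; group
      show ⁅b, y⁆⁻¹ * ⁅b * d, y⁆ ∈ _
      rw [h4]
      have h5 := (hN (n + 1 + 1)).conj_mem _ (Gm_comm_top hd y) b
      have := (hN (n + 1 + 1)).conj_mem _ h5 ⁅b, y⁆⁻¹
      rwa [inv_inv] at this
    exact commutator_le.2 fun a ha y _ => h2 a ha y

end Pool.Agent.helper40.Laz
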