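import Mathlib

/-!
# Lazard library, part 1: truncated exponential

`R` is a commutative ring in which `1, ..., c` are invertible, `nexp R c x = ∑_{k ≤ c} x^k / k!`.
-/

namespace Pool.Agent.helper40.Laz

open Finset

variable (R : Type*) [CommRing R]

/-- `1, ..., c` are invertible in `R`. -/
def Inv (c : ℕ) : Prop := ∀ k : ℕ, 0 < k → k ≤ c → IsUnit (k : R)

/-- The inverse of `k`. -/
noncomputable def inv' (k : ℕ) : R := Ring.inverse (k : R)

/-- The inverse of `k!`. -/
noncomputable def ifac (k : ℕ) : R := Ring.inverse (k.factorial : R)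

variable {R}

theorem Inv.mono {c d : ℕ} (h : Inv R c) (hd : d ≤ c) : Inv R d :=
  fun k hk hkd => h k hk (hkd.trans hd)

theorem inv'_mul {c : ℕ} (hc : Inv R c) {k : ℕ} (h0 : 0 < k) (hk : k ≤ c) :
    (k : R) * inv' R k = 1 := Ring.mul_inverse_cancel _ (hc k h0 hk)

theorem Inv.fac {c : ℕ} (hc : Inv R c) : ∀ k ≤ c, IsUnit (k.factorial : R)
  | 0, _ => by simp
  | k + 1, hk => by
    rw [Nat.factorial_succ, Nat.cast_mul]
    exact (hc (k + 1) (Nat.succ_pos k) hk).mul (hc.fac k (by omega))

theorem ifac_mul {c : ℕ} (hc : Inv R c) {k : ℕ} (hk : k ≤ c) :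
    (k.factorial : R) * ifac R k = 1 := Ring.mul_inverse_cancel _ (hc.fac k hk)

theorem ifac_zero : ifac R 0 = 1 := by simp [ifac]

theorem ifac_one : ifac R 1 = 1 := by simp [ifac]

theorem ifac_choose {c : ℕ} (hc : Inv R c) {i j : ℕ} (hk : i + j ≤ c) :
    ifac R (i + j) * ((i + j).choose i : R) = ifac R i * ifac R j := by
  have h1 := ifac_mul hc hk
  have h2 := ifac_mul hc (show i ≤ c by omega)
  have h3 := ifac_mul hc (show j ≤ c by omega)
  have h4 : ((i + j).choose i : R) * (i.factorial : R) * (j.factorial : R) =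
      ((i + j).factorial : R) := by
    rw [← Nat.cast_mul, ← Nat.cast_mul]
    congr 1
    have := Nat.choose_mul_factorial_mul_factorial (Nat.le_add_right i j)
    rwa [Nat.add_sub_cancel_left] at this
  calc ifac R (i + j) * ((i + j).choose i : R)
      = ifac R (i + j) * ((i + j).choose i : R) * ((i.factorial : R) * ifac R i) *
        ((j.factorial : R) * ifac R j) := by rw [h2, h3, mul_one, mul_one]
    _ = (((i + j).choose i : R) * (i.factorial : R) * (j.factorial : R)) * ifac R (i + j) *
        (ifac R i * ifac R j) := by ring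
    _ = ifac R i * ifac R j := by rw [h4, h1, one_mul]

variable (R)

/-- The truncated exponential. -/
noncomputable def nexp {A : Type*} [Ring A] [Algebra R A] (c : ℕ) (x : A) : A :=
  ∑ k ∈ range (c + 1), ifac R k • x ^ k

variable {R}

variable {A : Type*} [Ring A] [Algebra R A]

theorem nexp_zero (c : ℕ) : nexp R c (0 : A) = 1 := by
  unfold nexp
  rw [Finset.sum_range_succ']
  simp [ifac_zero]

theorem map_nexp {B : Type*} [Ring B] [Algebra R B] (f : A →ₐ[R] B) (c : ℕ) (x : A) :
    f (nexp R c x) = nexp R c (f x) := by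
  unfold nexp
  rw [map_sum]
  refine Finset.sum_congr rfl fun k _ => ?_
  rw [map_smul, map_pow]

theorem nexp_add {c : ℕ} (hc : Inv R c) {x y : A} (hxy : Commute x y)
    (h : ∀ i j, c < i + j → x ^ i * y ^ j = 0) :
    nexp R c (x + y) = nexp R c x * nexp R c y := by
  have h1 : ∀ n ∈ range (c + 1), ifac R n • (x + y) ^ n =
      ∑ m ∈ antidiagonal n, (ifac R m.1 * ifac R m.2) • (x ^ m.1 * y ^ m.2) := by
    intro n hn
    rw [mem_range] at hn
    rw [hxy.add_pow', Finset.smul_sum]
    refine Finset.sum_congr rfl fun m hm => ?_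
    rw [HasAntidiagonal.mem_antidiagonal] at hm
    rw [← Nat.cast_smul_eq_nsmul R, smul_smul]
    congr 1
    rw [← hm]
    exact ifac_choose hc (by omega)
  unfold nexp
  rw [Finset.sum_congr rfl h1, Finset.sum_mul_sum, ← Finset.sum_product', Finset.sum_sigma']
  symm
  have h2 : ∀ p ∈ (range (c + 1) ×ˢ range (c + 1)).filter (fun p => ¬ p.1 + p.2 ≤ c),
      (ifac R p.1 • x ^ p.1) * (ifac R p.2 • y ^ p.2) = 0 := by
    intro p hp
    rw [mem_filter] at hp
    rw [smul_mul_smul_comm, h p.1 p.2 (by omega), smul_zero]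
  rw [← Finset.sum_filter_add_sum_filter_not (range (c + 1) ×ˢ range (c + 1))
    (fun p => p.1 + p.2 ≤ c), Finset.sum_eq_zero h2, add_zero]
  refine Finset.sum_bij' (fun p _ => ⟨p.1 + p.2, p⟩) (fun s _ => s.2) ?_ ?_ ?_ ?_ ?_
  · intro p hp
    simp only [mem_filter, mem_product, mem_range] at hp
    simp only [mem_sigma, mem_range, HasAntidiagonal.mem_antidiagonal, and_true]
    omega
  · intro s hs
    simp only [mem_sigma, mem_range, HasAntidiagonal.mem_antidiagonal] at hs
    simp only [mem_filter, mem_product, mem_range]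
    omega
  · intro p _; rfl
  · intro s hs
    simp only [mem_sigma, mem_range, HasAntidiagonal.mem_antidiagonal] at hs
    obtain ⟨n, m⟩ := s
    simp only at hs ⊢
    obtain ⟨_, rfl⟩ := hs
    rfl
  · intro p _
    rw [smul_mul_smul_comm]

end Pool.Agent.helper40.Laz
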