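import Pool.Agent.helper40.Laz.GrpLie

/-!
# Lazard library, part 12: functoriality, commuting elements, powers
-/

namespace Pool.Agent.helper40.Laz

open Finset MulOpposite

open scoped commutatorElement

attribute [local instance 100] LieRing.ofAssociativeRing

section

variable {X : Type*} {c N : ℕ}

/-- The Lie homomorphism given by a group homomorphism. -/
noncomputable def LieOf.map {H H' : Type*} [Group H] [Group H'] (hG : GOK N c H)
    (hG' : GOK N c H') (φ : H →* H') : LieOf hG →ₗ⁅ZMod N⁆ LieOf hG' where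
  toFun x := LieOf.of hG' (φ (LieOf.gt hG x))
  map_add' x y := by
    obtain ⟨u, hu, rfl⟩ := exists_Pi hG x
    obtain ⟨v, hv, rfl⟩ := exists_Pi hG y
    rw [← LieOf.Pi_add hG _ hu hv]
    have e : ∀ z, φ (LieOf.gt hG (LieOf.of hG (Pi hG.inv (id : H → H) z))) =
      Pi hG'.inv (fun x => φ x) z := fun z => map_Pi hG.inv φ id z
    rw [e, e, e, LieOf.Pi_add hG' _ hu hv]
  map_smul' t x := by
    obtain ⟨u, hu, rfl⟩ := exists_Pi hG x
    rw [← LieOf.Pi_smul hG _ hu]
    have e : ∀ z, φ (LieOf.gt hG (LieOf.of hG (Pi hG.inv (id : H → H) z))) =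
      Pi hG'.inv (fun x => φ x) z := fun z => map_Pi hG.inv φ id z
    rw [e, e, LieOf.Pi_smul hG' _ hu]
    rfl
  map_lie' {x y} := by
    obtain ⟨u, hu, rfl⟩ := exists_Pi hG x
    obtain ⟨v, hv, rfl⟩ := exists_Pi hG y
    rw [← LieOf.Pi_lie hG _ hu hv]
    have e : ∀ z, φ (LieOf.gt hG (LieOf.of hG (Pi hG.inv (id : H → H) z))) =
      Pi hG'.inv (fun x => φ x) z := fun z => map_Pi hG.inv φ id z
    show LieOf.of hG' _ = ⁅LieOf.of hG' _, LieOf.of hG' _⁆
    rw [e, e, e, LieOf.Pi_lie hG' _ hu hv]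

theorem LieOf.map_apply {H H' : Type*} [Group H] [Group H'] (hG : GOK N c H)
    (hG' : GOK N c H') (φ : H →* H') (x : H) :
    LieOf.map hG hG' φ (LieOf.of hG x) = LieOf.of hG' (φ x) := rfl

/-- Commutative groups. -/
theorem GOK.of_comm {A : Type*} [Group A] (hA : ∀ a b : A, a * b = b * a)
    (hc : Inv (ZMod N) c) (h1c : 1 ≤ c) (hN : ∀ a : A, a ^ N = 1) : GOK N c A where
  inv := hc
  one_le := h1c
  exp := hN
  cls := by
    refine le_bot_iff.1 ((Gm_anti h1c).trans ?_)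
    show ⁅(⊤ : Subgroup A), ⊤⁆ ≤ ⊥
    rw [Subgroup.commutator_le]
    intro a _ b _
    rw [commutatorElement_eq_one_iff_mul_comm.2 (hA a b)]
    exact one_mem _

section

variable {H : Type*} [Group H] (hG : GOK N c H)

include hG

/-- Commuting elements: sum and bracket. -/
theorem LieOf.comm {x y : H} (h : Commute x y) :
    of hG (x * y) = of hG x + of hG y ∧ ⁅of hG x, of hG y⁆ = 0 := by
  have hz : ∀ t : H, ∀ a b : Subgroup.zpowers t, a * b = b * a := by
    rintro t ⟨_, a, rfl⟩ ⟨_, b, rfl⟩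
    exact Subtype.ext (zpow_mul_comm t a b)
  have hx : GOK N c (Subgroup.zpowers x) := GOK.of_comm (hz x) hG.inv hG.one_le
    (fun a => Subtype.ext (hG.exp a.1))
  have hy : GOK N c (Subgroup.zpowers y) := GOK.of_comm (hz y) hG.inv hG.one_le
    (fun a => Subtype.ext (hG.exp a.1))
  have hxy : GOK N c (Subgroup.zpowers x × Subgroup.zpowers y) :=
    GOK.of_comm (fun a b => Prod.ext (hz x a.1 b.1) (hz y a.2 b.2)) hG.inv hG.one_le
      (fun a => Prod.ext (hx.exp a.1) (hy.exp a.2))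
  let μ : (Subgroup.zpowers x × Subgroup.zpowers y) →* H :=
    MonoidHom.noncommCoprod (Subgroup.zpowers x).subtype (Subgroup.zpowers y).subtype (by
      rintro ⟨_, a, rfl⟩ ⟨_, b, rfl⟩
      exact (h.zpow_left a).zpow_right b)
  let x' : Subgroup.zpowers x × Subgroup.zpowers y := (⟨x, Subgroup.mem_zpowers x⟩, 1)
  let y' : Subgroup.zpowers x × Subgroup.zpowers y := (1, ⟨y, Subgroup.mem_zpowers y⟩)
  have hμx : μ x' = x := by
    show x * 1 = x
    rw [mul_one]
  have hμy : μ y' = y := by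
    show 1 * y = y
    rw [one_mul]
  let p1 := LieOf.map hxy hx (MonoidHom.fst _ _)
  let p2 := LieOf.map hxy hy (MonoidHom.snd _ _)
  let m := LieOf.map hxy hG μ
  have hext : ∀ a b : LieOf hxy, p1 a = p1 b → p2 a = p2 b → a = b := fun a b h1 h2 =>
    Prod.ext h1 h2
  have p1x : p1 (of hxy x') = of hx ⟨x, Subgroup.mem_zpowers x⟩ := rfl
  have p1y : p1 (of hxy y') = 0 := rfl
  have p2x : p2 (of hxy x') = 0 := rfl
  have p2y : p2 (of hxy y') = of hy ⟨y, Subgroup.mem_zpowers y⟩ := rfl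
  have h1 : of hxy (x' * y') = of hxy x' + of hxy y' := by
    apply hext
    · rw [map_add, p1x, p1y, add_zero]
      show of hx (⟨x, Subgroup.mem_zpowers x⟩ * 1) = _
      rw [mul_one]
    · rw [map_add, p2x, p2y, zero_add]
      show of hy (1 * ⟨y, Subgroup.mem_zpowers y⟩) = _
      rw [one_mul]
  have h2 : ⁅of hxy x', of hxy y'⁆ = 0 := by
    apply hext
    · rw [LieHom.map_lie, p1x, p1y, lie_zero, map_zero]
    · rw [LieHom.map_lie, p2x, p2y, zero_lie, map_zero]
  have mx : m (of hxy x') = of hG x := congrArg (of hG) hμx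
  have my : m (of hxy y') = of hG y := congrArg (of hG) hμy
  constructor
  · have h3 := congrArg m h1
    rw [map_add, mx, my] at h3
    rw [← h3]
    show of hG (x * y) = of hG (μ (x' * y'))
    rw [map_mul, hμx, hμy]
  · have h3 := congrArg m h2
    rwa [LieHom.map_lie, mx, my, map_zero] at h3

theorem LieOf.of_pow (x : H) (n : ℕ) : of hG (x ^ n) = n • of hG x := by
  induction n with
  | zero => rw [pow_zero, zero_smul]; rfl
  | succ n ih =>
    rw [pow_succ, (LieOf.comm hG (Commute.pow_self x n)).1, ih, succ_nsmul]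

end

/-! ## Commuting elements in the Baker-Campbell-Hausdorff product -/

section

variable {R : Type*} [CommRing R] {L : Type*} [LieRing L] [LieAlgebra R L]

theorem bchE_sub_mem (hc : Inv R c) (h1c : 1 ≤ c) :
    bchE R c - (lt R c false + lt R c true) ∈ F R Bool c 2 := by
  have h0 : bchE R c ∈ lieS R Bool c := bm_mem hc h1c (lt_mem_lieS _) (lt_mem_lieS _)
  have h1 : nexp R c (bchE R c) = nexp R c (lt R c false) * nexp R c (lt R c true) :=
    nexp_bm hc h1c (lt_mem_lieS _) (lt_mem_lieS _)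
  have h2 := nexp_sub_sub h1c (le_refl 1) (lieS_le_F h0)
  have h3 := nexp_sub_sub (R := R) (X := Bool) h1c (le_refl 1) (lt_mem_F c false)
  have h4 := nexp_sub_sub (R := R) (X := Bool) h1c (le_refl 1) (lt_mem_F c true)
  have h5 : (nexp R c (lt R c false) - 1) * (nexp R c (lt R c true) - 1) ∈ F R Bool c (1 + 1) :=
    F_mul (nexp_sub_mem (lt_mem_F c false)) (nexp_sub_mem (lt_mem_F c true))
  rw [h1] at h2
  have h6 : bchE R c - (lt R c false + lt R c true) =
      (nexp R c (lt R c false) - 1) * (nexp R c (lt R c true) - 1) +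
      (nexp R c (lt R c false) - 1 - lt R c false) + (nexp R c (lt R c true) - 1 - lt R c true) -
      (nexp R c (lt R c false) * nexp R c (lt R c true) - 1 - bchE R c) := by
    noncomm_ring
  rw [h6]
  exact sub_mem (add_mem (add_mem h5 h3) h4) h2

variable (Φ : LFil R L c) (h1 : ∀ x, x ∈ Φ.Λ 1)

include h1 in
/-- If the letters commute, words of length at least two evaluate to zero. -/
theorem evL_F_two {X : Type*} (f : X → L) (hf : ∀ x y, ⁅f x, f y⁆ = 0) {u : Q R X c}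
    (hu : u ∈ F R X c 2) : evL Φ f (fun _ => h1 _) u = 0 := by
  refine Submodule.span_induction (p := fun u _ => evL Φ f (fun _ => h1 _) u = 0) ?_ ?_ ?_ ?_ hu
  · rintro _ ⟨w, hw, rfl⟩
    have h2 : dynW R f w = 0 := by
      rcases w with _ | ⟨x, _ | ⟨y, s⟩⟩
      · rfl
      · exact absurd hw (by show ¬ (2 ≤ 1); omega)
      · have h3 : (x :: y :: s : FreeMonoid X) =
            (FreeMonoid.of x * FreeMonoid.of y) * FreeMonoid.ofList s := rfl
        rw [h3, dynW_mul _ (by show 0 < 2; omega)]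
        have h4 : dynW R f (FreeMonoid.of x * FreeMonoid.of y) = 0 := by
          rw [dynW_mul _ (by show 0 < 1; omega), actW_of]
          exact hf x y
        rw [h4, map_zero]
    have h3 : evL Φ f (fun _ => h1 _) (word R c w) = Dy Φ f (fun _ => h1 _) (dv (word R c w)) := rfl
    have h4 : (dv (word R c w) : Q R X c) = inv' R w.length • word R c w := Q.lift_word _ _ _
    rw [h3, h4, map_smul, Dy_word, h2, smul_zero]
  · rw [map_zero]
  · intro x y _ _ hx hy; rw [map_add, hx, hy, add_zero]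
  · intro r x _ hx; rw [map_smul, hx, smul_zero]

/-- The product of commuting elements is their sum. -/
theorem laz_of_comm (hc : Inv R c) (h1c : 1 ≤ c) {x y : L} (h : ⁅x, y⁆ = 0) :
    laz Φ h1 x y = x + y := by
  have h2 : ∀ a b, ⁅two x y a, two x y b⁆ = 0 := by
    have h' : ⁅y, x⁆ = 0 := by rw [← lie_skew, h, neg_zero]
    intro a b
    cases a <;> cases b
    · exact lie_self x
    · exact h
    · exact h'
    · exact lie_self y
  have h3 := evL_F_two Φ h1 (two x y) h2 (bchE_sub_mem hc h1c)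
  unfold laz
  rw [map_sub, map_add, evL_lt _ _ _ hc, evL_lt _ _ _ hc, sub_eq_zero] at h3
  exact h3

end

end

section

variable {c N : ℕ} {H : Type*} [Group H] (hG : GOK N c H)

/-- In the Lie ring of a group, bracket zero means commuting. -/
theorem LieOf.commute_of_lie {x y : H} (h : ⁅LieOf.of hG x, LieOf.of hG y⁆ = 0) :
    Commute x y := by
  have h1 := laz_eq_mul hG x y
  have h2 := laz_eq_mul hG y x
  have h' : ⁅LieOf.of hG y, LieOf.of hG x⁆ = 0 := by rw [← lie_skew, h, neg_zero]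
  rw [laz_of_comm _ _ hG.inv hG.one_le h] at h1
  rw [laz_of_comm _ _ hG.inv hG.one_le h', add_comm] at h2
  exact h1.symm.trans h2

end

/-! ## Words in a group with a map to a Lie algebra -/

section

variable {c : ℕ} {R : Type*} [CommRing R] {L : Type*} [LieRing L] [LieAlgebra R L]
  (Φ : LFil R L c) (h1 : ∀ x, x ∈ Φ.Λ 1)

theorem laz_zero_left (hc : Inv R c) (h1c : 1 ≤ c) (x : L) : laz Φ h1 0 x = x := by
  rw [laz_of_comm Φ h1 hc h1c (zero_lie x), zero_add]

theorem laz_neg_self (hc : Inv R c) (h1c : 1 ≤ c) (x : L) : laz Φ h1 (-x) x = 0 := by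
  rw [laz_of_comm Φ h1 hc h1c (by rw [neg_lie, lie_self, neg_zero]), neg_add_cancel]

theorem laz_assoc (hc : Inv R c) (h1c : 1 ≤ c) (x y z : L) :
    laz Φ h1 (laz Φ h1 x y) z = laz Φ h1 x (laz Φ h1 y z) :=
  (lazGroup Φ h1 hc h1c).mul_assoc x y z

theorem laz_map_one (hc : Inv R c) (h1c : 1 ≤ c) {H : Type*} [Group H] (φ : H → L)
    (hφ : ∀ x y, φ (x * y) = laz Φ h1 (φ x) (φ y)) : φ 1 = 0 := by
  have h2 := hφ 1 1
  rw [mul_one] at h2
  have h3 := congrArg (laz Φ h1 (-φ 1)) h2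
  rw [← laz_assoc Φ h1 hc h1c, laz_neg_self Φ h1 hc h1c, laz_zero_left Φ h1 hc h1c] at h3
  exact h3.symm

theorem laz_map_inv (hc : Inv R c) (h1c : 1 ≤ c) {H : Type*} [Group H] (φ : H → L)
    (hφ : ∀ x y, φ (x * y) = laz Φ h1 (φ x) (φ y)) (x : H) : φ x⁻¹ = -φ x := by
  have h2 := hφ x⁻¹ x
  rw [inv_mul_cancel, laz_map_one Φ h1 hc h1c φ hφ] at h2
  have h4 : laz Φ h1 (φ x) (-φ x) = 0 := by
    rw [laz_of_comm Φ h1 hc h1c (by rw [lie_neg, lie_self, neg_zero]), add_neg_cancel]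
  have h5 : laz Φ h1 (φ x⁻¹) 0 = φ x⁻¹ := by
    rw [laz_of_comm Φ h1 hc h1c (lie_zero _), add_zero]
  rw [← h5, ← h4, ← laz_assoc Φ h1 hc h1c, ← h2, laz_zero_left Φ h1 hc h1c]

theorem lift_evL (hc : Inv R c) (h1c : 1 ≤ c) {H : Type*} [Group H] (φ : H → L)
    (hφ : ∀ x y, φ (x * y) = laz Φ h1 (φ x) (φ y)) {X : Type*} (f : X → H) {g : FreeGroup X}
    {z : Q R X c} (hz : z ∈ F R X c 1)
    (h : ((Mg hc g : (Q R X c)ˣ) : Q R X c) = nexp R c z) :
    φ (FreeGroup.lift f g) = evL Φ (fun x => φ (f x)) (fun _ => h1 _) z := by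
  have key : ∀ g : FreeGroup X, ∃ z ∈ lieS R X c,
      ((Mg hc g : (Q R X c)ˣ) : Q R X c) = nexp R c z ∧
      φ (FreeGroup.lift f g) = evL Φ (fun x => φ (f x)) (fun _ => h1 _) z := by
    intro g
    induction g using FreeGroup.induction_on with
    | C1 =>
      refine ⟨0, zero_mem _, ?_, ?_⟩
      · rw [map_one, nexp_zero]; rfl
      · rw [map_one, map_zero, laz_map_one Φ h1 hc h1c φ hφ]
    | of x =>
      refine ⟨lt R c x, lt_mem_lieS x, Mg_of hc x, ?_⟩
      rw [FreeGroup.lift_apply_of, evL_lt _ _ _ hc]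
    | inv_of x _ =>
      refine ⟨-lt R c x, neg_mem (lt_mem_lieS x), ?_, ?_⟩
      · rw [map_inv]
        apply (Mg hc (FreeGroup.of x)).inv_eq_of_mul_eq_one_left
        rw [Mg_of]
        exact nexp_neg_mul hc (lt_mem_F c x)
      · rw [map_inv, FreeGroup.lift_apply_of, map_neg, evL_lt _ _ _ hc,
          laz_map_inv Φ h1 hc h1c φ hφ]
    | mul a b ha hb =>
      obtain ⟨u, hu, hu1, hu2⟩ := ha
      obtain ⟨v, hv, hv1, hv2⟩ := hb
      refine ⟨bm u v, bm_mem hc h1c hu hv, ?_, ?_⟩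
      · rw [map_mul, Units.val_mul, hu1, hv1, nexp_bm hc h1c hu hv]
      · rw [map_mul, hφ, hu2, hv2, evL_bm Φ h1 hc h1c _ hu hv]
  obtain ⟨z', hz', h2, h3⟩ := key g
  rw [h3, nexp_inj h1c hz (lieS_le_F hz') (h.symm.trans h2)]

end

section

variable {c N : ℕ} {H : Type*} [Group H] (hG : GOK N c H)
  {L : Type*} [LieRing L] [LieAlgebra (ZMod N) L]
  (Φ : LFil (ZMod N) L c) (h1 : ∀ x, x ∈ Φ.Λ 1)

theorem Pi_evL (φ : H → L) (hφ : ∀ x y, φ (x * y) = laz Φ h1 (φ x) (φ y)) {X : Type*}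
    (f : X → H) {z : Q (ZMod N) X c} (hz : z ∈ lieS (ZMod N) X c) :
    φ (Pi hG.inv f z) = evL Φ (fun x => φ (f x)) (fun _ => h1 _) z := by
  obtain ⟨g, hg⟩ := Mg_surj hG.inv hG.one_le hz
  rw [Pi_eq hG f hg]
  exact lift_evL Φ h1 hG.inv hG.one_le φ hφ f (lieS_le_F hz) hg

/-- A homomorphism from a group to the group of a Lie algebra is a homomorphism of Lie rings. -/
noncomputable def LieOf.toLie (φ : H → L) (hφ : ∀ x y, φ (x * y) = laz Φ h1 (φ x) (φ y)) :
    LieOf hG →ₗ⁅ZMod N⁆ L where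
  toFun x := φ (LieOf.gt hG x)
  map_add' x y := by
    obtain ⟨u, hu, rfl⟩ := exists_Pi hG x
    obtain ⟨v, hv, rfl⟩ := exists_Pi hG y
    rw [← LieOf.Pi_add hG _ hu hv]
    have e : ∀ z, z ∈ lieS (ZMod N) H c → φ (LieOf.gt hG (LieOf.of hG (Pi hG.inv (id : H → H) z))) =
      evL Φ (fun x => φ x) (fun _ => h1 _) z := fun z hz => Pi_evL hG Φ h1 φ hφ id hz
    rw [e _ (add_mem hu hv), e _ hu, e _ hv, map_add]
  map_smul' t x := by
    obtain ⟨u, hu, rfl⟩ := exists_Pi hG x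
    rw [← LieOf.Pi_smul hG _ hu]
    have e : ∀ z, z ∈ lieS (ZMod N) H c → φ (LieOf.gt hG (LieOf.of hG (Pi hG.inv (id : H → H) z))) =
      evL Φ (fun x => φ x) (fun _ => h1 _) z := fun z hz => Pi_evL hG Φ h1 φ hφ id hz
    rw [e _ (Submodule.smul_mem _ _ hu), e _ hu, map_smul]
    rfl
  map_lie' {x y} := by
    obtain ⟨u, hu, rfl⟩ := exists_Pi hG x
    obtain ⟨v, hv, rfl⟩ := exists_Pi hG y
    rw [← LieOf.Pi_lie hG _ hu hv]
    have e : ∀ z, z ∈ lieS (ZMod N) H c → φ (LieOf.gt hG (LieOf.of hG (Pi hG.inv (id : H → H) z))) =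
      evL Φ (fun x => φ x) (fun _ => h1 _) z := fun z hz => Pi_evL hG Φ h1 φ hφ id hz
    show φ _ = ⁅φ _, φ _⁆
    rw [e _ (lieS_lie hu hv), e _ hu, e _ hv, evL_lie _ _ _ hG.inv hu hv]

theorem LieOf.toLie_apply (φ : H → L) (hφ : ∀ x y, φ (x * y) = laz Φ h1 (φ x) (φ y)) (x : H) :
    LieOf.toLie hG Φ h1 φ hφ (LieOf.of hG x) = φ x := rfl

end

end Pool.Agent.helper40.Laz
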