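import Pool.Agent.helper40.Laz.Lie

/-!
# Lazard library, part 4: the exponentials of Lie elements form a group
-/

namespace Pool.Agent.helper40.Laz

open Finset MulOpposite

attribute [local instance 100] LieRing.ofAssociativeRing

variable {R : Type*} [CommRing R] {X : Type*} {c : ℕ}

variable (R X) in
/-- The Lie elements. -/
noncomputable def lieS (c : ℕ) : Submodule R (Q R X c) :=
  Submodule.span R (Set.range (evQ R (X := X) c))

theorem evQ_mem_lieS (τ : Tr X) : evQ R c τ ∈ lieS R X c := Submodule.subset_span ⟨τ, rfl⟩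

theorem lt_mem_lieS (x : X) : lt R c x ∈ lieS R X c := evQ_mem_lieS (Tr.leaf x)

theorem lieS_le_F : lieS R X c ≤ F R X c 1 :=
  Submodule.span_le.2 (by rintro _ ⟨τ, rfl⟩; exact evQ_mem_F_one τ)

theorem lieS_lie {x y : Q R X c} (hx : x ∈ lieS R X c) (hy : y ∈ lieS R X c) :
    ⁅x, y⁆ ∈ lieS R X c := by
  refine Submodule.span_induction (p := fun x _ => ⁅x, y⁆ ∈ lieS R X c) ?_ ?_ ?_ ?_ hx
  · rintro _ ⟨τ, rfl⟩
    refine Submodule.span_induction (p := fun y _ => ⁅evQ R c τ, y⁆ ∈ lieS R X c) ?_ ?_ ?_ ?_ hy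
    · rintro _ ⟨σ, rfl⟩
      exact evQ_mem_lieS (Tr.node τ σ)
    · rw [lie_zero]; exact zero_mem _
    · intro y z _ _ hy hz; rw [lie_add]; exact add_mem hy hz
    · intro r y _ hy; rw [lie_smul]; exact Submodule.smul_mem _ _ hy
  · rw [zero_lie]; exact zero_mem _
  · intro x z _ _ hx hz; rw [add_lie]; exact add_mem hx hz
  · intro r x _ hx; rw [smul_lie]; exact Submodule.smul_mem _ _ hx

theorem F_lie {a b : ℕ} {x y : Q R X c} (hx : x ∈ F R X c a) (hy : y ∈ F R X c b) :
    ⁅x, y⁆ ∈ F R X c (a + b) := by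
  rw [LieRing.of_associative_ring_bracket]
  refine sub_mem (F_mul hx hy) ?_
  have := F_mul hy hx
  rwa [Nat.add_comm b a] at this

variable (R X c) in
/-- The filtration of the truncated algebra as a Lie filtration. -/
noncomputable def FQ : LFil R (Q R X c) c where
  Λ := F R X c
  top := F_zero c
  anti := fun _ _ h => F_anti h
  lie := fun _ _ _ _ hx hy => F_lie hx hy
  bot := fun _ _ h hx => F_eq_zero h hx

/-- The right action of the truncated algebra on itself. -/
noncomputable def A' (u : Q R X c) : Module.End R (Q R X c) :=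
  Ac (FQ R X c) (lt R c) (fun x => lt_mem_F c x) u

/-- Dynkin's operator of the truncated algebra. -/
noncomputable def D' : Q R X c →ₗ[R] Q R X c :=
  Dy (FQ R X c) (lt R c) (fun x => lt_mem_F c x)

theorem A'_mul (u v l : Q R X c) : A' (u * v) l = A' v (A' u l) := Ac_mul _ _ _ u v l

theorem A'_add (u v l : Q R X c) : A' (u + v) l = A' u l + A' v l := Ac_add _ _ _ u v l

theorem A'_sub (u v l : Q R X c) : A' (u - v) l = A' u l - A' v l := Ac_sub _ _ _ u v l

theorem A'_smul (r : R) (u l : Q R X c) : A' (r • u) l = r • A' u l := Ac_smul _ _ _ r u l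

theorem A'_one (l : Q R X c) : A' (1 : Q R X c) l = l := Ac_one _ _ _ l

theorem A'_zero (l : Q R X c) : A' (0 : Q R X c) l = 0 := Ac_zero _ _ _ l

theorem A'_evQ (τ : Tr X) (l : Q R X c) : A' (evQ R c τ) l = ⁅l, evQ R c τ⁆ :=
  Ac_evQ (FQ R X c) (lt R c) (fun x => lt_mem_F c x) τ l

theorem D'_word (w : FreeMonoid X) : D' (word R c w) = dynW R (lt R c) w :=
  Dy_word (FQ R X c) (lt R c) (fun x => lt_mem_F c x) w

theorem D'_one : D' (1 : Q R X c) = 0 := Dy_one (FQ R X c) (lt R c) (fun x => lt_mem_F c x)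

theorem D'_mul {u : Q R X c} (hu : u ∈ F R X c 1) (v : Q R X c) :
    D' (u * v) = A' v (D' u) := Dy_mul (FQ R X c) (lt R c) (fun x => lt_mem_F c x) hu v

theorem D'_mem {k : ℕ} {u : Q R X c} (hu : u ∈ F R X c k) : D' u ∈ F R X c k :=
  Dy_mem (FQ R X c) (lt R c) (fun x => lt_mem_F c x) hu

theorem D'_evQ (τ : Tr X) : D' (evQ R c τ) = τ.size • evQ R c τ :=
  Dy_evQ (FQ R X c) (lt R c) (fun x => lt_mem_F c x) τ

/-- The degree derivation. -/
noncomputable def dg : Q R X c →ₗ[R] Q R X c :=
  Q.lift (fun w => (w.length : R) • word R c w) fun w hw => by rw [word_eq_zero hw, smul_zero]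

theorem dg_word (w : FreeMonoid X) : dg (word R c w) = (w.length : R) • word R c w :=
  Q.lift_word _ _ _

theorem dg_mul (x y : Q R X c) : dg (x * y) = dg x * y + x * dg y := by
  induction x using Q.induction with
  | hw v =>
    induction y using Q.induction with
    | hw w =>
      rw [← word_mul, dg_word, dg_word, dg_word, FreeMonoid.length_mul, Nat.cast_add, add_smul,
        word_mul, smul_mul_assoc, mul_smul_comm]
    | hadd y z hy hz => rw [mul_add, map_add, hy, hz, map_add, mul_add, mul_add]; abel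
    | hsmul r y hy => rw [mul_smul_comm, map_smul, hy, map_smul, mul_smul_comm, mul_smul_comm,
        smul_add]
  | hadd x z hx hz => rw [add_mul, map_add, hx, hz, map_add, add_mul, add_mul]; abel
  | hsmul r x hx => rw [smul_mul_assoc, map_smul, hx, map_smul, smul_mul_assoc, smul_mul_assoc,
      smul_add]

theorem dg_one : dg (1 : Q R X c) = 0 := by
  rw [← word_one, dg_word]; simp

theorem dg_lt (x : X) : dg (lt R c x) = lt R c x := by
  unfold lt
  rw [dg_word]; simp

theorem dg_mem {k : ℕ} {x : Q R X c} (hx : x ∈ F R X c k) : dg x ∈ F R X c k := by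
  refine Submodule.span_induction (p := fun x _ => dg x ∈ F R X c k) ?_ ?_ ?_ ?_ hx
  · rintro _ ⟨w, hw, rfl⟩
    rw [dg_word]
    exact Submodule.smul_mem _ _ (word_mem_F hw)
  · rw [map_zero]; exact zero_mem _
  · intro x y _ _ hx hy; rw [map_add]; exact add_mem hx hy
  · intro r x _ hx; rw [map_smul]; exact Submodule.smul_mem _ _ hx

theorem dg_sub_mem {k : ℕ} {x : Q R X c} (hx : x ∈ F R X c k) :
    dg x - (k : R) • x ∈ F R X c (k + 1) := by
  refine Submodule.span_induction (p := fun x _ => dg x - (k : R) • x ∈ F R X c (k + 1))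
    ?_ ?_ ?_ ?_ hx
  · rintro _ ⟨w, hw, rfl⟩
    rw [dg_word]
    rcases Nat.eq_or_lt_of_le hw with h | h
    · rw [h, sub_self]; exact zero_mem _
    · exact sub_mem (Submodule.smul_mem _ _ (word_mem_F h)) (Submodule.smul_mem _ _ (word_mem_F h))
  · rw [map_zero, smul_zero, sub_zero]; exact zero_mem _
  · intro x y _ _ hx hy
    rw [map_add, smul_add, add_sub_add_comm]; exact add_mem hx hy
  · intro r x _ hx
    rw [map_smul, smul_comm (k : R) r, ← smul_sub]; exact Submodule.smul_mem _ _ hx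

theorem dg_evQ (τ : Tr X) : dg (evQ R c τ) = τ.size • evQ R c τ := by
  induction τ with
  | leaf x => rw [evQ_leaf, dg_lt]; simp [Tr.size]
  | node a b ha hb =>
    rw [evQ_node, LieRing.of_associative_ring_bracket, map_sub, dg_mul, dg_mul, ha, hb]
    simp only [Tr.size, add_smul, smul_mul_assoc, mul_smul_comm, smul_sub]
    abel

theorem D'_lieS {v : Q R X c} (hv : v ∈ lieS R X c) : D' v = dg v := by
  refine Submodule.span_induction (p := fun v _ => D' v = dg v) ?_ ?_ ?_ ?_ hv
  · rintro _ ⟨τ, rfl⟩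
    rw [D'_evQ, dg_evQ]
  · rw [map_zero, map_zero]
  · intro x y _ _ hx hy; rw [map_add, map_add, hx, hy]
  · intro r x _ hx; rw [map_smul, map_smul, hx]

theorem A'_lieS {v : Q R X c} (hv : v ∈ lieS R X c) (α : Q R X c) : A' v α = ⁅α, v⁆ := by
  refine Submodule.span_induction (p := fun v _ => A' v α = ⁅α, v⁆) ?_ ?_ ?_ ?_ hv
  · rintro _ ⟨τ, rfl⟩
    rw [A'_evQ]
  · rw [A'_zero, lie_zero]
  · intro x y _ _ hx hy; rw [A'_add, lie_add, hx, hy]
  · intro r x _ hx; rw [A'_smul, lie_smul, hx]

theorem D'_mem_lieS (u : Q R X c) : D' u ∈ lieS R X c := by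
  have hw : ∀ (w : FreeMonoid X) (l : Q R X c), l ∈ lieS R X c →
      unop (actW R (lt R c) w) l ∈ lieS R X c := by
    intro w
    induction w using FreeMonoid.inductionOn' with
    | one => intro l hl; simpa using hl
    | of_mul x v ih =>
      intro l hl
      rw [actW_mul, actW_of]
      exact ih _ (lieS_lie hl (lt_mem_lieS x))
  induction u using Q.induction with
  | hw w =>
    rw [D'_word]
    induction w using FreeMonoid.inductionOn' with
    | one => rw [dynW_one]; exact zero_mem _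
    | of_mul x v _ => rw [dynW_of_mul]; exact hw v _ (lt_mem_lieS x)
  | hadd x y hx hy => rw [map_add]; exact add_mem hx hy
  | hsmul r x hx => rw [map_smul]; exact Submodule.smul_mem _ _ hx

/-! ## Estimates for the exponential -/

theorem nexp_sub_mem {k : ℕ} {v : Q R X c} (hv : v ∈ F R X c k) : nexp R c v - 1 ∈ F R X c k := by
  unfold nexp
  rw [Finset.sum_range_succ', pow_zero, ifac_zero, one_smul, add_sub_cancel_right]
  refine sum_mem fun i _ => Submodule.smul_mem _ _ ?_
  rw [pow_succ]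
  exact F_mul_left _ hv

theorem pow_sub_mem {k : ℕ} (hk : 1 ≤ k) {a b : Q R X c} (ha : a ∈ F R X c 1)
    (hb : b ∈ F R X c k) (n : ℕ) : (a + b) ^ (n + 1) - a ^ (n + 1) ∈ F R X c (k + n) := by
  induction n with
  | zero => rw [zero_add, pow_one, pow_one, add_sub_cancel_left]; exact hb
  | succ n ih =>
    have h1 : (a + b) ^ (n + 1 + 1) - a ^ (n + 1 + 1) =
        ((a + b) ^ (n + 1) - a ^ (n + 1)) * (a + b) + a ^ (n + 1) * b := by
      rw [pow_succ (a + b) (n + 1), pow_succ a (n + 1)]; noncomm_ring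
    rw [h1]
    refine add_mem ?_ ?_
    · have := F_mul ih (add_mem ha (F_anti hk hb))
      rwa [add_assoc] at this
    · have := F_mul (F_pow ha (n + 1)) hb
      exact F_anti (by omega) this

theorem nexp_add_sub_mem (hc : 1 ≤ c) {k : ℕ} (hk : 1 ≤ k) {a b : Q R X c} (ha : a ∈ F R X c 1)
    (hb : b ∈ F R X c k) : nexp R c (a + b) - nexp R c a - b ∈ F R X c (k + 1) := by
  obtain ⟨d, rfl⟩ := Nat.exists_eq_add_of_le' hc
  unfold nexp
  rw [Finset.sum_range_succ', Finset.sum_range_succ', Finset.sum_range_succ' (fun k => ifac R k • a ^ k),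
    Finset.sum_range_succ' (fun i => ifac R (i + 1) • a ^ (i + 1))]
  have h1 : ∀ (x y z w : Q R X (d + 1)), (x + ifac R (0 + 1) • (a + b) ^ (0 + 1) + z) -
      (y + ifac R (0 + 1) • a ^ (0 + 1) + z) - b = x - y := by
    intro x y z w
    rw [zero_add, ifac_one, one_smul, one_smul, pow_one, pow_one]
    abel
  rw [pow_zero, pow_zero, h1 _ _ _ 0, ← Finset.sum_sub_distrib]
  refine sum_mem fun i _ => ?_
  rw [← smul_sub]
  refine Submodule.smul_mem _ _ ?_
  exact F_anti (by omega) (pow_sub_mem hk ha hb (i + 1))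

theorem nexp_inj (hc : 1 ≤ c) {u v : Q R X c} (hu : u ∈ F R X c 1) (hv : v ∈ F R X c 1)
    (h : nexp R c u = nexp R c v) : u = v := by
  have h1 : ∀ k, u - v ∈ F R X c (k + 1) := by
    intro k
    induction k with
    | zero => exact sub_mem hu hv
    | succ k ih =>
      have h2 := nexp_add_sub_mem hc (Nat.succ_pos k) hv ih
      rw [add_sub_cancel, h, sub_self, zero_sub] at h2
      have := neg_mem h2
      rwa [neg_neg] at this
  exact sub_eq_zero.1 (F_eq_zero (Nat.lt_succ_self c) (h1 c))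

theorem pow_mul_pow_eq_zero {u v : Q R X c} (hu : u ∈ F R X c 1) (hv : v ∈ F R X c 1) (i j : ℕ)
    (h : c < i + j) : u ^ i * v ^ j = 0 :=
  F_eq_zero h (by
    have := F_mul (F_pow hu i) (F_pow hv j)
    rwa [mul_one, mul_one] at this)

theorem nexp_neg_mul (hc : Inv R c) {v : Q R X c} (hv : v ∈ F R X c 1) :
    nexp R c (-v) * nexp R c v = 1 := by
  rw [← nexp_add hc (Commute.neg_left (Commute.refl v)) (fun i j h =>
    pow_mul_pow_eq_zero (neg_mem hv) hv i j h), neg_add_cancel, nexp_zero]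

theorem nexp_mul_neg (hc : Inv R c) {v : Q R X c} (hv : v ∈ F R X c 1) :
    nexp R c v * nexp R c (-v) = 1 := by
  have := nexp_neg_mul hc (neg_mem hv)
  rwa [neg_neg] at this

end Pool.Agent.helper40.Laz
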