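import Pool.Agent.helper40.Laz.Grp

/-!
# Lazard library, part 5: the exponentials of Lie elements form a group, continued
-/

namespace Pool.Agent.helper40.Laz

open Finset MulOpposite

attribute [local instance 100] LieRing.ofAssociativeRing

variable {R : Type*} [CommRing R] {X : Type*} {c : ℕ}

theorem A'_pow (v l : Q R X c) (n : ℕ) : A' (v ^ n) l = (A' v ^ n) l := by
  induction n generalizing l with
  | zero => rw [pow_zero, pow_zero, A'_one]; rfl
  | succ n ih => rw [pow_succ', A'_mul, ih, pow_succ, Module.End.mul_apply]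

theorem D'_pow {v : Q R X c} (hv : v ∈ F R X c 1) (n : ℕ) :
    D' (v ^ (n + 1)) = (A' v ^ n) (D' v) := by
  rw [pow_succ', D'_mul hv, A'_pow]

theorem A'_mem {a b : ℕ} {u l : Q R X c} (hu : u ∈ F R X c b) (hl : l ∈ F R X c a) :
    A' u l ∈ F R X c (a + b) := Ac_mem (FQ R X c) (lt R c) (fun x => lt_mem_F c x) hu hl

theorem A'_pow_mem {a : ℕ} {u l : Q R X c} (hu : u ∈ F R X c 1) (hl : l ∈ F R X c a) (n : ℕ) :
    (A' u ^ n) l ∈ F R X c (a + n) := by
  induction n with
  | zero => simpa using hl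
  | succ n ih =>
    rw [pow_succ', Module.End.mul_apply]
    have := A'_mem hu ih
    rwa [add_assoc] at this

theorem dg_pow {v : Q R X c} (hv : v ∈ lieS R X c) (k : ℕ) :
    dg (v ^ k) = ∑ l ∈ range k, (k.choose (l + 1)) • (v ^ (k - 1 - l) * (A' v ^ l) (dg v)) := by
  have hN : ∀ α : Q R X c, α * v = v * α + A' v α := by
    intro α
    rw [A'_lieS hv, LieRing.of_associative_ring_bracket]
    abel
  induction k with
  | zero => rw [pow_zero, dg_one]; simp
  | succ k ih =>
    rw [pow_succ, dg_mul, ih, Finset.sum_mul]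
    have h1 : ∀ l ∈ range k, (k.choose (l + 1)) • (v ^ (k - 1 - l) * (A' v ^ l) (dg v)) * v =
        (k.choose (l + 1)) • (v ^ (k - l) * (A' v ^ l) (dg v)) +
        (k.choose (l + 1)) • (v ^ (k - (l + 1)) * (A' v ^ (l + 1)) (dg v)) := by
      intro l hl
      rw [mem_range] at hl
      rw [smul_mul_assoc, mul_assoc, hN, mul_add, smul_add, ← mul_assoc, ← pow_succ,
        show k - 1 - l + 1 = k - l by omega, show k - 1 - l = k - (l + 1) by omega,
        pow_succ' (A' v) l, Module.End.mul_apply]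
    rw [Finset.sum_congr rfl h1, Finset.sum_add_distrib]
    have h2 : ∑ l ∈ range k, (k.choose (l + 1)) • (v ^ (k - l) * (A' v ^ l) (dg v)) =
        ∑ l ∈ range (k + 1), (k.choose (l + 1)) • (v ^ (k - l) * (A' v ^ l) (dg v)) := by
      rw [Finset.sum_range_succ, Nat.choose_succ_self, zero_smul, add_zero]
    have h3 : ∑ l ∈ range k, (k.choose (l + 1)) • (v ^ (k - (l + 1)) * (A' v ^ (l + 1)) (dg v)) +
        v ^ k * dg v = ∑ l ∈ range (k + 1), (k.choose l) • (v ^ (k - l) * (A' v ^ l) (dg v)) := by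
      rw [Finset.sum_range_succ' (fun l => (k.choose l) • (v ^ (k - l) * (A' v ^ l) (dg v)))]
      simp
    rw [h2, add_assoc, h3, ← Finset.sum_add_distrib]
    refine Finset.sum_congr rfl fun l _ => ?_
    rw [← add_smul, Nat.add_sub_cancel, Nat.choose_succ_succ, add_comm (k.choose l)]

theorem nexp_D' (hc : Inv R c) {v : Q R X c} (hv : v ∈ lieS R X c) :
    nexp R c v * D' (nexp R c v) = dg (nexp R c v) := by
  have hvF := lieS_le_F hv
  have hy : dg v ∈ F R X c 1 := dg_mem hvF
  have hD : D' (nexp R c v) = ∑ n ∈ range c, ifac R (n + 1) • (A' v ^ n) (dg v) := by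
    unfold nexp
    rw [map_sum, Finset.sum_range_succ', pow_zero, map_smul, D'_one, smul_zero, add_zero]
    refine Finset.sum_congr rfl fun n _ => ?_
    rw [map_smul, D'_pow hvF, D'_lieS hv]
  have hE : dg (nexp R c v) = ∑ k ∈ range (c + 1), ∑ l ∈ range k,
      ifac R k • (k.choose (l + 1)) • (v ^ (k - 1 - l) * (A' v ^ l) (dg v)) := by
    unfold nexp
    rw [map_sum]
    refine Finset.sum_congr rfl fun k _ => ?_
    rw [map_smul, dg_pow hv, Finset.smul_sum]
  rw [hD, hE]
  unfold nexp
  rw [Finset.sum_mul_sum, ← Finset.sum_product', Finset.sum_sigma']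
  have h2 : ∀ p ∈ (range (c + 1) ×ˢ range c).filter (fun p => ¬ p.1 + p.2 < c),
      (ifac R p.1 • v ^ p.1) * (ifac R (p.2 + 1) • (A' v ^ p.2) (dg v)) = 0 := by
    intro p hp
    rw [mem_filter] at hp
    rw [smul_mul_smul_comm]
    have h3 : v ^ p.1 * (A' v ^ p.2) (dg v) = 0 := by
      have := F_mul (F_pow hvF p.1) (A'_pow_mem hvF hy p.2)
      exact F_eq_zero (by omega) this
    rw [h3, smul_zero]
  rw [← Finset.sum_filter_add_sum_filter_not (range (c + 1) ×ˢ range c)
    (fun p => p.1 + p.2 < c), Finset.sum_eq_zero h2, add_zero]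
  refine Finset.sum_bij' (fun p _ => ⟨p.1 + p.2 + 1, p.2⟩)
    (fun s _ => (s.1 - 1 - s.2, s.2)) ?_ ?_ ?_ ?_ ?_
  · intro p hp
    simp only [mem_filter, mem_product, mem_range] at hp
    simp only [mem_sigma, mem_range]
    omega
  · intro s hs
    simp only [mem_sigma, mem_range] at hs
    simp only [mem_filter, mem_product, mem_range]
    omega
  · intro p hp
    simp only [mem_filter, mem_product, mem_range] at hp
    ext
    · show p.1 + p.2 + 1 - 1 - p.2 = p.1
      omega
    · rfl
  · intro s hs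
    simp only [mem_sigma, mem_range] at hs
    obtain ⟨n, m⟩ := s
    simp only at hs ⊢
    have : n - 1 - m + m + 1 = n := by omega
    rw [this]
  · intro p hp
    simp only [mem_filter, mem_product, mem_range] at hp
    show (ifac R p.1 • v ^ p.1) * (ifac R (p.2 + 1) • (A' v ^ p.2) (dg v)) =
      ifac R (p.1 + p.2 + 1) • ((p.1 + p.2 + 1).choose (p.2 + 1)) •
        (v ^ (p.1 + p.2 + 1 - 1 - p.2) * (A' v ^ p.2) (dg v))
    rw [smul_mul_smul_comm, ← Nat.cast_smul_eq_nsmul R, smul_smul]
    have h4 : p.1 + p.2 + 1 - 1 - p.2 = p.1 := by omega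
    rw [h4]
    congr 1
    have h5 := ifac_choose hc (i := p.1) (j := p.2 + 1) (by omega)
    rw [← h5, ← add_assoc]
    congr 2
    exact (Nat.choose_symm_of_eq_add (by omega)).symm

/-- The defining property of the exponentials of Lie elements. -/
def PP (g : Q R X c) : Prop := (∀ α, g * A' g α = α * g) ∧ g * D' g = dg g

theorem PP_mul {g h : Q R X c} (hg1 : g - 1 ∈ F R X c 1) (hg : PP g) (hh : PP h) : PP (g * h) := by
  refine ⟨fun α => ?_, ?_⟩
  · rw [A'_mul, mul_assoc, hh.1, ← mul_assoc, hg.1, mul_assoc]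
  · have h1 : D' (g * h) = A' h (D' g) + D' h := by
      have h2 : g * h = (g - 1) * h + h := by noncomm_ring
      rw [h2, map_add, D'_mul hg1, map_sub, D'_one, sub_zero]
    rw [h1, mul_add, mul_assoc, hh.1, ← mul_assoc, hg.2, mul_assoc, hh.2, dg_mul]

theorem PP_nexp (hc : Inv R c) {v : Q R X c} (hv : v ∈ lieS R X c) : PP (nexp R c v) := by
  have hvF := lieS_le_F hv
  refine ⟨fun α => ?_, nexp_D' hc hv⟩
  have h1 : A' (nexp R c v) = nexp R c (A' v) := by
    refine LinearMap.ext fun l => ?_
    have h2 : ∀ (s : Finset ℕ), A' (∑ k ∈ s, ifac R k • v ^ k) l =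
        (∑ k ∈ s, ifac R k • A' v ^ k) l := by
      classical
      intro s
      induction s using Finset.induction_on with
      | empty => rw [Finset.sum_empty, Finset.sum_empty, A'_zero]; rfl
      | insert a s ha ih =>
        rw [Finset.sum_insert ha, Finset.sum_insert ha, A'_add, ih, A'_smul, A'_pow]; rfl
    exact h2 _
  have h2 : A' v = LinearMap.mulRight R v + LinearMap.mulLeft R (-v) := by
    refine LinearMap.ext fun l => ?_
    rw [A'_lieS hv, LieRing.of_associative_ring_bracket]
    simp [sub_eq_add_neg]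
  have h3 : Commute (LinearMap.mulRight R v) (LinearMap.mulLeft R (-v)) := by
    refine LinearMap.ext fun l => ?_
    simp [mul_assoc]
  have h4 : ∀ i j, c < i + j → LinearMap.mulRight R v ^ i * LinearMap.mulLeft R (-v) ^ j = 0 := by
    intro i j hij
    refine LinearMap.ext fun l => ?_
    rw [LinearMap.pow_mulRight, LinearMap.pow_mulLeft]
    show (-v) ^ j * l * v ^ i = 0
    have := F_mul (F_mul (F_pow (neg_mem hvF) j) (F_zero c l)) (F_pow hvF i)
    exact F_eq_zero (by omega) this
  have h5 : ∀ l, nexp R c (LinearMap.mulRight R v) l = l * nexp R c v := by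
    intro l
    unfold nexp
    rw [LinearMap.sum_apply, Finset.mul_sum]
    refine Finset.sum_congr rfl fun k _ => ?_
    rw [LinearMap.smul_apply, LinearMap.pow_mulRight, mul_smul_comm]; rfl
  have h6 : ∀ l, nexp R c (LinearMap.mulLeft R (-v)) l = nexp R c (-v) * l := by
    intro l
    unfold nexp
    rw [LinearMap.sum_apply, Finset.sum_mul]
    refine Finset.sum_congr rfl fun k _ => ?_
    rw [LinearMap.smul_apply, LinearMap.pow_mulLeft, smul_mul_assoc]; rfl
  rw [h1, h2, nexp_add hc h3 h4, Module.End.mul_apply, h6, h5, ← mul_assoc, ← mul_assoc,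
    nexp_mul_neg hc hvF, one_mul]

/-- Every element with the property `PP` is the exponential of a Lie element. -/
theorem exists_log (hc : Inv R c) (h1c : 1 ≤ c) {g : Q R X c} (hg1 : g - 1 ∈ F R X c 1)
    (hg : PP g) : ∃ v ∈ lieS R X c, g = nexp R c v := by
  have key : ∀ k, k ≤ c → ∃ v ∈ lieS R X c, g - nexp R c v ∈ F R X c (k + 1) := by
    intro k
    induction k with
    | zero => intro _; exact ⟨0, zero_mem _, by rwa [nexp_zero]⟩
    | succ k ih =>
      intro hk
      obtain ⟨v, hv, hgv⟩ := ih (by omega)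
      have hvF := lieS_le_F hv
      set g' := nexp R c (-v) * g with hg'
      have h1 : g' - 1 ∈ F R X c (k + 1) := by
        have h2 : g' - 1 = nexp R c (-v) * (g - nexp R c v) := by
          rw [mul_sub, nexp_neg_mul hc hvF]
        rw [h2]
        exact F_mul_left _ hgv
      have hP : PP g' := PP_mul (nexp_sub_mem (neg_mem hvF)) (PP_nexp hc (neg_mem hv)) hg
      have hD1 : D' g' = D' (g' - 1) := by rw [map_sub, D'_one, sub_zero]
      have hE1 : dg g' = dg (g' - 1) := by rw [map_sub, dg_one, sub_zero]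
      have hDF : D' g' ∈ F R X c (k + 1) := by rw [hD1]; exact D'_mem h1
      have h3 : D' g' - ((k + 1 : ℕ) : R) • (g' - 1) ∈ F R X c (k + 1 + 1) := by
        have h4 : D' g' - ((k + 1 : ℕ) : R) • (g' - 1) =
            (dg (g' - 1) - ((k + 1 : ℕ) : R) • (g' - 1)) - (g' - 1) * D' g' := by
          rw [← hE1, ← hP.2]; noncomm_ring
        rw [h4]
        refine sub_mem (dg_sub_mem h1) (F_anti (by omega) (F_mul h1 hDF))
      set v' := inv' R (k + 1) • D' g' with hv'
      have hv'S : v' ∈ lieS R X c := Submodule.smul_mem _ _ (D'_mem_lieS _)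
      have hv'F : v' ∈ F R X c (k + 1) := Submodule.smul_mem _ _ hDF
      have h5 : v' - (g' - 1) ∈ F R X c (k + 1 + 1) := by
        have h6 := Submodule.smul_mem _ (inv' R (k + 1)) h3
        rw [smul_sub, smul_smul, mul_comm, inv'_mul hc (Nat.succ_pos k) hk, one_smul] at h6
        exact h6
      refine ⟨v + v', add_mem hv hv'S, ?_⟩
      have h7 := nexp_add_sub_mem h1c (Nat.succ_pos k) hvF hv'F
      have h8 : nexp R c v * g' = g := by
        rw [hg', ← mul_assoc, nexp_mul_neg hc hvF, one_mul]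
      have h9 : g - nexp R c (v + v') = -(nexp R c (v + v') - nexp R c v - v') +
          ((nexp R c v - 1) * (g' - 1) - (v' - (g' - 1))) := by
        conv_lhs => rw [← h8]
        noncomm_ring
      rw [h9]
      refine add_mem (neg_mem h7) (sub_mem ?_ h5)
      have := F_mul (nexp_sub_mem hvF) h1
      rwa [Nat.add_comm 1 (k + 1)] at this
  obtain ⟨v, hv, hgv⟩ := key c le_rfl
  exact ⟨v, hv, sub_eq_zero.1 (F_eq_zero (Nat.lt_succ_self c) hgv)⟩

/-- The exponentials of Lie elements are closed under products. -/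
theorem exists_mul (hc : Inv R c) (h1c : 1 ≤ c) {u v : Q R X c} (hu : u ∈ lieS R X c)
    (hv : v ∈ lieS R X c) : ∃ w ∈ lieS R X c, nexp R c w = nexp R c u * nexp R c v := by
  have h1 : nexp R c u * nexp R c v - 1 ∈ F R X c 1 := by
    have h2 : nexp R c u * nexp R c v - 1 = (nexp R c u - 1) * nexp R c v + (nexp R c v - 1) := by
      noncomm_ring
    rw [h2]
    exact add_mem (F_mul_right _ (nexp_sub_mem (lieS_le_F hu))) (nexp_sub_mem (lieS_le_F hv))
  obtain ⟨w, hw, h⟩ := exists_log hc h1c h1
    (PP_mul (nexp_sub_mem (lieS_le_F hu)) (PP_nexp hc hu) (PP_nexp hc hv))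
  exact ⟨w, hw, h.symm⟩

end Pool.Agent.helper40.Laz
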