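import Pool.Agent.helper40.Laz.Surj

/-!
# Lazard library, part 11: the Lie ring of a group of exponent `N` and class at most `c`
-/

namespace Pool.Agent.helper40.Laz

open Finset MulOpposite

open scoped commutatorElement

attribute [local instance 100] LieRing.ofAssociativeRing

section

variable {X : Type*} {c N : ℕ}

/-- The group `H` has exponent dividing `N` and class at most `c`, and `1, ..., c` are invertible
modulo `N`. -/
structure GOK (N c : ℕ) (H : Type*) [Group H] : Prop where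
  inv : Inv (ZMod N) c
  one_le : 1 ≤ c
  exp : ∀ h : H, h ^ N = 1
  cls : Gm H c = ⊥

variable {H : Type*} [Group H] (hG : GOK N c H)

open Classical in
/-- Evaluation of a Lie element in a group. -/
noncomputable def Pi (hc : Inv (ZMod N) c) (f : X → H) (z : Q (ZMod N) X c) : H :=
  if h : ∃ g : FreeGroup X, ((Mg hc g : (Q (ZMod N) X c)ˣ) : Q (ZMod N) X c) = nexp (ZMod N) c z
    then FreeGroup.lift f h.choose else 1

include hG

theorem Pi_eq (f : X → H) {z : Q (ZMod N) X c} {g : FreeGroup X}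
    (h : ((Mg hG.inv g : (Q (ZMod N) X c)ˣ) : Q (ZMod N) X c) = nexp (ZMod N) c z) :
    Pi hG.inv f z = FreeGroup.lift f g := by
  have h1 : ∃ g : FreeGroup X,
      ((Mg hG.inv g : (Q (ZMod N) X c)ˣ) : Q (ZMod N) X c) = nexp (ZMod N) c z := ⟨g, h⟩
  unfold Pi
  rw [dif_pos h1]
  have h2 : Mg hG.inv (h1.choose⁻¹ * g) = 1 := by
    rw [map_mul, map_inv, inv_mul_eq_one]
    apply Units.ext
    rw [h1.choose_spec, h]
  have h3 := magnus hG.inv hG.one_le hG.exp hG.cls (FreeGroup.lift f) h2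
  rwa [map_mul, map_inv, inv_mul_eq_one] at h3

theorem Pi_lt (f : X → H) (x : X) : Pi hG.inv f (lt (ZMod N) c x) = f x := by
  rw [Pi_eq hG f (Mg_of hG.inv x), FreeGroup.lift_apply_of]

theorem Pi_zero (f : X → H) : Pi hG.inv f 0 = 1 := by
  rw [Pi_eq hG f (g := 1) (by rw [map_one, nexp_zero]; rfl), map_one]

theorem Pi_bm (f : X → H) {u v : Q (ZMod N) X c} (hu : u ∈ lieS (ZMod N) X c)
    (hv : v ∈ lieS (ZMod N) X c) : Pi hG.inv f (bm u v) = Pi hG.inv f u * Pi hG.inv f v := by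
  obtain ⟨g, hg⟩ := Mg_surj hG.inv hG.one_le hu
  obtain ⟨h, hh⟩ := Mg_surj hG.inv hG.one_le hv
  rw [Pi_eq hG f hg, Pi_eq hG f hh, ← map_mul]
  apply Pi_eq hG f
  rw [map_mul, Units.val_mul, hg, hh, nexp_bm hG.inv hG.one_le hu hv]

theorem Pi_neg (f : X → H) {u : Q (ZMod N) X c} (hu : u ∈ lieS (ZMod N) X c) :
    Pi hG.inv f (-u) = (Pi hG.inv f u)⁻¹ := by
  have h1 := Pi_bm hG f (neg_mem hu) hu
  rw [neg_bm hG.inv hG.one_le hu, Pi_zero hG] at h1
  exact eq_inv_of_mul_eq_one_left h1.symm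

theorem Pi_sb {Y : Type*} (f : X → H) (u : Y → Q (ZMod N) X c) (hu : ∀ y, u y ∈ lieS (ZMod N) X c)
    {z : Q (ZMod N) Y c} (hz : z ∈ lieS (ZMod N) Y c) :
    Pi hG.inv f (sb u (fun y => lieS_le_F (hu y)) z) =
      Pi hG.inv (fun y => Pi hG.inv f (u y)) z := by
  have h1 : ∀ y, ∃ g : FreeGroup X,
      ((Mg hG.inv g : (Q (ZMod N) X c)ˣ) : Q (ZMod N) X c) = nexp (ZMod N) c (u y) :=
    fun y => Mg_surj hG.inv hG.one_le (hu y)
  choose g hg using h1
  obtain ⟨h, hh⟩ := Mg_surj hG.inv hG.one_le hz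
  have h2 : ∀ h : FreeGroup Y,
      ((Mg hG.inv (FreeGroup.lift g h) : (Q (ZMod N) X c)ˣ) : Q (ZMod N) X c) =
      sb u (fun y => lieS_le_F (hu y))
        ((Mg hG.inv h : (Q (ZMod N) Y c)ˣ) : Q (ZMod N) Y c) := by
    intro h
    have h3 : (Mg hG.inv).comp (FreeGroup.lift g) =
        (Units.map (sb u (fun y => lieS_le_F (hu y)) : Q (ZMod N) Y c →* Q (ZMod N) X c)).comp
          (Mg hG.inv) := by
      ext y
      simp only [MonoidHom.comp_apply, FreeGroup.lift_apply_of, Units.coe_map]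
      rw [hg, Mg_of]
      have h6 := map_nexp (sb u (fun y => lieS_le_F (hu y))) c (lt (ZMod N) c y)
      rw [sb_lt] at h6
      exact h6.symm
    have h4 := congrArg Units.val (DFunLike.congr_fun h3 h)
    exact h4
  rw [Pi_eq hG (fun y => Pi hG.inv f (u y)) hh]
  rw [Pi_eq hG f (g := FreeGroup.lift g h) (by rw [h2, hh, map_nexp])]
  have h5 : (FreeGroup.lift f).comp (FreeGroup.lift g) =
      FreeGroup.lift (fun y => Pi hG.inv f (u y)) := by
    ext y
    simp only [MonoidHom.comp_apply, FreeGroup.lift_apply_of]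
    rw [Pi_eq hG f (hg y)]
  exact DFunLike.congr_fun h5 h

omit hG in
theorem map_Pi {H' : Type*} [Group H'] (hc : Inv (ZMod N) c) (φ : H →* H') (f : X → H)
    (z : Q (ZMod N) X c) : φ (Pi hc f z) = Pi hc (fun x => φ (f x)) z := by
  unfold Pi
  split_ifs with h
  · have h5 : φ.comp (FreeGroup.lift f) = FreeGroup.lift (fun x => φ (f x)) := by
      ext y
      simp only [MonoidHom.comp_apply, FreeGroup.lift_apply_of]
    exact DFunLike.congr_fun h5 _
  · exact map_one φ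

/-- The sum of two elements. -/
noncomputable def addH (x y : H) : H :=
  Pi hG.inv (two x y) (lt (ZMod N) c false + lt (ZMod N) c true)

/-- The bracket of two elements. -/
noncomputable def lieH (x y : H) : H :=
  Pi hG.inv (two x y) ⁅lt (ZMod N) c false, lt (ZMod N) c true⁆

/-- The scalar multiples of an element. -/
noncomputable def smulH (t : ZMod N) (x : H) : H :=
  Pi hG.inv (fun _ : Unit => x) (t • lt (ZMod N) c ())

omit hG [Group H] in
theorem two_mem {u v : Q (ZMod N) X c} (hu : u ∈ lieS (ZMod N) X c)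
    (hv : v ∈ lieS (ZMod N) X c) (b : Bool) : two u v b ∈ lieS (ZMod N) X c := by
  cases b
  · exact hu
  · exact hv

theorem Pi_add (f : X → H) {u v : Q (ZMod N) X c} (hu : u ∈ lieS (ZMod N) X c)
    (hv : v ∈ lieS (ZMod N) X c) :
    Pi hG.inv f (u + v) = addH hG (Pi hG.inv f u) (Pi hG.inv f v) := by
  have h1 := Pi_sb hG f (two u v) (two_mem hu hv)
    (z := lt (ZMod N) c false + lt (ZMod N) c true) (add_mem (lt_mem_lieS _) (lt_mem_lieS _))
  rw [map_add, sb_lt, sb_lt] at h1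
  have h2 : (fun y => Pi hG.inv f (two u v y)) = two (Pi hG.inv f u) (Pi hG.inv f v) := by
    funext b; cases b <;> rfl
  rw [h2] at h1
  exact h1

theorem Pi_lie (f : X → H) {u v : Q (ZMod N) X c} (hu : u ∈ lieS (ZMod N) X c)
    (hv : v ∈ lieS (ZMod N) X c) :
    Pi hG.inv f ⁅u, v⁆ = lieH hG (Pi hG.inv f u) (Pi hG.inv f v) := by
  have h1 := Pi_sb hG f (two u v) (two_mem hu hv)
    (z := ⁅lt (ZMod N) c false, lt (ZMod N) c true⁆) (lieS_lie (lt_mem_lieS _) (lt_mem_lieS _))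
  rw [sb_lie, sb_lt, sb_lt] at h1
  have h2 : (fun y => Pi hG.inv f (two u v y)) = two (Pi hG.inv f u) (Pi hG.inv f v) := by
    funext b; cases b <;> rfl
  rw [h2] at h1
  exact h1

theorem Pi_smul (f : X → H) {u : Q (ZMod N) X c} (hu : u ∈ lieS (ZMod N) X c) (t : ZMod N) :
    Pi hG.inv f (t • u) = smulH hG t (Pi hG.inv f u) := by
  have h1 := Pi_sb hG f (fun _ : Unit => u) (fun _ => hu)
    (z := t • lt (ZMod N) c ()) (Submodule.smul_mem _ _ (lt_mem_lieS _))
  rw [map_smul, sb_lt] at h1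
  exact h1

omit hG in
/-- The group `H` seen as a Lie ring. -/
@[nolint unusedArguments]
def LieOf (_ : GOK N c H) : Type _ := H

omit hG in
/-- The identity map to the Lie ring. -/
def LieOf.of (hG : GOK N c H) (x : H) : LieOf hG := x

omit hG in
/-- The identity map from the Lie ring. -/
def LieOf.gt (hG : GOK N c H) (x : LieOf hG) : H := x

theorem exists_Pi (x : LieOf hG) :
    ∃ u ∈ lieS (ZMod N) H c, x = LieOf.of hG (Pi hG.inv (id : H → H) u) :=
  ⟨lt (ZMod N) c (LieOf.gt hG x), lt_mem_lieS _, (Pi_lt hG id _).symm⟩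

noncomputable instance : Add (LieOf hG) :=
  ⟨fun x y => LieOf.of hG (addH hG (LieOf.gt hG x) (LieOf.gt hG y))⟩

noncomputable instance : Zero (LieOf hG) := ⟨LieOf.of hG 1⟩

noncomputable instance : Neg (LieOf hG) := ⟨fun x => LieOf.of hG (LieOf.gt hG x)⁻¹⟩

noncomputable instance : AddCommGroup (LieOf hG) where
  nsmul := nsmulRec
  zsmul := zsmulRec
  add_assoc x y z := by
    obtain ⟨u, hu, rfl⟩ := exists_Pi hG x
    obtain ⟨v, hv, rfl⟩ := exists_Pi hG y
    obtain ⟨w, hw, rfl⟩ := exists_Pi hG z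
    show LieOf.of hG (addH hG (addH hG _ _) _) = LieOf.of hG (addH hG _ (addH hG _ _))
    congr 1
    refine Eq.trans (congrArg (fun t => addH hG t _) (Pi_add hG _ hu hv).symm) ?_
    refine Eq.trans (Pi_add hG _ (add_mem hu hv) hw).symm ?_
    refine Eq.symm (Eq.trans (congrArg (fun t => addH hG _ t) (Pi_add hG _ hv hw).symm) ?_)
    rw [add_assoc]
    exact (Pi_add hG _ hu (add_mem hv hw)).symm
  zero_add x := by
    obtain ⟨u, hu, rfl⟩ := exists_Pi hG x
    show LieOf.of hG (addH hG 1 (Pi hG.inv id u)) = _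
    rw [← Pi_zero hG (id : H → H), ← Pi_add hG _ (zero_mem _) hu, zero_add]
  add_zero x := by
    obtain ⟨u, hu, rfl⟩ := exists_Pi hG x
    show LieOf.of hG (addH hG (Pi hG.inv id u) 1) = _
    rw [← Pi_zero hG (id : H → H), ← Pi_add hG _ hu (zero_mem _), add_zero]
  neg_add_cancel x := by
    obtain ⟨u, hu, rfl⟩ := exists_Pi hG x
    show LieOf.of hG (addH hG (Pi hG.inv (id : H → H) u)⁻¹ (Pi hG.inv id u)) = LieOf.of hG 1
    rw [← Pi_neg hG _ hu, ← Pi_add hG _ (neg_mem hu) hu, neg_add_cancel, Pi_zero hG]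
  add_comm x y := by
    obtain ⟨u, hu, rfl⟩ := exists_Pi hG x
    obtain ⟨v, hv, rfl⟩ := exists_Pi hG y
    show LieOf.of hG (addH hG (Pi hG.inv id u) (Pi hG.inv id v)) =
      LieOf.of hG (addH hG (Pi hG.inv id v) (Pi hG.inv id u))
    rw [← Pi_add hG _ hu hv, ← Pi_add hG _ hv hu, add_comm]

theorem LieOf.Pi_add (f : X → H) {u v : Q (ZMod N) X c} (hu : u ∈ lieS (ZMod N) X c)
    (hv : v ∈ lieS (ZMod N) X c) :
    of hG (Pi hG.inv f (u + v)) = of hG (Pi hG.inv f u) + of hG (Pi hG.inv f v) :=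
  congrArg (of hG) (Laz.Pi_add hG f hu hv)

theorem LieOf.Pi_zero (f : X → H) : of hG (Pi hG.inv f 0) = 0 := congrArg (of hG) (Laz.Pi_zero hG f)

theorem LieOf.of_one : of hG 1 = 0 := rfl

theorem LieOf.of_inv (x : H) : of hG x⁻¹ = - of hG x := rfl

noncomputable instance : LieRing (LieOf hG) where
  bracket x y := LieOf.of hG (lieH hG (LieOf.gt hG x) (LieOf.gt hG y))
  add_lie x y z := by
    obtain ⟨u, hu, rfl⟩ := exists_Pi hG x
    obtain ⟨v, hv, rfl⟩ := exists_Pi hG y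
    obtain ⟨w, hw, rfl⟩ := exists_Pi hG z
    rw [← LieOf.Pi_add hG _ hu hv]
    refine (congrArg (LieOf.of hG) (Pi_lie hG _ (add_mem hu hv) hw).symm).trans ?_
    rw [add_lie, LieOf.Pi_add hG _ (lieS_lie hu hw) (lieS_lie hv hw), Pi_lie hG _ hu hw,
      Pi_lie hG _ hv hw]
    rfl
  lie_add x y z := by
    obtain ⟨u, hu, rfl⟩ := exists_Pi hG x
    obtain ⟨v, hv, rfl⟩ := exists_Pi hG y
    obtain ⟨w, hw, rfl⟩ := exists_Pi hG z
    rw [← LieOf.Pi_add hG _ hv hw]
    refine (congrArg (LieOf.of hG) (Pi_lie hG _ hu (add_mem hv hw)).symm).trans ?_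
    rw [lie_add, LieOf.Pi_add hG _ (lieS_lie hu hv) (lieS_lie hu hw), Pi_lie hG _ hu hv,
      Pi_lie hG _ hu hw]
    rfl
  lie_self x := by
    obtain ⟨u, hu, rfl⟩ := exists_Pi hG x
    refine (congrArg (LieOf.of hG) (Pi_lie hG _ hu hu).symm).trans ?_
    rw [lie_self, LieOf.Pi_zero hG]
  leibniz_lie x y z := by
    obtain ⟨u, hu, rfl⟩ := exists_Pi hG x
    obtain ⟨v, hv, rfl⟩ := exists_Pi hG y
    obtain ⟨w, hw, rfl⟩ := exists_Pi hG z
    have e : ∀ {a b : Q (ZMod N) H c}, a ∈ lieS (ZMod N) H c → b ∈ lieS (ZMod N) H c →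
      LieOf.of hG (lieH hG (Pi hG.inv id a) (Pi hG.inv id b)) =
        LieOf.of hG (Pi hG.inv id ⁅a, b⁆) := fun ha hb =>
          congrArg (LieOf.of hG) (Pi_lie hG _ ha hb).symm
    have e1 := e hv hw
    have e2 := e hu (lieS_lie hv hw)
    have e3 := e hu hv
    have e4 := e (lieS_lie hu hv) hw
    have e5 := e hu hw
    have e6 := e hv (lieS_lie hu hw)
    have e7 : LieOf.of hG (Pi hG.inv id ⁅u, ⁅v, w⁆⁆) = LieOf.of hG (Pi hG.inv id ⁅⁅u, v⁆, w⁆) +
        LieOf.of hG (Pi hG.inv id ⁅v, ⁅u, w⁆⁆) := by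
      rw [← LieOf.Pi_add hG _ (lieS_lie (lieS_lie hu hv) hw) (lieS_lie hv (lieS_lie hu hw)),
        ← leibniz_lie]
    change LieOf.of hG (lieH hG (Pi hG.inv id u) (LieOf.of hG (lieH hG (Pi hG.inv id v)
      (Pi hG.inv id w)))) = LieOf.of hG (lieH hG (LieOf.of hG (lieH hG (Pi hG.inv id u)
      (Pi hG.inv id v))) (Pi hG.inv id w)) + LieOf.of hG (lieH hG (Pi hG.inv id v)
      (LieOf.of hG (lieH hG (Pi hG.inv id u) (Pi hG.inv id w))))
    rw [e1, e3, e5]
    exact (e2.trans e7).trans (by rw [← e4, ← e6]; rfl)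

theorem LieOf.Pi_lie (f : X → H) {u v : Q (ZMod N) X c} (hu : u ∈ lieS (ZMod N) X c)
    (hv : v ∈ lieS (ZMod N) X c) :
    of hG (Pi hG.inv f ⁅u, v⁆) = ⁅of hG (Pi hG.inv f u), of hG (Pi hG.inv f v)⁆ :=
  congrArg (of hG) (Laz.Pi_lie hG f hu hv)

noncomputable instance : Module (ZMod N) (LieOf hG) where
  smul t x := LieOf.of hG (smulH hG t (LieOf.gt hG x))
  one_smul x := by
    obtain ⟨u, hu, rfl⟩ := exists_Pi hG x
    refine (congrArg (LieOf.of hG) (Pi_smul hG _ hu 1).symm).trans ?_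
    rw [one_smul]
  mul_smul s t x := by
    obtain ⟨u, hu, rfl⟩ := exists_Pi hG x
    refine (congrArg (LieOf.of hG) (Pi_smul hG _ hu (s * t)).symm).trans ?_
    rw [mul_smul, Pi_smul hG _ (Submodule.smul_mem _ _ hu), Pi_smul hG _ hu]
    rfl
  smul_zero t := by
    refine (congrArg (fun z => LieOf.of hG (smulH hG t z)) (Pi_zero hG (id : H → H)).symm).trans ?_
    rw [← Pi_smul hG _ (zero_mem _), smul_zero, LieOf.Pi_zero hG]
  smul_add t x y := by
    obtain ⟨u, hu, rfl⟩ := exists_Pi hG x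
    obtain ⟨v, hv, rfl⟩ := exists_Pi hG y
    rw [← LieOf.Pi_add hG _ hu hv]
    refine (congrArg (LieOf.of hG) (Pi_smul hG _ (add_mem hu hv) t).symm).trans ?_
    rw [smul_add, LieOf.Pi_add hG _ (Submodule.smul_mem _ _ hu) (Submodule.smul_mem _ _ hv),
      Pi_smul hG _ hu, Pi_smul hG _ hv]
    rfl
  add_smul s t x := by
    obtain ⟨u, hu, rfl⟩ := exists_Pi hG x
    refine (congrArg (LieOf.of hG) (Pi_smul hG _ hu (s + t)).symm).trans ?_
    rw [add_smul, LieOf.Pi_add hG _ (Submodule.smul_mem _ _ hu) (Submodule.smul_mem _ _ hu),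
      Pi_smul hG _ hu, Pi_smul hG _ hu]
    rfl
  zero_smul x := by
    obtain ⟨u, hu, rfl⟩ := exists_Pi hG x
    refine (congrArg (LieOf.of hG) (Pi_smul hG _ hu 0).symm).trans ?_
    rw [zero_smul, LieOf.Pi_zero hG]

theorem LieOf.Pi_smul (f : X → H) {u : Q (ZMod N) X c} (hu : u ∈ lieS (ZMod N) X c) (t : ZMod N) :
    of hG (Pi hG.inv f (t • u)) = t • of hG (Pi hG.inv f u) :=
  congrArg (of hG) (Laz.Pi_smul hG f hu t)

noncomputable instance : LieAlgebra (ZMod N) (LieOf hG) where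
  lie_smul t x y := by
    obtain ⟨u, hu, rfl⟩ := exists_Pi hG x
    obtain ⟨v, hv, rfl⟩ := exists_Pi hG y
    rw [← LieOf.Pi_smul hG _ hv, ← LieOf.Pi_lie hG _ hu (Submodule.smul_mem _ _ hv),
      ← LieOf.Pi_lie hG _ hu hv, ← LieOf.Pi_smul hG _ (lieS_lie hu hv), lie_smul]

/-- The evaluation as a linear map. -/
noncomputable def PiL (f : X → H) : lieS (ZMod N) X c →ₗ[ZMod N] LieOf hG where
  toFun u := LieOf.of hG (Pi hG.inv f u.1)
  map_add' u v := LieOf.Pi_add hG f u.2 v.2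
  map_smul' t u := LieOf.Pi_smul hG f u.2 t

theorem PiL_apply (f : X → H) (u : lieS (ZMod N) X c) :
    PiL hG f u = LieOf.of hG (Pi hG.inv f u.1) := rfl

theorem LieOf.Pi_evQ (f : X → H) (τ : Tr X) :
    of hG (Pi hG.inv f (evQ (ZMod N) c τ)) = τ.ev (fun x => of hG (f x)) := by
  induction τ with
  | leaf x => exact Pi_lt hG f x
  | node a b ha hb =>
    rw [evQ_node, LieOf.Pi_lie hG f (evQ_mem_lieS a) (evQ_mem_lieS b), ha, hb]
    rfl

/-- The Lie filtration of the Lie ring of a group. -/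
noncomputable def LieOf.fil : LFil (ZMod N) (LieOf hG) c where
  Λ k := ((F (ZMod N) H c k).comap (lieS (ZMod N) H c).subtype).map (PiL hG (id : H → H))
  top x := ⟨⟨lt (ZMod N) c (LieOf.gt hG x), lt_mem_lieS _⟩, F_zero _ _, Pi_lt hG id _⟩
  anti a b hab := Submodule.map_mono (Submodule.comap_mono (F_anti hab))
  lie a b x y := by
    rintro ⟨u, hu, rfl⟩ ⟨v, hv, rfl⟩
    exact ⟨⟨⁅u.1, v.1⁆, lieS_lie u.2 v.2⟩, F_lie hu hv, LieOf.Pi_lie hG _ u.2 v.2⟩
  bot k x hk := by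
    rintro ⟨u, hu, rfl⟩
    have h1 : u.1 = 0 := F_eq_zero hk hu
    rw [PiL_apply, h1, LieOf.Pi_zero hG]

theorem LieOf.fil_one (x : LieOf hG) : x ∈ (LieOf.fil hG).Λ 1 :=
  ⟨⟨lt (ZMod N) c (LieOf.gt hG x), lt_mem_lieS _⟩, lt_mem_F _ _, Pi_lt hG id _⟩

theorem evL_eq_Pi (f : X → H) {z : Q (ZMod N) X c} (hz : z ∈ lieS (ZMod N) X c) :
    evL (LieOf.fil hG) (fun x => LieOf.of hG (f x)) (fun _ => LieOf.fil_one hG _) z =
      LieOf.of hG (Pi hG.inv f z) := by
  refine Submodule.span_induction (p := fun z _ =>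
    evL (LieOf.fil hG) (fun x => LieOf.of hG (f x)) (fun _ => LieOf.fil_one hG _) z =
      LieOf.of hG (Pi hG.inv f z)) ?_ ?_ ?_ ?_ hz
  · rintro _ ⟨τ, rfl⟩
    rw [evL_evQ _ _ _ hG.inv]
    exact (LieOf.Pi_evQ hG f τ).symm
  · rw [map_zero, LieOf.Pi_zero hG]
  · intro x y hx' hy' hx hy
    rw [map_add, hx, hy, LieOf.Pi_add hG f hx' hy']
  · intro r x hx' hx
    rw [map_smul, hx, LieOf.Pi_smul hG f hx' r]

/-- The Baker-Campbell-Hausdorff product of the Lie ring of `H` is the product of `H`. -/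
theorem laz_eq_mul (x y : H) :
    laz (LieOf.fil hG) (LieOf.fil_one hG) (LieOf.of hG x) (LieOf.of hG y) =
      LieOf.of hG (x * y) := by
  have hm : bchE (ZMod N) c ∈ lieS (ZMod N) Bool c :=
    bm_mem hG.inv hG.one_le (lt_mem_lieS _) (lt_mem_lieS _)
  have h2 : two (LieOf.of hG x) (LieOf.of hG y) = fun b => LieOf.of hG (two x y b) := by
    funext b; cases b <;> rfl
  unfold laz
  simp only [h2]
  rw [evL_eq_Pi hG _ hm]
  have h1 := Pi_bm hG (two x y) (lt_mem_lieS false) (lt_mem_lieS (R := ZMod N) (c := c) true)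
  rw [Pi_lt hG, Pi_lt hG] at h1
  exact congrArg (LieOf.of hG) h1

end

end Pool.Agent.helper40.Laz
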