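import Pool.Agent.helper40.Laz.Trunc

/-!
# Lazard library, part 3: the right action, Dynkin's operator, trees
-/

namespace Pool.Agent.helper40.Laz

open Finset MulOpposite

/-- Lie monomials. -/
inductive Tr (X : Type*) where
  | leaf : X → Tr X
  | node : Tr X → Tr X → Tr X

/-- The degree of a Lie monomial. -/
def Tr.size {X : Type*} : Tr X → ℕ
  | .leaf _ => 1
  | .node a b => a.size + b.size

theorem Tr.size_pos {X : Type*} : ∀ τ : Tr X, 0 < τ.size
  | .leaf _ => Nat.one_pos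
  | .node a b => Nat.add_pos_left a.size_pos _

/-- The value of a Lie monomial. -/
def Tr.ev {X L : Type*} [Bracket L L] (f : X → L) : Tr X → L
  | .leaf x => f x
  | .node a b => ⁅a.ev f, b.ev f⁆

variable (R : Type*) [CommRing R] {X : Type*} (L : Type*) [LieRing L] [LieAlgebra R L]

/-- A Lie filtration of class `c`. -/
structure LFil (c : ℕ) where
  Λ : ℕ → Submodule R L
  top : ∀ x, x ∈ Λ 0
  anti : ∀ a b : ℕ, a ≤ b → Λ b ≤ Λ a
  lie : ∀ a b x y, x ∈ Λ a → y ∈ Λ b → ⁅x, y⁆ ∈ Λ (a + b)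
  bot : ∀ k x, c < k → x ∈ Λ k → x = 0

variable {R L}

variable {c : ℕ}

/-- Right bracket with `y`. -/
def brR (y : L) : Module.End R L where
  toFun l := ⁅l, y⁆
  map_add' := by intro a b; simp
  map_smul' := by intro r a; simp

@[simp] theorem brR_apply (y l : L) : brR (R := R) y l = ⁅l, y⁆ := rfl

/-- The action of words. -/
def actW (R : Type*) [CommRing R] [LieAlgebra R L] (f : X → L) :
    FreeMonoid X →* (Module.End R L)ᵐᵒᵖ :=
  FreeMonoid.lift fun x => op (brR (f x))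

theorem actW_mul (f : X → L) (v w : FreeMonoid X) (l : L) :
    unop (actW R f (v * w)) l = unop (actW R f w) (unop (actW R f v) l) := by
  rw [map_mul]; rfl

theorem actW_of (f : X → L) (x : X) (l : L) :
    unop (actW R f (FreeMonoid.of x)) l = ⁅l, f x⁆ := by
  unfold actW
  rw [FreeMonoid.lift_eval_of]; rfl

theorem actW_mem (Φ : LFil R L c) {f : X → L} (hf : ∀ x, f x ∈ Φ.Λ 1) (w : FreeMonoid X)
    {a : ℕ} {l : L} (hl : l ∈ Φ.Λ a) : unop (actW R f w) l ∈ Φ.Λ (a + w.length) := by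
  induction w using FreeMonoid.inductionOn' generalizing a l with
  | one => simpa using hl
  | of_mul x v ih =>
    rw [actW_mul, actW_of, FreeMonoid.length_mul, FreeMonoid.length_of, ← add_assoc]
    exact ih (Φ.lie _ _ _ _ hl (hf x))

/-- The right action of the truncated algebra on `L`. -/
noncomputable def act (Φ : LFil R L c) (f : X → L) (hf : ∀ x, f x ∈ Φ.Λ 1) :
    Q R X c →ₐ[R] (Module.End R L)ᵐᵒᵖ :=
  Q.algHom (fun x => op (brR (f x))) (by
    intro w hw
    apply unop_injective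
    refine LinearMap.ext fun l => ?_
    exact Φ.bot _ _ (by omega : c < 0 + w.length) (actW_mem Φ hf w (Φ.top l)))

/-- The action as endomorphism. -/
noncomputable def Ac (Φ : LFil R L c) (f : X → L) (hf : ∀ x, f x ∈ Φ.Λ 1) (u : Q R X c) :
    Module.End R L := unop (act Φ f hf u)

section

variable (Φ : LFil R L c) (f : X → L) (hf : ∀ x, f x ∈ Φ.Λ 1)

theorem Ac_word (w : FreeMonoid X) : Ac Φ f hf (word R c w) = unop (actW R f w) := by
  unfold Ac act
  rw [Q.algHom_word]; rfl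

theorem Ac_mul (u v : Q R X c) (l : L) : Ac Φ f hf (u * v) l = Ac Φ f hf v (Ac Φ f hf u l) := by
  unfold Ac
  rw [map_mul]; rfl

theorem Ac_add (u v : Q R X c) (l : L) : Ac Φ f hf (u + v) l = Ac Φ f hf u l + Ac Φ f hf v l := by
  unfold Ac
  rw [map_add]; rfl

theorem Ac_sub (u v : Q R X c) (l : L) : Ac Φ f hf (u - v) l = Ac Φ f hf u l - Ac Φ f hf v l := by
  unfold Ac
  rw [map_sub]; rfl

theorem Ac_smul (r : R) (u : Q R X c) (l : L) : Ac Φ f hf (r • u) l = r • Ac Φ f hf u l := by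
  unfold Ac
  rw [map_smul]; rfl

theorem Ac_one (l : L) : Ac Φ f hf 1 l = l := by
  unfold Ac
  rw [map_one]; rfl

theorem Ac_zero (l : L) : Ac Φ f hf 0 l = 0 := by
  unfold Ac
  rw [map_zero]; rfl

theorem Ac_lt (x : X) (l : L) : Ac Φ f hf (lt R c x) l = ⁅l, f x⁆ := by
  unfold lt
  rw [Ac_word, actW_of]

theorem Ac_mem {a b : ℕ} {u : Q R X c} (hu : u ∈ F R X c b) {l : L} (hl : l ∈ Φ.Λ a) :
    Ac Φ f hf u l ∈ Φ.Λ (a + b) := by
  refine Submodule.span_induction (p := fun u _ => Ac Φ f hf u l ∈ Φ.Λ (a + b)) ?_ ?_ ?_ ?_ hu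
  · rintro u ⟨w, hw, rfl⟩
    rw [Ac_word]
    exact Φ.anti _ _ (by omega) (actW_mem Φ hf w hl)
  · rw [Ac_zero]; exact zero_mem _
  · intro u v _ _ hu hv; rw [Ac_add]; exact add_mem hu hv
  · intro r u _ hu; rw [Ac_smul]; exact Submodule.smul_mem _ _ hu

/-- Dynkin's operator on words. -/
def dynW (R : Type*) [CommRing R] [LieAlgebra R L] (f : X → L) (w : FreeMonoid X) : L :=
  match FreeMonoid.toList w with
  | [] => 0
  | x :: v => unop (actW R f (FreeMonoid.ofList v)) (f x)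

theorem dynW_one : dynW R f 1 = 0 := rfl

theorem dynW_of_mul (x : X) (v : FreeMonoid X) :
    dynW R f (FreeMonoid.of x * v) = unop (actW R f v) (f x) := rfl

theorem dynW_mul {v : FreeMonoid X} (hv : 0 < v.length) (w : FreeMonoid X) :
    dynW R f (v * w) = unop (actW R f w) (dynW R f v) := by
  induction v using FreeMonoid.inductionOn' with
  | one => simp at hv
  | of_mul x u _ => rw [mul_assoc, dynW_of_mul, dynW_of_mul, actW_mul]

theorem dynW_mem (w : FreeMonoid X) (hf : ∀ x, f x ∈ Φ.Λ 1) : dynW R f w ∈ Φ.Λ w.length := by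
  induction w using FreeMonoid.inductionOn' with
  | one => rw [dynW_one]; exact zero_mem _
  | of_mul x u _ =>
    rw [dynW_of_mul, FreeMonoid.length_mul, FreeMonoid.length_of]
    exact actW_mem Φ hf u (hf x)

/-- Dynkin's operator. -/
noncomputable def Dy : Q R X c →ₗ[R] L :=
  Q.lift (dynW R f) fun w hw => Φ.bot _ _ hw (dynW_mem Φ f w hf)

theorem Dy_word (w : FreeMonoid X) : Dy Φ f hf (word R c w) = dynW R f w := Q.lift_word _ _ _

theorem Dy_one : Dy Φ f hf 1 = 0 := by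
  rw [← word_one, Dy_word, dynW_one]

theorem Dy_lt (x : X) : Dy Φ f hf (lt R c x) = f x := by
  unfold lt
  rw [Dy_word]
  have := dynW_of_mul (R := R) f x 1
  rw [mul_one] at this
  rw [this, map_one]; rfl

theorem Dy_mul {u : Q R X c} (hu : u ∈ F R X c 1) (v : Q R X c) :
    Dy Φ f hf (u * v) = Ac Φ f hf v (Dy Φ f hf u) := by
  refine Submodule.span_induction
    (p := fun u _ => Dy Φ f hf (u * v) = Ac Φ f hf v (Dy Φ f hf u)) ?_ ?_ ?_ ?_ hu
  · rintro u ⟨w, hw, rfl⟩
    induction v using Q.induction with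
    | hw v => rw [← word_mul, Dy_word, Dy_word, Ac_word, dynW_mul f (by omega)]
    | hadd x y hx hy => rw [mul_add, map_add, hx, hy, Ac_add]
    | hsmul r x hx => rw [mul_smul_comm, map_smul, hx, Ac_smul]
  · rw [zero_mul, map_zero, map_zero]
  · intro x y _ _ hx hy; rw [add_mul, map_add, map_add, map_add, hx, hy]
  · intro r x _ hx; rw [smul_mul_assoc, map_smul, map_smul, map_smul, hx]

theorem Dy_mem {k : ℕ} {u : Q R X c} (hu : u ∈ F R X c k) : Dy Φ f hf u ∈ Φ.Λ k := by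
  refine Submodule.span_induction (p := fun u _ => Dy Φ f hf u ∈ Φ.Λ k) ?_ ?_ ?_ ?_ hu
  · rintro u ⟨w, hw, rfl⟩
    rw [Dy_word]
    exact Φ.anti _ _ hw (dynW_mem Φ f w hf)
  · rw [map_zero]; exact zero_mem _
  · intro u v _ _ hu hv; rw [map_add]; exact add_mem hu hv
  · intro r u _ hu; rw [map_smul]; exact Submodule.smul_mem _ _ hu

end

/-- The value of a Lie monomial in the truncated algebra. -/
noncomputable def evQ (R : Type*) [CommRing R] (c : ℕ) (τ : Tr X) : Q R X c := τ.ev (lt R c)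

theorem evQ_leaf (x : X) : evQ R c (Tr.leaf x) = lt R c x := rfl

theorem evQ_node (a b : Tr X) : evQ R c (Tr.node a b) = ⁅evQ R c a, evQ R c b⁆ := rfl

variable (R X) in
/-- The homogeneous part. -/
noncomputable def Hom (c k : ℕ) : Submodule R (Q R X c) :=
  Submodule.span R {x | ∃ w : FreeMonoid X, w.length = k ∧ x = word R c w}

theorem Hom_le_F (c k : ℕ) : Hom R X c k ≤ F R X c k :=
  Submodule.span_mono fun _ ⟨w, hw, hx⟩ => ⟨w, hw.ge, hx⟩

theorem Hom_mul {a b : ℕ} {x y : Q R X c} (hx : x ∈ Hom R X c a) (hy : y ∈ Hom R X c b) :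
    x * y ∈ Hom R X c (a + b) := by
  refine Submodule.span_induction (p := fun x _ => x * y ∈ Hom R X c (a + b)) ?_ ?_ ?_ ?_ hx
  · rintro x ⟨v, hv, rfl⟩
    refine Submodule.span_induction (p := fun y _ => word R c v * y ∈ Hom R X c (a + b))
      ?_ ?_ ?_ ?_ hy
    · rintro y ⟨w, hw, rfl⟩
      rw [← word_mul]
      exact Submodule.subset_span ⟨_, by rw [FreeMonoid.length_mul, hv, hw], rfl⟩
    · rw [mul_zero]; exact zero_mem _
    · intro y z _ _ hy hz; rw [mul_add]; exact add_mem hy hz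
    · intro r y _ hy; rw [mul_smul_comm]; exact Submodule.smul_mem _ _ hy
  · rw [zero_mul]; exact zero_mem _
  · intro x z _ _ hx hz; rw [add_mul]; exact add_mem hx hz
  · intro r x _ hx; rw [smul_mul_assoc]; exact Submodule.smul_mem _ _ hx

theorem evQ_mem_Hom (τ : Tr X) : evQ R c τ ∈ Hom R X c τ.size := by
  induction τ with
  | leaf x => exact Submodule.subset_span ⟨FreeMonoid.of x, FreeMonoid.length_of x, rfl⟩
  | node a b ha hb =>
    rw [evQ_node, LieRing.of_associative_ring_bracket]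
    refine sub_mem (Hom_mul ha hb) ?_
    have := Hom_mul hb ha
    rwa [Nat.add_comm b.size a.size] at this

theorem evQ_mem_F (τ : Tr X) : evQ R c τ ∈ F R X c τ.size := Hom_le_F _ _ (evQ_mem_Hom τ)

theorem evQ_mem_F_one (τ : Tr X) : evQ R c τ ∈ F R X c 1 := F_anti τ.size_pos (evQ_mem_F τ)

section

variable (Φ : LFil R L c) (f : X → L) (hf : ∀ x, f x ∈ Φ.Λ 1)

theorem ev_mem (hf : ∀ x, f x ∈ Φ.Λ 1) (τ : Tr X) : τ.ev f ∈ Φ.Λ τ.size := by
  induction τ with
  | leaf x => exact hf x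
  | node a b ha hb => exact Φ.lie _ _ _ _ ha hb

theorem Ac_evQ (τ : Tr X) (l : L) : Ac Φ f hf (evQ R c τ) l = ⁅l, τ.ev f⁆ := by
  induction τ generalizing l with
  | leaf x => exact Ac_lt Φ f hf x l
  | node a b ha hb =>
    rw [evQ_node, LieRing.of_associative_ring_bracket, Ac_sub, Ac_mul, Ac_mul, ha, hb, ha, hb]
    show _ = ⁅l, ⁅a.ev f, b.ev f⁆⁆
    rw [leibniz_lie, ← lie_skew ⁅l, b.ev f⁆ (a.ev f)]
    abel

theorem Dy_evQ (τ : Tr X) : Dy Φ f hf (evQ R c τ) = τ.size • τ.ev f := by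
  induction τ with
  | leaf x => rw [evQ_leaf, Dy_lt]; simp [Tr.size, Tr.ev]
  | node a b ha hb =>
    rw [evQ_node, LieRing.of_associative_ring_bracket, map_sub, Dy_mul Φ f hf (evQ_mem_F_one a),
      Dy_mul Φ f hf (evQ_mem_F_one b), Ac_evQ, Ac_evQ, ha, hb]
    show _ = (a.size + b.size) • ⁅a.ev f, b.ev f⁆
    rw [add_smul, nsmul_lie, nsmul_lie, ← lie_skew (b.ev f) (a.ev f), smul_neg]
    abel

end

end Pool.Agent.helper40.Laz
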