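import Pool.Agent.helper40.Laz.Univ
import Pool.Agent.helper40.Laz.Comm

/-!
# Lazard library, part 8: the local Magnus theorem
-/

namespace Pool.Agent.helper40.Laz

open Finset MulOpposite

open scoped commutatorElement

attribute [local instance 100] LieRing.ofAssociativeRing

section

variable {R : Type*} [CommRing R] {X : Type*} {c : ℕ}

/-- The exponential of a letter, as a unit. -/
noncomputable def eU (hc : Inv R c) (x : X) : (Q R X c)ˣ where
  val := nexp R c (lt R c x)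
  inv := nexp R c (-lt R c x)
  val_inv := nexp_mul_neg hc (lt_mem_F c x)
  inv_val := nexp_neg_mul hc (lt_mem_F c x)

/-- The Magnus homomorphism. -/
noncomputable def Mg (hc : Inv R c) : FreeGroup X →* (Q R X c)ˣ := FreeGroup.lift (eU hc)

theorem Mg_of (hc : Inv R c) (x : X) :
    ((Mg hc (FreeGroup.of x) : (Q R X c)ˣ) : Q R X c) = nexp R c (lt R c x) := by
  unfold Mg
  rw [FreeGroup.lift_apply_of]; rfl

/-- The subgroup of exponentials of Lie elements. -/
noncomputable def EU (hc : Inv R c) (h1c : 1 ≤ c) : Subgroup (Q R X c)ˣ where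
  carrier := {g | ∃ v ∈ lieS R X c, (g : Q R X c) = nexp R c v}
  mul_mem' := by
    rintro a b ⟨u, hu, hau⟩ ⟨v, hv, hbv⟩
    obtain ⟨w, hw, h⟩ := exists_mul hc h1c hu hv
    exact ⟨w, hw, by rw [Units.val_mul, hau, hbv, h]⟩
  one_mem' := ⟨0, zero_mem _, by rw [nexp_zero]; rfl⟩
  inv_mem' := by
    rintro a ⟨u, hu, hau⟩
    refine ⟨-u, neg_mem hu, ?_⟩
    apply a.inv_eq_of_mul_eq_one_left
    rw [hau]
    exact nexp_neg_mul hc (lieS_le_F hu)

theorem Mg_mem (hc : Inv R c) (h1c : 1 ≤ c) (g : FreeGroup X) : Mg hc g ∈ EU hc h1c := by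
  have h : (Mg hc (X := X)).range ≤ EU hc h1c := by
    unfold Mg
    rw [FreeGroup.range_lift_eq_closure, Subgroup.closure_le]
    rintro _ ⟨x, rfl⟩
    exact ⟨lt R c x, lt_mem_lieS x, rfl⟩
  exact h ⟨g, rfl⟩

theorem Mg_exists (hc : Inv R c) (h1c : 1 ≤ c) (g : FreeGroup X) :
    ∃ v ∈ lieS R X c, ((Mg hc g : (Q R X c)ˣ) : Q R X c) = nexp R c v := Mg_mem hc h1c g

theorem Mg_sub_mem_one (hc : Inv R c) (h1c : 1 ≤ c) (g : FreeGroup X) :
    ((Mg hc g : (Q R X c)ˣ) : Q R X c) - 1 ∈ F R X c 1 := by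
  obtain ⟨v, hv, h⟩ := Mg_exists hc h1c g
  rw [h]
  exact nexp_sub_mem (lieS_le_F hv)

/-- Commutators in the filtered algebra. -/
theorem comm_sub_mem {i j : ℕ} (g h : (Q R X c)ˣ) {x y : Q R X c}
    (hg : (g : Q R X c) - 1 - x ∈ F R X c (i + 1)) (hx : x ∈ F R X c i)
    (hh : (h : Q R X c) - 1 - y ∈ F R X c (j + 1)) (hy : y ∈ F R X c j) (hi : 1 ≤ i)
    (hj : 1 ≤ j) :
    ((⁅g, h⁆ : (Q R X c)ˣ) : Q R X c) - 1 - ⁅x, y⁆ ∈ F R X c (i + j + 1) := by
  have hg1 : (g : Q R X c) - 1 ∈ F R X c i := by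
    have := add_mem (F_anti (Nat.le_succ i) hg) hx
    rwa [sub_add_cancel] at this
  have hh1 : (h : Q R X c) - 1 ∈ F R X c j := by
    have := add_mem (F_anti (Nat.le_succ j) hh) hy
    rwa [sub_add_cancel] at this
  have h1 : ((⁅g, h⁆ : (Q R X c)ˣ) : Q R X c) - 1 =
      ⁅(g : Q R X c) - 1, (h : Q R X c) - 1⁆ * (↑(g⁻¹) * ↑(h⁻¹)) := by
    have h2 : ((⁅g, h⁆ : (Q R X c)ˣ) : Q R X c) = (g : Q R X c) * h * (↑(g⁻¹) * ↑(h⁻¹)) := by
      rw [commutatorElement_def]; push_cast; noncomm_ring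
    have h3 : (1 : Q R X c) = (h : Q R X c) * g * (↑(g⁻¹) * ↑(h⁻¹)) := by
      rw [mul_assoc, ← mul_assoc (g : Q R X c), Units.mul_inv, one_mul, Units.mul_inv]
    rw [h2]
    conv_lhs => rw [h3]
    rw [LieRing.of_associative_ring_bracket]
    noncomm_ring
  have h4 : ⁅(g : Q R X c) - 1, (h : Q R X c) - 1⁆ ∈ F R X c (i + j) := F_lie hg1 hh1
  have h5 : (↑(g⁻¹) * ↑(h⁻¹) : Q R X c) - 1 ∈ F R X c 1 := by
    have e1 : (↑(g⁻¹) : Q R X c) - 1 ∈ F R X c 1 := by
      have : (↑(g⁻¹) : Q R X c) - 1 = -(↑(g⁻¹) * ((g : Q R X c) - 1)) := by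
        rw [mul_sub, Units.inv_mul]; noncomm_ring
      rw [this]
      exact neg_mem (F_mul_left _ (F_anti hi hg1))
    have e2 : (↑(h⁻¹) : Q R X c) - 1 ∈ F R X c 1 := by
      have : (↑(h⁻¹) : Q R X c) - 1 = -(↑(h⁻¹) * ((h : Q R X c) - 1)) := by
        rw [mul_sub, Units.inv_mul]; noncomm_ring
      rw [this]
      exact neg_mem (F_mul_left _ (F_anti hj hh1))
    have e3 : (↑(g⁻¹) * ↑(h⁻¹) : Q R X c) - 1 =
        (↑(g⁻¹) - 1) * ↑(h⁻¹) + (↑(h⁻¹) - 1) := by noncomm_ring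
    rw [e3]
    exact add_mem (F_mul_right _ e1) e2
  have h6 : ((⁅g, h⁆ : (Q R X c)ˣ) : Q R X c) - 1 - ⁅x, y⁆ =
      ⁅(g : Q R X c) - 1, (h : Q R X c) - 1⁆ * ((↑(g⁻¹) * ↑(h⁻¹)) - 1) +
      (⁅(g : Q R X c) - 1 - x, (h : Q R X c) - 1⁆ + ⁅x, (h : Q R X c) - 1 - y⁆) := by
    rw [h1, sub_lie ((g : Q R X c) - 1) x, lie_sub x ((h : Q R X c) - 1) y, mul_sub, mul_one]
    abel
  rw [h6]
  refine add_mem ?_ (add_mem ?_ ?_)
  · exact F_mul h4 h5
  · have := F_lie hg hh1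
    rwa [show i + 1 + j = i + j + 1 by omega] at this
  · have h7 := F_lie hx hh
    rwa [← add_assoc] at h7

theorem dynW_memF (w : FreeMonoid X) : dynW R (lt R c) w ∈ F R X c w.length :=
  dynW_mem (FQ R X c) (lt R c) w (fun x => lt_mem_F c x)

theorem nexp_lt_sub (h1c : 1 ≤ c) (x : X) :
    nexp R c (lt R c x) - 1 - lt R c x ∈ F R X c (1 + 1) := by
  have := nexp_add_sub_mem (R := R) (X := X) h1c (le_refl 1) (zero_mem _) (lt_mem_F c x)
  rwa [zero_add, nexp_zero] at this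

/-- Leading term of the elements of the lower central series. -/
theorem Mg_Gm (hc : Inv R c) (h1c : 1 ≤ c) {k : ℕ} {g : FreeGroup X}
    (hg : g ∈ Gm (FreeGroup X) k) :
    ((Mg hc g : (Q R X c)ˣ) : Q R X c) - 1 ∈ F R X c (k + 1) := by
  let D : ℕ → Subgroup (FreeGroup X) := fun k =>
    { carrier := {g | ((Mg hc g : (Q R X c)ˣ) : Q R X c) - 1 ∈ F R X c (k + 1)}
      mul_mem' := by
        intro a b ha hb
        show ((Mg hc (a * b) : (Q R X c)ˣ) : Q R X c) - 1 ∈ F R X c (k + 1)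
        rw [map_mul, Units.val_mul]
        have h1 : ((Mg hc a : (Q R X c)ˣ) : Q R X c) * (Mg hc b : (Q R X c)ˣ) - 1 =
          (((Mg hc a : (Q R X c)ˣ) : Q R X c) - 1) * (Mg hc b : (Q R X c)ˣ) +
          (((Mg hc b : (Q R X c)ˣ) : Q R X c) - 1) := by noncomm_ring
        rw [h1]
        exact add_mem (F_mul_right _ ha) hb
      one_mem' := by
        show ((Mg hc 1 : (Q R X c)ˣ) : Q R X c) - 1 ∈ F R X c (k + 1)
        rw [map_one, Units.val_one, sub_self]
        exact zero_mem _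
      inv_mem' := by
        intro a ha
        show ((Mg hc a⁻¹ : (Q R X c)ˣ) : Q R X c) - 1 ∈ F R X c (k + 1)
        rw [map_inv]
        have : (((Mg hc a)⁻¹ : (Q R X c)ˣ) : Q R X c) - 1 =
            -((((Mg hc a)⁻¹ : (Q R X c)ˣ) : Q R X c) * (((Mg hc a : (Q R X c)ˣ) : Q R X c) - 1)) := by
          rw [mul_sub, Units.inv_mul]; noncomm_ring
        rw [this]
        exact neg_mem (F_mul_left _ ha) }
  have key : ∀ k, Gm (FreeGroup X) k ≤ D k := by
    intro k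
    induction k with
    | zero => exact fun g _ => Mg_sub_mem_one hc h1c g
    | succ k ih =>
      refine Subgroup.commutator_le.2 fun a ha b _ => ?_
      have h1 := comm_sub_mem (i := k + 1) (j := 1) (Mg hc a) (Mg hc b)
        (x := ((Mg hc a : (Q R X c)ˣ) : Q R X c) - 1) (y := ((Mg hc b : (Q R X c)ˣ) : Q R X c) - 1)
        (by rw [sub_self]; exact zero_mem _) (ih ha) (by rw [sub_self]; exact zero_mem _)
        (Mg_sub_mem_one hc h1c b) (by omega) le_rfl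
      have h2 : ⁅((Mg hc a : (Q R X c)ˣ) : Q R X c) - 1, ((Mg hc b : (Q R X c)ˣ) : Q R X c) - 1⁆ ∈
          F R X c (k + 1 + 1) := F_lie (ih ha) (Mg_sub_mem_one hc h1c b)
      show ((Mg hc ⁅a, b⁆ : (Q R X c)ˣ) : Q R X c) - 1 ∈ F R X c (k + 1 + 1)
      rw [map_commutatorElement]
      have h3 := add_mem (F_anti (Nat.le_succ _) h1) h2
      rwa [sub_add_cancel] at h3
  exact key k hg

/-- Leading term of left-normed commutators. -/
theorem Mg_Cw (hc : Inv R c) (h1c : 1 ≤ c) (x : X) (s : List X) :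
    ((Mg hc (Cw FreeGroup.of (FreeGroup.of x) s) : (Q R X c)ˣ) : Q R X c) - 1 -
      dynW R (lt R c) (FreeMonoid.ofList (x :: s)) ∈ F R X c (s.length + 1 + 1) := by
  induction s using List.reverseRecOn with
  | nil =>
    show ((Mg hc (FreeGroup.of x) : (Q R X c)ˣ) : Q R X c) - 1 - dynW R (lt R c) _ ∈ _
    rw [Mg_of]
    have h2 : dynW R (lt R c) (FreeMonoid.ofList [x]) = lt R c x := rfl
    rw [h2]
    exact nexp_lt_sub h1c x
  | append_singleton s y ih =>
    have h1 : Cw FreeGroup.of (FreeGroup.of x) (s ++ [y]) =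
        ⁅Cw FreeGroup.of (FreeGroup.of x) s, FreeGroup.of y⁆ := by rw [Cw_append]; rfl
    have h2 : dynW R (lt R c) (FreeMonoid.ofList (x :: (s ++ [y]))) =
        ⁅dynW R (lt R c) (FreeMonoid.ofList (x :: s)), lt R c y⁆ := by
      have h3 : (FreeMonoid.ofList (x :: (s ++ [y])) : FreeMonoid X) =
          FreeMonoid.ofList (x :: s) * FreeMonoid.of y := rfl
      rw [h3, dynW_mul _ (by show 0 < (x :: s).length; simp), actW_of]
    rw [h1, map_commutatorElement, h2, List.length_append, List.length_singleton]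
    have h4 : dynW R (lt R c) (FreeMonoid.ofList (x :: s)) ∈ F R X c (s.length + 1) :=
      dynW_memF (FreeMonoid.ofList (x :: s))
    exact comm_sub_mem (i := s.length + 1) (j := 1) _ _ ih h4
      (by rw [Mg_of]; exact nexp_lt_sub h1c y) (lt_mem_F c y) (by omega) le_rfl

end

end Pool.Agent.helper40.Laz
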