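import Pool.Agent.helper40.Laz.Magnus

/-!
# Lazard library, part 9: the local Magnus theorem, continued
-/

universe u

namespace Pool.Agent.helper40.Laz

open Finset MulOpposite

open scoped commutatorElement

attribute [local instance 100] LieRing.ofAssociativeRing

section

variable {R : Type*} [CommRing R] {X : Type*} {c : ℕ}

/-- The linear map given by a function on the words of length `k`. -/
noncomputable def thk {B : Type*} [AddCommGroup B] [Module R B] (t : List X → B) (k : ℕ)
    (hk : k ≤ c) : Q R X c →ₗ[R] B :=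
  Q.lift (fun w => if w.length = k then t w.toList else 0) (by
    intro w hw
    rw [if_neg (by omega)])

theorem thk_word {B : Type*} [AddCommGroup B] [Module R B] (t : List X → B) (k : ℕ)
    (hk : k ≤ c) (w : FreeMonoid X) (hw : w.length = k) :
    thk (R := R) t k hk (word R c w) = t w.toList := by
  unfold thk
  rw [Q.lift_word, if_pos hw]

theorem thk_F {B : Type*} [AddCommGroup B] [Module R B] (t : List X → B) (k : ℕ)
    (hk : k ≤ c) {u : Q R X c} (hu : u ∈ F R X c (k + 1)) : thk (R := R) t k hk u = 0 := by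
  refine Submodule.span_induction (p := fun u _ => thk (R := R) t k hk u = 0) ?_ ?_ ?_ ?_ hu
  · rintro _ ⟨w, hw, rfl⟩
    unfold thk
    rw [Q.lift_word, if_neg (by omega)]
  · rw [map_zero]
  · intro x y _ _ hx hy; rw [map_add, hx, hy, add_zero]
  · intro r x _ hx; rw [map_smul, hx, smul_zero]

theorem thk_mul_lt {B : Type*} [AddCommGroup B] [Module R B] (t : List X → B) (k : ℕ)
    (hk : k + 1 ≤ c) (x : X) {u : Q R X c} (hu : u ∈ Hom R X c k) :
    thk (R := R) t (k + 1) hk (u * lt R c x) =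
      thk (R := R) (fun v => t (v ++ [x])) k (by omega) u := by
  refine Submodule.span_induction (p := fun u _ => thk (R := R) t (k + 1) hk (u * lt R c x) =
      thk (R := R) (fun v => t (v ++ [x])) k (by omega) u) ?_ ?_ ?_ ?_ hu
  · rintro _ ⟨w, hw, rfl⟩
    unfold lt
    rw [← word_mul, thk_word _ _ _ _ (by rw [FreeMonoid.length_mul, hw, FreeMonoid.length_of]),
      thk_word _ _ _ _ hw]
    rfl
  · rw [zero_mul, map_zero, map_zero]
  · intro x y _ _ hx hy; rw [add_mul, map_add, map_add, hx, hy]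
  · intro r x _ hx; rw [smul_mul_assoc, map_smul, map_smul, hx]

theorem thk_lt_mul {B : Type*} [AddCommGroup B] [Module R B] (t : List X → B) (k : ℕ)
    (hk : k + 1 ≤ c) (x : X) {u : Q R X c} (hu : u ∈ Hom R X c k) :
    thk (R := R) t (k + 1) hk (lt R c x * u) =
      thk (R := R) (fun v => t (x :: v)) k (by omega) u := by
  refine Submodule.span_induction (p := fun u _ => thk (R := R) t (k + 1) hk (lt R c x * u) =
      thk (R := R) (fun v => t (x :: v)) k (by omega) u) ?_ ?_ ?_ ?_ hu
  · rintro _ ⟨w, hw, rfl⟩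
    unfold lt
    rw [← word_mul, thk_word _ _ _ _ (by
      rw [FreeMonoid.length_mul, hw, FreeMonoid.length_of, add_comm]), thk_word _ _ _ _ hw]
    rfl
  · rw [mul_zero, map_zero, map_zero]
  · intro x y _ _ hx hy; rw [mul_add, map_add, map_add, hx, hy]
  · intro r x _ hx; rw [mul_smul_comm, map_smul, map_smul, hx]

theorem dynW_Hom (y : X) (r : List X) :
    dynW R (lt R c) (FreeMonoid.ofList (y :: r.reverse)) ∈ Hom R X c (r.length + 1) := by
  induction r with
  | nil => exact Submodule.subset_span ⟨FreeMonoid.of y, rfl, rfl⟩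
  | cons x r ih =>
    have h3 : (FreeMonoid.ofList (y :: (x :: r).reverse) : FreeMonoid X) =
        FreeMonoid.ofList (y :: r.reverse) * FreeMonoid.of x := by
      rw [List.reverse_cons]; rfl
    rw [h3, dynW_mul _ (by show 0 < (y :: r.reverse).length; simp), actW_of,
      LieRing.of_associative_ring_bracket, List.length_cons]
    have h4 : lt R c x ∈ Hom R X c 1 := Submodule.subset_span ⟨FreeMonoid.of x, rfl, rfl⟩
    refine sub_mem (Hom_mul ih h4) ?_
    have := Hom_mul h4 ih
    rwa [Nat.add_comm 1 (r.length + 1)] at this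

variable {G : Type*} [Group G]

theorem thk_dynW {B : Type*} [AddCommGroup B] [Module R B] {n : ℕ} (q : G → B)
    (hq : ∀ a ∈ Gm G n, ∀ b ∈ Gm G n, q (a * b) = q a + q b) (y : X) (r : List X)
    (hr : r.length + 1 ≤ c) (T : List X → G) (hT : ∀ u, u.length = r.length + 1 → T u ∈ Gm G n) :
    val y r T ∈ Gm G n ∧ thk (R := R) (fun u => q (T u)) (r.length + 1) hr
      (dynW R (lt R c) (FreeMonoid.ofList (y :: r.reverse))) = q (val y r T) := by
  induction r generalizing T with
  | nil =>
    refine ⟨hT [y] rfl, ?_⟩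
    exact thk_word (R := R) (fun u => q (T u)) 1 hr (FreeMonoid.of y) rfl
  | cons x r ih =>
    rw [List.length_cons] at hr
    have h1 := ih (by omega) (fun u => T (u ++ [x])) (fun u hu => hT _ (by simp [hu]))
    have h2 := ih (by omega) (fun u => T (x :: u)) (fun u hu => hT _ (by simp [hu]))
    refine ⟨mul_mem h1.1 (inv_mem h2.1), ?_⟩
    have h3 : (FreeMonoid.ofList (y :: (x :: r).reverse) : FreeMonoid X) =
        FreeMonoid.ofList (y :: r.reverse) * FreeMonoid.of x := by
      rw [List.reverse_cons]; rfl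
    have hinv : ∀ a ∈ Gm G n, q a⁻¹ = - q a := by
      intro a ha
      have h4 := hq a ha a⁻¹ (inv_mem ha)
      have h5 := hq 1 (one_mem _) 1 (one_mem _)
      rw [mul_one] at h5
      have h6 : q 1 = 0 := by
        have := congrArg (fun z => z - q 1) h5
        simpa using this.symm
      rw [mul_inv_cancel, h6] at h4
      exact (neg_eq_of_add_eq_zero_right h4.symm).symm
    show thk (R := R) (fun u => q (T u)) (r.length + 1 + 1) hr _ =
      q (val y r (fun u => T (u ++ [x])) * (val y r (fun u => T (x :: u)))⁻¹)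
    rw [hq _ h1.1 _ (inv_mem h2.1), hinv _ h2.1, ← h1.2, ← h2.2, h3,
      dynW_mul _ (by show 0 < (y :: r.reverse).length; simp), actW_of,
      LieRing.of_associative_ring_bracket, map_sub, thk_mul_lt _ _ _ _ (dynW_Hom y r),
      thk_lt_mul _ _ _ _ (dynW_Hom y r), sub_eq_add_neg]

end

/-! ## The local Magnus theorem -/

section

variable {X : Type*} {c N : ℕ}

theorem magnus_core {R : Type*} [CommRing R] (hc : Inv R c) (h1c : 1 ≤ c) {n : ℕ}
    (hn : n + 1 ≤ c) {G : Type*} [Group G] (π : FreeGroup X →* G)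
    (hπm : ∀ a ∈ Gm (FreeGroup X) n, π a ∈ Gm G n)
    (hπ1 : ∀ a ∈ Gm (FreeGroup X) (n + 1), π a = 1)
    (hbot : Gm G (n + 1) = ⊥) {B : Type*} [AddCommGroup B] [Module R B] (q : G → B)
    (hq : ∀ a ∈ Gm G n, ∀ b ∈ Gm G n, q (a * b) = q a + q b)
    {g : FreeGroup X} (hg : g ∈ Gm (FreeGroup X) n)
    (hM : ((Mg hc g : (Q R X c)ˣ) : Q R X c) - 1 ∈ F R X c (n + 2)) :
    q (π g ^ (n + 1)) = 0 := by
  let f : X → G := fun x => π (FreeGroup.of x)
  have hq1 : q 1 = 0 := by
    have h5 := hq 1 (one_mem _) 1 (one_mem _)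
    rw [mul_one] at h5
    have := congrArg (fun z => z - q 1) h5
    simpa using this.symm
  have hqinv : ∀ a ∈ Gm G n, q a⁻¹ = - q a := by
    intro a ha
    have h4 := hq a ha a⁻¹ (inv_mem ha)
    rw [mul_inv_cancel, hq1] at h4
    exact (neg_eq_of_add_eq_zero_right h4.symm).symm
  have hqpow : ∀ a ∈ Gm G n, ∀ k : ℕ, q (a ^ k) = k • q a := by
    intro a ha k
    induction k with
    | zero => rw [pow_zero, hq1, zero_nsmul]
    | succ k ih => rw [pow_succ, hq _ (pow_mem ha k) _ ha, ih, succ_nsmul]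
  let θ : Q R X c →ₗ[R] B := thk (fun u => q (Cv f u)) (n + 1) hn
  -- the two homomorphisms agree
  have hCπ : ∀ (s : List X) (a : FreeGroup X), π (Cw FreeGroup.of a s) = Cw f (π a) s := by
    intro s
    induction s with
    | nil => intro a; rfl
    | cons x s ih => intro a; rw [Cw_cons, Cw_cons, ih, map_commutatorElement]
  have hadd : ∀ a ∈ Gm (FreeGroup X) n, ∀ b ∈ Gm (FreeGroup X) n,
      θ (((Mg hc (a * b) : (Q R X c)ˣ) : Q R X c) - 1) =
      θ (((Mg hc a : (Q R X c)ˣ) : Q R X c) - 1) +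
      θ (((Mg hc b : (Q R X c)ˣ) : Q R X c) - 1) := by
    intro a ha b hb
    have h1 : ((Mg hc (a * b) : (Q R X c)ˣ) : Q R X c) - 1 =
        (((Mg hc a : (Q R X c)ˣ) : Q R X c) - 1) +
        (((Mg hc b : (Q R X c)ˣ) : Q R X c) - 1) +
        (((Mg hc a : (Q R X c)ˣ) : Q R X c) - 1) *
        (((Mg hc b : (Q R X c)ˣ) : Q R X c) - 1) := by
      rw [map_mul, Units.val_mul]; noncomm_ring
    have h2 : θ ((((Mg hc a : (Q R X c)ˣ) : Q R X c) - 1) *
        (((Mg hc b : (Q R X c)ˣ) : Q R X c) - 1)) = 0 :=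
      thk_F _ _ _ (F_anti (by omega) (F_mul (Mg_Gm hc h1c ha) (Mg_Gm hc h1c hb)))
    rw [h1, map_add, map_add, h2, add_zero]
  have hone : θ (((Mg hc 1 : (Q R X c)ˣ) : Q R X c) - 1) = 0 := by
    rw [map_one, Units.val_one, sub_self, map_zero]
  let S : Subgroup (FreeGroup X) :=
    { carrier := {a | a ∈ Gm (FreeGroup X) n ∧
        θ (((Mg hc a : (Q R X c)ˣ) : Q R X c) - 1) = (n + 1) • q (π a)}
      mul_mem' := by
        rintro a b ⟨ha, ha'⟩ ⟨hb, hb'⟩
        refine ⟨mul_mem ha hb, ?_⟩
        rw [hadd a ha b hb, ha', hb', map_mul, hq _ (hπm a ha) _ (hπm b hb), smul_add]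
      one_mem' := ⟨one_mem _, by rw [hone, map_one, hq1, smul_zero]⟩
      inv_mem' := by
        rintro a ⟨ha, ha'⟩
        refine ⟨inv_mem ha, ?_⟩
        have h1 := hadd a ha a⁻¹ (inv_mem ha)
        rw [mul_inv_cancel, hone, ha'] at h1
        rw [map_inv π, hqinv _ (hπm a ha), smul_neg]
        exact (neg_eq_of_add_eq_zero_right h1.symm).symm }
  have hS : Gm (FreeGroup X) n ≤ S := by
    refine (Gm_generate FreeGroup.of (FreeGroup.closure_range_of X) n).trans (sup_le ?_ ?_)
    · rw [Subgroup.closure_le]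
      rintro _ ⟨w, hw, rfl⟩
      cases w with
      | nil => simp at hw
      | cons y s =>
        rw [List.length_cons] at hw
        have hs : s.length = n := by omega
        have hm : Cw FreeGroup.of (FreeGroup.of y) s ∈ Gm (FreeGroup X) n := by
          have := Cw_mem FreeGroup.of (i := 0) (Subgroup.mem_top (FreeGroup.of y)) s
          rwa [zero_add, hs] at this
        refine ⟨hm, ?_⟩
        show θ (((Mg hc (Cw FreeGroup.of (FreeGroup.of y) s) : (Q R X c)ˣ) :
          Q R X c) - 1) = (n + 1) • q (π (Cw FreeGroup.of (FreeGroup.of y) s))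
        have h1 := Mg_Cw hc h1c y s
        rw [hs] at h1
        have h2 : θ (((Mg hc (Cw FreeGroup.of (FreeGroup.of y) s) : (Q R X c)ˣ) :
            Q R X c) - 1) = θ (dynW R (lt R c) (FreeMonoid.ofList (y :: s))) := by
          rw [← sub_eq_zero, ← map_sub]
          exact thk_F _ _ _ h1
        have hr : s.reverse.length + 1 = n + 1 := by rw [List.length_reverse, hs]
        have h3 := (thk_dynW (R := R) (c := c) q hq y s.reverse (by omega) (Cv f) (by
          intro u hu
          cases u with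
          | nil => simp at hu
          | cons z u =>
            have := Cw_mem f (i := 0) (Subgroup.mem_top (f z)) u
            rw [List.length_cons] at hu
            rwa [zero_add, show u.length = n by omega] at this)).2
        rw [List.reverse_reverse] at h3
        have h4 := Cv_val f hbot y s.reverse [] (by simp [hs])
        simp only [List.append_nil, List.reverse_reverse, List.length_reverse] at h4
        have h5 : θ (dynW R (lt R c) (FreeMonoid.ofList (y :: s))) =
            thk (R := R) (c := c) (fun u => q (Cv f u)) (s.reverse.length + 1) (by omega)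
              (dynW R (lt R c) (FreeMonoid.ofList (y :: s))) := by
          simp only [θ, hr]
        have hm' := hπm _ hm
        rw [hCπ] at hm'
        rw [h2, h5, h3, h4, hCπ, hs]
        exact hqpow _ hm' (n + 1)
    · intro a ha
      refine ⟨Gm_anti (Nat.le_succ n) ha, ?_⟩
      rw [hπ1 a ha, hq1, smul_zero]
      exact thk_F _ _ _ (Mg_Gm hc h1c ha)
  have h1 := (hS hg).2
  have h2 : θ (((Mg hc g : (Q R X c)ˣ) : Q R X c) - 1) = 0 := thk_F _ _ _ hM
  rw [hqpow _ (hπm g hg), ← h1, h2]

/-- Detecting `N`-th powers in an abelian group. -/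
theorem exists_pow_of_hom {A : Type u} [CommGroup A] {N : ℕ} (a : A)
    (h : ∀ (B : Type u) [AddCommGroup B] [Module (ZMod N) B] (q : A → B),
      (∀ a b, q (a * b) = q a + q b) → q a = 0) : ∃ b : A, b ^ N = a := by
  let P : Subgroup A := (powMonoidHom N : A →* A).range
  have hB : ∀ x : Additive (A ⧸ P), N • x = 0 := by
    intro x
    obtain ⟨a, ha⟩ := QuotientGroup.mk_surjective (Additive.toMul x)
    apply Additive.toMul.injective
    rw [toMul_nsmul, ← ha, ← QuotientGroup.mk_pow, toMul_zero, QuotientGroup.eq_one_iff]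
    exact ⟨a, rfl⟩
  let iB : Module (ZMod N) (Additive (A ⧸ P)) := AddCommGroup.zmodModule hB
  have h1 := h (Additive (A ⧸ P)) (fun a => Additive.ofMul (QuotientGroup.mk a)) (fun a b => rfl)
  have h2 : (QuotientGroup.mk a : A ⧸ P) = 1 := h1
  rw [QuotientGroup.eq_one_iff] at h2
  exact h2

/-- The key step: an element of the lower central series whose leading term vanishes. -/
theorem magnus_step (hc : Inv (ZMod N) c) (h1c : 1 ≤ c) {n : ℕ} (hn : n + 1 ≤ c)
    {g : FreeGroup X} (hg : g ∈ Gm (FreeGroup X) n)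
    (hM : ((Mg hc g : (Q (ZMod N) X c)ˣ) : Q (ZMod N) X c) - 1 ∈ F (ZMod N) X c (n + 2)) :
    ∃ h ∈ Gm (FreeGroup X) n, ∃ g' ∈ Gm (FreeGroup X) (n + 1), g ^ (n + 1) = h ^ N * g' := by
  -- the class `n + 1` quotient
  let π : FreeGroup X →* (FreeGroup X ⧸ Gm (FreeGroup X) (n + 1)) := QuotientGroup.mk' _
  have hπ : Function.Surjective π := QuotientGroup.mk'_surjective _
  have hmap : ∀ k, (Gm (FreeGroup X) k).map π =
      Gm (FreeGroup X ⧸ Gm (FreeGroup X) (n + 1)) k := by
    intro k
    rw [Subgroup.map_lowerCentralSeries, Subgroup.map_top_of_surjective π hπ]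
  have hbot : Gm (FreeGroup X ⧸ Gm (FreeGroup X) (n + 1)) (n + 1) = ⊥ := by
    rw [← hmap, Subgroup.map_eq_bot_iff, QuotientGroup.ker_mk']
  have hmem : ∀ a ∈ Gm (FreeGroup X) n, π a ∈ Gm (FreeGroup X ⧸ Gm (FreeGroup X) (n + 1)) n := by
    intro a ha
    rw [← hmap]
    exact Subgroup.mem_map_of_mem π ha
  have hcomm : ∀ a b : Gm (FreeGroup X ⧸ Gm (FreeGroup X) (n + 1)) n, a * b = b * a := by
    intro a b
    apply Subtype.ext
    have h1 := Gm_comm_top a.2 (b : FreeGroup X ⧸ Gm (FreeGroup X) (n + 1))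
    rw [hbot] at h1
    exact (commutatorElement_eq_one_iff_mul_comm).1 h1
  let iA : CommGroup (Gm (FreeGroup X ⧸ Gm (FreeGroup X) (n + 1)) n) :=
    { (inferInstance : Group (Gm (FreeGroup X ⧸ Gm (FreeGroup X) (n + 1)) n)) with
      mul_comm := hcomm }
  have hgm := hmem g hg
  obtain ⟨a, ha⟩ := exists_pow_of_hom (N := N)
    (⟨π g ^ (n + 1), pow_mem hgm (n + 1)⟩ : Gm (FreeGroup X ⧸ Gm (FreeGroup X) (n + 1)) n) (by
      intro B _ _ q hq
      classical
      let q' : (FreeGroup X ⧸ Gm (FreeGroup X) (n + 1)) → B := fun a =>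
        if h : a ∈ Gm (FreeGroup X ⧸ Gm (FreeGroup X) (n + 1)) n then q ⟨a, h⟩ else 0
      have hq' : ∀ a (h : a ∈ Gm (FreeGroup X ⧸ Gm (FreeGroup X) (n + 1)) n),
        q' a = q ⟨a, h⟩ := fun a h => dif_pos h
      have h1 := magnus_core hc h1c hn π hmem (fun a ha => (QuotientGroup.eq_one_iff a).2 ha)
        hbot q' (by
          intro a ha b hb
          rw [hq' a ha, hq' b hb, hq' (a * b) (mul_mem ha hb), ← hq]
          rfl) hg hM
      rw [hq' _ (pow_mem hgm (n + 1))] at h1
      exact h1)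
  have ha2 : (a : FreeGroup X ⧸ Gm (FreeGroup X) (n + 1)) ∈ (Gm (FreeGroup X) n).map π := by
    rw [hmap]; exact a.2
  obtain ⟨h, hh, hha⟩ := ha2
  refine ⟨h, hh, (h ^ N)⁻¹ * g ^ (n + 1), ?_, by group⟩
  have h5 : (a : FreeGroup X ⧸ Gm (FreeGroup X) (n + 1)) ^ N = π g ^ (n + 1) :=
    congrArg Subtype.val ha
  rw [← hha, ← map_pow, ← map_pow] at h5
  exact QuotientGroup.eq.1 h5

/-- The exponentials of Lie elements have exponent `N`. -/
theorem Mg_pow (hc : Inv (ZMod N) c) (h1c : 1 ≤ c) (g : FreeGroup X) : Mg hc g ^ N = 1 := by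
  obtain ⟨v, hv, h⟩ := Mg_exists hc h1c g
  have hvF := lieS_le_F hv
  have key : ∀ k : ℕ, nexp (ZMod N) c v ^ k = nexp (ZMod N) c (k • v) := by
    intro k
    induction k with
    | zero => rw [pow_zero, zero_smul, nexp_zero]
    | succ k ih =>
      rw [pow_succ, ih, ← nexp_add hc ((Commute.refl v).smul_left k) (fun i j hij =>
        pow_mul_pow_eq_zero (nsmul_mem hvF k) hvF i j hij), succ_nsmul]
  apply Units.ext
  rw [Units.val_pow_eq_pow_val, h, key, ← Nat.cast_smul_eq_nsmul (ZMod N), ZMod.natCast_self,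
    zero_smul, nexp_zero, Units.val_one]

/-- The local Magnus theorem. -/
theorem magnus (hc : Inv (ZMod N) c) (h1c : 1 ≤ c) {H : Type*} [Group H]
    (hN : ∀ h : H, h ^ N = 1) (hcl : Gm H c = ⊥) (ρ : FreeGroup X →* H) {g : FreeGroup X}
    (hg : Mg hc g = 1) : ρ g = 1 := by
  have hcop : ∀ k, 0 < k → k ≤ c → Nat.Coprime k N := fun k h0 hk =>
    (ZMod.isUnit_iff_coprime k N).1 (hc k h0 hk)
  have hmap : ∀ k, (Gm (FreeGroup X) k).map ρ ≤ Gm H k := by
    intro k
    rw [Subgroup.map_lowerCentralSeries]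
    exact Subgroup.lowerCentralSeries_mono k le_top
  have key : ∀ j k, k + j = c → ∀ g ∈ Gm (FreeGroup X) k, Mg hc g = 1 → ρ g = 1 := by
    intro j
    induction j with
    | zero =>
      intro k hk g hgk _
      rw [add_zero] at hk
      subst hk
      have h1 := hmap k (Subgroup.mem_map_of_mem ρ hgk)
      rwa [hcl] at h1
    | succ j ih =>
      intro k hk g hg hg1
      obtain ⟨h, _, g', hg', hgg⟩ := magnus_step hc h1c (n := k) (by omega) hg (by
        rw [hg1, Units.val_one, sub_self]; exact zero_mem _)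
      have h1 : Mg hc g' = 1 := by
        have h2 := congrArg (Mg hc) hgg
        rw [map_pow, hg1, one_pow, map_mul, map_pow, Mg_pow hc h1c, one_mul] at h2
        exact h2.symm
      have h2 := ih (k + 1) (by omega) g' hg' h1
      have h3 := congrArg ρ hgg
      rw [map_pow, map_mul, map_pow, hN, one_mul, h2] at h3
      have h4 : orderOf (ρ g) ∣ (k + 1).gcd N :=
        Nat.dvd_gcd (orderOf_dvd_of_pow_eq_one h3) (orderOf_dvd_of_pow_eq_one (hN _))
      rw [(hcop (k + 1) (by omega) (by omega)).gcd_eq_one] at h4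
      exact orderOf_eq_one_iff.1 (Nat.dvd_one.1 h4)
  exact key c 0 (by omega) g (Subgroup.mem_top g) hg

end

end Pool.Agent.helper40.Laz
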