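import Pool.Agent.helper40.Laz.Magnus2

/-!
# Lazard library, part 10: every exponential of a Lie element comes from the free group
-/

namespace Pool.Agent.helper40.Laz

open Finset MulOpposite

open scoped commutatorElement

attribute [local instance 100] LieRing.ofAssociativeRing

section

variable {X : Type*} {c N : ℕ}

theorem nexp_sub_sub {R : Type*} [CommRing R] (h1c : 1 ≤ c) {k : ℕ} (hk : 1 ≤ k)
    {x : Q R X c} (hx : x ∈ F R X c k) : nexp R c x - 1 - x ∈ F R X c (k + 1) := by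
  have := nexp_add_sub_mem (R := R) (X := X) h1c hk (zero_mem _) hx
  rwa [zero_add, nexp_zero] at this

theorem mem_of_nexp {R : Type*} [CommRing R] (h1c : 1 ≤ c) {k : ℕ} {x : Q R X c}
    (hx : x ∈ F R X c 1) (h : nexp R c x - 1 ∈ F R X c k) : x ∈ F R X c k := by
  have key : ∀ j, j ≤ k → x ∈ F R X c j := by
    intro j
    induction j with
    | zero => intro _; exact F_zero _ _
    | succ j ih =>
      intro hj
      by_cases h0 : j = 0
      · subst h0; exact hx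
      have h1 := nexp_sub_sub h1c (by omega) (ih (by omega))
      have h2 : x = (nexp R c x - 1) - (nexp R c x - 1 - x) := by abel
      rw [h2]
      exact sub_mem (F_anti hj h) h1
  exact key k le_rfl

/-- Leading terms of elements of the image of the Magnus homomorphism. -/
noncomputable def TT (hc : Inv (ZMod N) c) (h1c : 1 ≤ c) (k : ℕ) (h1k : 1 ≤ k) :
    Submodule (ZMod N) (Q (ZMod N) X c) :=
  AddSubgroup.toZModSubmodule N
    { carrier := {x | x ∈ F (ZMod N) X c k ∧ ∃ g : FreeGroup X,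
        ((Mg hc g : (Q (ZMod N) X c)ˣ) : Q (ZMod N) X c) - 1 - x ∈ F (ZMod N) X c (k + 1)}
      add_mem' := by
        rintro x y ⟨hx, g, hg⟩ ⟨hy, h, hh⟩
        refine ⟨add_mem hx hy, g * h, ?_⟩
        have hg1 : ((Mg hc g : (Q (ZMod N) X c)ˣ) : Q (ZMod N) X c) - 1 ∈ F (ZMod N) X c k := by
          have := add_mem (F_anti (Nat.le_succ k) hg) hx
          rwa [sub_add_cancel] at this
        have hh1 : ((Mg hc h : (Q (ZMod N) X c)ˣ) : Q (ZMod N) X c) - 1 ∈ F (ZMod N) X c k := by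
          have := add_mem (F_anti (Nat.le_succ k) hh) hy
          rwa [sub_add_cancel] at this
        rw [map_mul, Units.val_mul]
        have h1 : ((Mg hc g : (Q (ZMod N) X c)ˣ) : Q (ZMod N) X c) *
            ((Mg hc h : (Q (ZMod N) X c)ˣ) : Q (ZMod N) X c) - 1 - (x + y) =
            (((Mg hc g : (Q (ZMod N) X c)ˣ) : Q (ZMod N) X c) - 1) *
              (((Mg hc h : (Q (ZMod N) X c)ˣ) : Q (ZMod N) X c) - 1) +
            (((Mg hc g : (Q (ZMod N) X c)ˣ) : Q (ZMod N) X c) - 1 - x) +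
            (((Mg hc h : (Q (ZMod N) X c)ˣ) : Q (ZMod N) X c) - 1 - y) := by noncomm_ring
        rw [h1]
        exact add_mem (add_mem (F_anti (by omega) (F_mul hg1 hh1)) hg) hh
      zero_mem' := by
        refine ⟨zero_mem _, 1, ?_⟩
        rw [map_one, Units.val_one, sub_self, sub_zero]
        exact zero_mem _
      neg_mem' := by
        rintro x ⟨hx, g, hg⟩
        refine ⟨neg_mem hx, g⁻¹, ?_⟩
        have hg1 : ((Mg hc g : (Q (ZMod N) X c)ˣ) : Q (ZMod N) X c) - 1 ∈ F (ZMod N) X c k := by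
          have := add_mem (F_anti (Nat.le_succ k) hg) hx
          rwa [sub_add_cancel] at this
        have hg2 : ((Mg hc g⁻¹ : (Q (ZMod N) X c)ˣ) : Q (ZMod N) X c) - 1 ∈ F (ZMod N) X c 1 :=
          Mg_sub_mem_one hc h1c _
        have h0 : ((Mg hc g⁻¹ : (Q (ZMod N) X c)ˣ) : Q (ZMod N) X c) *
            ((Mg hc g : (Q (ZMod N) X c)ˣ) : Q (ZMod N) X c) = 1 := by
          rw [← Units.val_mul, ← map_mul, inv_mul_cancel, map_one, Units.val_one]
        have h1 : ((Mg hc g⁻¹ : (Q (ZMod N) X c)ˣ) : Q (ZMod N) X c) - 1 - -x =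
            -((((Mg hc g⁻¹ : (Q (ZMod N) X c)ˣ) : Q (ZMod N) X c) - 1) *
              (((Mg hc g : (Q (ZMod N) X c)ˣ) : Q (ZMod N) X c) - 1)) -
            (((Mg hc g : (Q (ZMod N) X c)ˣ) : Q (ZMod N) X c) - 1 - x) := by
          rw [sub_mul, mul_sub, h0]; noncomm_ring
        rw [h1]
        have h2 := F_mul hg2 hg1
        rw [Nat.add_comm 1 k] at h2
        exact sub_mem (neg_mem h2) hg }

theorem mem_TT (hc : Inv (ZMod N) c) (h1c : 1 ≤ c) (k : ℕ) (h1k : 1 ≤ k)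
    {x : Q (ZMod N) X c} : x ∈ TT hc h1c k h1k ↔ (x ∈ F (ZMod N) X c k ∧ ∃ g : FreeGroup X,
        ((Mg hc g : (Q (ZMod N) X c)ˣ) : Q (ZMod N) X c) - 1 - x ∈ F (ZMod N) X c (k + 1)) :=
  Iff.rfl

theorem F_le_TT (hc : Inv (ZMod N) c) (h1c : 1 ≤ c) (k : ℕ) (h1k : 1 ≤ k)
    {x : Q (ZMod N) X c} (hx : x ∈ F (ZMod N) X c (k + 1)) : x ∈ TT hc h1c k h1k := by
  refine (mem_TT hc h1c k h1k).2 ⟨F_anti (Nat.le_succ k) hx, 1, ?_⟩
  rw [map_one, Units.val_one, sub_self, zero_sub]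
  exact neg_mem hx

theorem D'_mem_TT (hc : Inv (ZMod N) c) (h1c : 1 ≤ c) (k : ℕ) (h1k : 1 ≤ k)
    {x : Q (ZMod N) X c} (hx : x ∈ F (ZMod N) X c k) : D' x ∈ TT hc h1c k h1k := by
  refine Submodule.span_induction (p := fun x _ => D' x ∈ TT hc h1c k h1k) ?_ ?_ ?_ ?_ hx
  · rintro _ ⟨w, hw, rfl⟩
    rw [D'_word]
    rcases Nat.lt_or_ge k w.length with h | h
    · exact F_le_TT hc h1c k h1k (F_anti h (dynW_memF w))
    · have hwk : w.length = k := le_antisymm h hw
      subst hwk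
      rcases w with _ | ⟨x, s⟩
      · exact absurd h1k (by show ¬ (1 ≤ 0); omega)
      · exact (mem_TT hc h1c _ h1k).2 ⟨dynW_memF _, Cw FreeGroup.of (FreeGroup.of x) s,
          Mg_Cw hc h1c x s⟩
  · rw [map_zero]; exact zero_mem _
  · intro x y _ _ hx hy; rw [map_add]; exact add_mem hx hy
  · intro r x _ hx; rw [map_smul]; exact Submodule.smul_mem _ _ hx

theorem lieS_mem_TT (hc : Inv (ZMod N) c) (h1c : 1 ≤ c) (k : ℕ) (h1k : 1 ≤ k) (hkc : k ≤ c)
    {x : Q (ZMod N) X c} (hx : x ∈ F (ZMod N) X c k) (hxl : x ∈ lieS (ZMod N) X c) :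
    x ∈ TT hc h1c k h1k := by
  have h1 := D'_mem_TT hc h1c k h1k hx
  rw [D'_lieS hxl] at h1
  have h2 := F_le_TT hc h1c k h1k (dg_sub_mem hx)
  have h3 := sub_mem h1 h2
  have h4 : dg x - (dg x - (k : ZMod N) • x) = (k : ZMod N) • x := by abel
  rw [h4] at h3
  have h5 := Submodule.smul_mem _ (inv' (ZMod N) k) h3
  rwa [smul_smul, mul_comm, inv'_mul hc h1k hkc, one_smul] at h5

/-- Every exponential of a Lie element comes from the free group. -/
theorem Mg_surj (hc : Inv (ZMod N) c) (h1c : 1 ≤ c) {v : Q (ZMod N) X c}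
    (hv : v ∈ lieS (ZMod N) X c) : ∃ g : FreeGroup X,
      ((Mg hc g : (Q (ZMod N) X c)ˣ) : Q (ZMod N) X c) = nexp (ZMod N) c v := by
  have key : ∀ k, k ≤ c → ∃ g : FreeGroup X, ∃ u ∈ lieS (ZMod N) X c, u ∈ F (ZMod N) X c (k + 1) ∧
      (((Mg hc g)⁻¹ : (Q (ZMod N) X c)ˣ) : Q (ZMod N) X c) * nexp (ZMod N) c v =
        nexp (ZMod N) c u := by
    intro k
    induction k with
    | zero =>
      intro _
      exact ⟨1, v, hv, lieS_le_F hv, by rw [map_one, inv_one, Units.val_one, one_mul]⟩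
    | succ k ih =>
      intro hk
      obtain ⟨g, u, hu, huF, hgu⟩ := ih (by omega)
      obtain ⟨_, h, hh⟩ := (mem_TT hc h1c _ (by omega)).1 (lieS_mem_TT hc h1c (k + 1) (by omega) hk huF hu)
      obtain ⟨w, hw, hhw⟩ := Mg_exists hc h1c h⁻¹
      obtain ⟨u', hu', huu⟩ := exists_mul hc h1c hw hu
      have h5 : (((Mg hc (g * h))⁻¹ : (Q (ZMod N) X c)ˣ) : Q (ZMod N) X c) * nexp (ZMod N) c v =
          nexp (ZMod N) c u' := by
        rw [map_mul, mul_inv_rev, Units.val_mul, mul_assoc, hgu, huu, ← hhw, map_inv]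
      refine ⟨g * h, u', hu', ?_, h5⟩
      refine mem_of_nexp h1c (lieS_le_F hu') ?_
      have h6 : nexp (ZMod N) c u - ((Mg hc h : (Q (ZMod N) X c)ˣ) : Q (ZMod N) X c) ∈
          F (ZMod N) X c (k + 1 + 1) := by
        have h7 := sub_mem (nexp_sub_sub h1c (by omega) huF) hh
        have h8 : nexp (ZMod N) c u - 1 - u - (((Mg hc h : (Q (ZMod N) X c)ˣ) : Q (ZMod N) X c) -
          1 - u) = nexp (ZMod N) c u - ((Mg hc h : (Q (ZMod N) X c)ˣ) : Q (ZMod N) X c) := by abel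
        rwa [h8] at h7
      have h9 := F_mul_left (((Mg hc h)⁻¹ : (Q (ZMod N) X c)ˣ) : Q (ZMod N) X c) h6
      rw [mul_sub, Units.inv_mul] at h9
      have h10 : nexp (ZMod N) c u' = (((Mg hc h)⁻¹ : (Q (ZMod N) X c)ˣ) : Q (ZMod N) X c) *
          nexp (ZMod N) c u := by rw [huu, ← hhw, map_inv]
      rw [h10]
      exact h9
  obtain ⟨g, u, hu, huF, hgu⟩ := key c le_rfl
  have hu0 : u = 0 := F_eq_zero (Nat.lt_succ_self c) huF
  refine ⟨g, ?_⟩
  rw [hu0, nexp_zero] at hgu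
  have h1 := congrArg (fun z => ((Mg hc g : (Q (ZMod N) X c)ˣ) : Q (ZMod N) X c) * z) hgu
  simp only [mul_one] at h1
  rw [← mul_assoc, Units.mul_inv, one_mul] at h1
  exact h1.symm

end

end Pool.Agent.helper40.Laz
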