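import Pool.Agent.helper40.Laz.Exp

/-!
# Lazard library, part 2: the truncated free associative algebra
-/

namespace Pool.Agent.helper40.Laz

open Finset

variable (R : Type*) [CommRing R] (X : Type*)

/-- The ideal of the elements all of whose words have length at least `k`. -/
def fil (k : ℕ) : Ideal (MonoidAlgebra R (FreeMonoid X)) where
  carrier := {f | ∀ w : FreeMonoid X, w.length < k → f.coeff w = 0}
  add_mem' := by
    intro f g hf hg w hw
    rw [MonoidAlgebra.coeff_add, Finsupp.add_apply, hf w hw, hg w hw, add_zero]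
  zero_mem' := by
    intro w _
    simp
  smul_mem' := by
    classical
    intro f g hg w hw
    rw [smul_eq_mul, MonoidAlgebra.coeff_mul]
    refine Finset.sum_eq_zero fun a _ => Finset.sum_eq_zero fun b _ => ?_
    show (if a * b = w then f.coeff a * g.coeff b else 0) = 0
    by_cases h : a * b = w
    · rw [if_pos h, hg b, mul_zero]
      have := congrArg FreeMonoid.length h
      rw [FreeMonoid.length_mul] at this
      omega
    · rw [if_neg h]

variable {R X}

theorem mem_fil {k : ℕ} {f : MonoidAlgebra R (FreeMonoid X)} :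
    f ∈ fil R X k ↔ ∀ w : FreeMonoid X, w.length < k → f.coeff w = 0 := Iff.rfl

instance (k : ℕ) : (fil R X k).IsTwoSided where
  mul_mem_of_left := by
    classical
    intro f g hf w hw
    rw [MonoidAlgebra.coeff_mul]
    refine Finset.sum_eq_zero fun a _ => Finset.sum_eq_zero fun b _ => ?_
    show (if a * b = w then f.coeff a * g.coeff b else 0) = 0
    by_cases h : a * b = w
    · rw [if_pos h, hf a, zero_mul]
      have := congrArg FreeMonoid.length h
      rw [FreeMonoid.length_mul] at this
      omega
    · rw [if_neg h]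

theorem of_mem_fil {k : ℕ} {w : FreeMonoid X} (h : k ≤ w.length) :
    MonoidAlgebra.of R (FreeMonoid X) w ∈ fil R X k := by
  classical
  intro v hv
  rw [MonoidAlgebra.of_apply, MonoidAlgebra.coeff_single, Finsupp.single_apply, if_neg]
  rintro rfl
  omega

variable (R X)

/-- The truncated free associative algebra: words of length more than `c` are zero. -/
abbrev Q (c : ℕ) : Type _ := MonoidAlgebra R (FreeMonoid X) ⧸ fil R X (c + 1)

variable {X}

/-- The class of a word. -/
noncomputable def word (c : ℕ) (w : FreeMonoid X) : Q R X c :=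
  Ideal.Quotient.mk _ (MonoidAlgebra.of R (FreeMonoid X) w)

/-- The letters. -/
noncomputable def lt (c : ℕ) (x : X) : Q R X c := word R c (FreeMonoid.of x)

variable {R}

theorem word_one (c : ℕ) : word R c (1 : FreeMonoid X) = 1 := by
  unfold word
  rw [map_one, map_one]

theorem word_mul (c : ℕ) (v w : FreeMonoid X) : word R c (v * w) = word R c v * word R c w := by
  unfold word
  rw [map_mul, map_mul]

theorem word_eq_zero {c : ℕ} {w : FreeMonoid X} (h : c < w.length) : word R c w = 0 :=
  Ideal.Quotient.eq_zero_iff_mem.2 (of_mem_fil h)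

theorem mk_smul {c : ℕ} (r : R) (f : MonoidAlgebra R (FreeMonoid X)) :
    (Ideal.Quotient.mk (fil R X (c + 1)) (r • f)) =
      r • (Ideal.Quotient.mk (fil R X (c + 1)) f) := rfl

/-- Induction principle. -/
theorem Q.induction {c : ℕ} {p : Q R X c → Prop} (hw : ∀ w, p (word R c w))
    (hadd : ∀ x y, p x → p y → p (x + y)) (hsmul : ∀ (r : R) x, p x → p (r • x)) (x : Q R X c) :
    p x := by
  obtain ⟨f, rfl⟩ := Ideal.Quotient.mk_surjective x
  induction f using MonoidAlgebra.induction_on with
  | of m => exact hw m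
  | add f g hf hg => rw [map_add]; exact hadd _ _ hf hg
  | smul r f hf => rw [mk_smul]; exact hsmul _ _ hf

/-- Linear maps out of the truncated algebra. -/
noncomputable def Q.lift {M : Type*} [AddCommGroup M] [Module R M] {c : ℕ} (φ : FreeMonoid X → M)
    (h : ∀ w, c < w.length → φ w = 0) : Q R X c →ₗ[R] M :=
  ((fil R X (c + 1)).restrictScalars R).liftQ
    ((Finsupp.linearCombination R φ) ∘ₗ
      (MonoidAlgebra.coeffLinearEquiv R (S := R) (M := FreeMonoid X)).toLinearMap) (by
    intro f hf
    rw [LinearMap.mem_ker, LinearMap.comp_apply]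
    show (Finsupp.linearCombination R φ) f.coeff = 0
    rw [Finsupp.linearCombination_apply]
    refine Finset.sum_eq_zero fun w hw => ?_
    by_cases hwc : c < w.length
    · simp [h w hwc]
    · exfalso
      rw [Finsupp.mem_support_iff] at hw
      exact hw (hf w (by omega)))

theorem Q.lift_word {M : Type*} [AddCommGroup M] [Module R M] {c : ℕ} (φ : FreeMonoid X → M)
    (h : ∀ w, c < w.length → φ w = 0) (w : FreeMonoid X) : Q.lift φ h (word R c w) = φ w := by
  show (Finsupp.linearCombination R φ) (MonoidAlgebra.of R (FreeMonoid X) w).coeff = φ w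
  rw [MonoidAlgebra.of_apply, MonoidAlgebra.coeff_single, Finsupp.linearCombination_single, one_smul]

/-- Two linear maps which agree on words are equal. -/
theorem Q.hom_ext {M : Type*} [AddCommGroup M] [Module R M] {c : ℕ} {f g : Q R X c →ₗ[R] M}
    (h : ∀ w : FreeMonoid X, w.length ≤ c → f (word R c w) = g (word R c w)) : f = g := by
  refine LinearMap.ext fun x => ?_
  induction x using Q.induction with
  | hw w =>
    by_cases hw : w.length ≤ c
    · exact h w hw
    · rw [word_eq_zero (by omega), map_zero, map_zero]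
  | hadd x y hx hy => rw [map_add, map_add, hx, hy]
  | hsmul r x hx => rw [map_smul, map_smul, hx]

variable (R X)

/-- The filtration by the length of words. -/
noncomputable def F (c k : ℕ) : Submodule R (Q R X c) :=
  Submodule.span R {x | ∃ w : FreeMonoid X, k ≤ w.length ∧ x = word R c w}

variable {R X}

theorem word_mem_F {c k : ℕ} {w : FreeMonoid X} (h : k ≤ w.length) : word R c w ∈ F R X c k :=
  Submodule.subset_span ⟨w, h, rfl⟩

theorem lt_mem_F (c : ℕ) (x : X) : lt R c x ∈ F R X c 1 := word_mem_F (by simp)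

theorem F_zero (c : ℕ) (x : Q R X c) : x ∈ F R X c 0 := by
  induction x using Q.induction with
  | hw w => exact word_mem_F (Nat.zero_le _)
  | hadd x y hx hy => exact add_mem hx hy
  | hsmul r x hx => exact Submodule.smul_mem _ _ hx

theorem F_anti {c a b : ℕ} (h : a ≤ b) : F R X c b ≤ F R X c a :=
  Submodule.span_mono fun _ ⟨w, hw, hx⟩ => ⟨w, h.trans hw, hx⟩

theorem F_eq_zero {c k : ℕ} (h : c < k) {x : Q R X c} (hx : x ∈ F R X c k) : x = 0 := by
  refine Submodule.span_induction ?_ rfl ?_ ?_ hx
  · rintro x ⟨w, hw, rfl⟩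
    exact word_eq_zero (by omega)
  · intro x y _ _ hx hy; rw [hx, hy, add_zero]
  · intro r x _ hx; rw [hx, smul_zero]

theorem F_mul {c a b : ℕ} {x y : Q R X c} (hx : x ∈ F R X c a) (hy : y ∈ F R X c b) :
    x * y ∈ F R X c (a + b) := by
  refine Submodule.span_induction (p := fun x _ => x * y ∈ F R X c (a + b)) ?_ ?_ ?_ ?_ hx
  · rintro x ⟨v, hv, rfl⟩
    refine Submodule.span_induction (p := fun y _ => word R c v * y ∈ F R X c (a + b))
      ?_ ?_ ?_ ?_ hy
    · rintro y ⟨w, hw, rfl⟩
      rw [← word_mul]
      exact word_mem_F (by rw [FreeMonoid.length_mul]; omega)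
    · rw [mul_zero]; exact zero_mem _
    · intro y z _ _ hy hz; rw [mul_add]; exact add_mem hy hz
    · intro r y _ hy; rw [mul_smul_comm]; exact Submodule.smul_mem _ _ hy
  · rw [zero_mul]; exact zero_mem _
  · intro x z _ _ hx hz; rw [add_mul]; exact add_mem hx hz
  · intro r x _ hx; rw [smul_mul_assoc]; exact Submodule.smul_mem _ _ hx

theorem F_pow {c a : ℕ} {x : Q R X c} (hx : x ∈ F R X c a) (k : ℕ) :
    x ^ k ∈ F R X c (k * a) := by
  induction k with
  | zero => rw [zero_mul]; exact F_zero _ _
  | succ k ih =>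
    rw [pow_succ, Nat.succ_mul]
    exact F_mul ih hx

theorem F_mul_left {c a : ℕ} (x : Q R X c) {y : Q R X c} (hy : y ∈ F R X c a) :
    x * y ∈ F R X c a := by
  have := F_mul (F_zero c x) hy
  rwa [zero_add] at this

theorem F_mul_right {c a : ℕ} {x : Q R X c} (y : Q R X c) (hx : x ∈ F R X c a) :
    x * y ∈ F R X c a := by
  have := F_mul hx (F_zero c y)
  rwa [add_zero] at this

/-- The coefficient of a word. -/
noncomputable def coef (c : ℕ) (v : FreeMonoid X) : Q R X c →ₗ[R] R := by
  classical
  exact Q.lift (fun w => if v.length ≤ c ∧ v = w then 1 else 0) (by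
    intro w hw
    rw [if_neg]
    rintro ⟨h1, rfl⟩
    omega)

theorem coef_self {c : ℕ} {v : FreeMonoid X} (hv : v.length ≤ c) :
    coef c v (word R c v) = 1 := by
  classical
  unfold coef
  rw [Q.lift_word, if_pos ⟨hv, rfl⟩]

theorem coef_ne {c : ℕ} {v w : FreeMonoid X} (h : v ≠ w) : coef c v (word R c w) = 0 := by
  classical
  unfold coef
  rw [Q.lift_word, if_neg (fun h' => h h'.2)]

theorem coef_F {c k : ℕ} {x : Q R X c} (hx : x ∈ F R X c k) {v : FreeMonoid X}
    (hv : v.length < k) : coef c v x = 0 := by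
  classical
  refine Submodule.span_induction (p := fun x _ => coef c v x = 0) ?_ (map_zero _) ?_ ?_ hx
  · rintro x ⟨w, hw, rfl⟩
    unfold coef
    rw [Q.lift_word, if_neg]
    rintro ⟨_, rfl⟩
    omega
  · intro x y _ _ hx hy; rw [map_add, hx, hy, add_zero]
  · intro r x _ hx; rw [map_smul, hx, smul_zero]

/-- Algebra homomorphisms out of the truncated algebra. -/
noncomputable def Q.algHom {B : Type*} [Ring B] [Algebra R B] {c : ℕ} (f : X → B)
    (h : ∀ w : FreeMonoid X, c < w.length → FreeMonoid.lift f w = 0) : Q R X c →ₐ[R] B :=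
  Ideal.Quotient.liftₐ (fil R X (c + 1)) (MonoidAlgebra.lift R B (FreeMonoid X)
    (FreeMonoid.lift f)) (by
    intro g hg
    rw [MonoidAlgebra.lift_apply]
    refine Finset.sum_eq_zero fun w hw => ?_
    by_cases hwc : c < w.length
    · simp [h w hwc]
    · exfalso
      rw [Finsupp.mem_support_iff] at hw
      exact hw (hg w (by omega)))

theorem Q.algHom_word {B : Type*} [Ring B] [Algebra R B] {c : ℕ} (f : X → B)
    (h : ∀ w : FreeMonoid X, c < w.length → FreeMonoid.lift f w = 0) (w : FreeMonoid X) :
    Q.algHom (R := R) f h (word R c w) = FreeMonoid.lift f w := by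
  show (MonoidAlgebra.lift R B (FreeMonoid X) (FreeMonoid.lift f))
    (MonoidAlgebra.of R (FreeMonoid X) w) = _
  rw [MonoidAlgebra.lift_of]

theorem Q.algHom_lt {B : Type*} [Ring B] [Algebra R B] {c : ℕ} (f : X → B)
    (h : ∀ w : FreeMonoid X, c < w.length → FreeMonoid.lift f w = 0) (x : X) :
    Q.algHom (R := R) f h (lt R c x) = f x := by
  unfold lt
  rw [Q.algHom_word, FreeMonoid.lift_eval_of]

end Pool.Agent.helper40.Laz
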