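import Pool.Agent.helper40.Laz.Grp2

/-!
# Lazard library, part 6: universal property, the group of a Lie algebra of class at most `c`
-/

namespace Pool.Agent.helper40.Laz

open Finset MulOpposite

attribute [local instance 100] LieRing.ofAssociativeRing

variable {R : Type*} [CommRing R] {X : Type*} {c : ℕ}

/-! ## The logarithm -/

open Classical in
/-- The logarithm: the element `v` of `F 1` with `nexp v = g`. -/
noncomputable def lg (g : Q R X c) : Q R X c :=
  if h : ∃ v ∈ F R X c 1, nexp R c v = g then h.choose else 0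

theorem lg_nexp (h1c : 1 ≤ c) {v : Q R X c} (hv : v ∈ F R X c 1) : lg (nexp R c v) = v := by
  have h : ∃ u ∈ F R X c 1, nexp R c u = nexp R c v := ⟨v, hv, rfl⟩
  unfold lg
  rw [dif_pos h]
  exact nexp_inj h1c h.choose_spec.1 hv h.choose_spec.2

/-- The product of two Lie elements. -/
noncomputable def bm (u v : Q R X c) : Q R X c := lg (nexp R c u * nexp R c v)

theorem bm_mem (hc : Inv R c) (h1c : 1 ≤ c) {u v : Q R X c} (hu : u ∈ lieS R X c)
    (hv : v ∈ lieS R X c) : bm u v ∈ lieS R X c := by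
  obtain ⟨w, hw, h⟩ := exists_mul hc h1c hu hv
  unfold bm
  rw [← h, lg_nexp h1c (lieS_le_F hw)]
  exact hw

theorem nexp_bm (hc : Inv R c) (h1c : 1 ≤ c) {u v : Q R X c} (hu : u ∈ lieS R X c)
    (hv : v ∈ lieS R X c) : nexp R c (bm u v) = nexp R c u * nexp R c v := by
  obtain ⟨w, hw, h⟩ := exists_mul hc h1c hu hv
  unfold bm
  rw [← h, lg_nexp h1c (lieS_le_F hw)]

/-! ## Evaluation -/

section

variable {L : Type*} [LieRing L] [LieAlgebra R L]

/-- Division by the degree. -/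
noncomputable def dv : Q R X c →ₗ[R] Q R X c :=
  Q.lift (fun w => inv' R w.length • word R c w) fun w hw => by rw [word_eq_zero hw, smul_zero]

theorem dv_Hom {k : ℕ} {x : Q R X c} (hx : x ∈ Hom R X c k) : dv x = inv' R k • x := by
  refine Submodule.span_induction (p := fun x _ => dv x = inv' R k • x) ?_ ?_ ?_ ?_ hx
  · rintro _ ⟨w, rfl, rfl⟩
    exact Q.lift_word _ _ _
  · rw [map_zero, smul_zero]
  · intro x y _ _ hx hy; rw [map_add, hx, hy, smul_add]
  · intro r x _ hx; rw [map_smul, hx, smul_comm]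

/-- Evaluation of Lie elements in `L`, by Dynkin's formula. -/
noncomputable def evL (Φ : LFil R L c) (f : X → L) (hf : ∀ x, f x ∈ Φ.Λ 1) : Q R X c →ₗ[R] L :=
  (Dy Φ f hf).comp dv

variable (Φ : LFil R L c) (f : X → L) (hf : ∀ x, f x ∈ Φ.Λ 1)

theorem evL_evQ (hc : Inv R c) (τ : Tr X) : evL Φ f hf (evQ R c τ) = τ.ev f := by
  unfold evL
  rw [LinearMap.comp_apply, dv_Hom (evQ_mem_Hom τ), map_smul, Dy_evQ]
  by_cases h : τ.size ≤ c
  · rw [← Nat.cast_smul_eq_nsmul R, smul_smul, mul_comm, inv'_mul hc τ.size_pos h, one_smul]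
  · have h1 : τ.ev f = 0 := Φ.bot _ _ (by omega) (ev_mem Φ f hf τ)
    rw [h1, smul_zero, smul_zero]

theorem evL_lt (hc : Inv R c) (x : X) : evL Φ f hf (lt R c x) = f x :=
  evL_evQ Φ f hf hc (Tr.leaf x)

theorem evL_mem (hf : ∀ x, f x ∈ Φ.Λ 1) (hc : Inv R c) {u : Q R X c} (hu : u ∈ lieS R X c) :
    evL Φ f hf u ∈ Φ.Λ 1 := by
  refine Submodule.span_induction (p := fun u _ => evL Φ f hf u ∈ Φ.Λ 1) ?_ ?_ ?_ ?_ hu
  · rintro _ ⟨τ, rfl⟩
    rw [evL_evQ Φ f hf hc]
    exact Φ.anti _ _ τ.size_pos (ev_mem Φ f hf τ)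
  · rw [map_zero]; exact zero_mem _
  · intro x y _ _ hx hy; rw [map_add]; exact add_mem hx hy
  · intro r x _ hx; rw [map_smul]; exact Submodule.smul_mem _ _ hx

theorem evL_lie (hc : Inv R c) {u v : Q R X c} (hu : u ∈ lieS R X c) (hv : v ∈ lieS R X c) :
    evL Φ f hf ⁅u, v⁆ = ⁅evL Φ f hf u, evL Φ f hf v⁆ := by
  refine Submodule.span_induction
    (p := fun u _ => evL Φ f hf ⁅u, v⁆ = ⁅evL Φ f hf u, evL Φ f hf v⁆) ?_ ?_ ?_ ?_ hu
  · rintro _ ⟨τ, rfl⟩
    refine Submodule.span_induction (p := fun v _ => evL Φ f hf ⁅evQ R c τ, v⁆ =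
      ⁅evL Φ f hf (evQ R c τ), evL Φ f hf v⁆) ?_ ?_ ?_ ?_ hv
    · rintro _ ⟨σ, rfl⟩
      rw [← evQ_node, evL_evQ Φ f hf hc, evL_evQ Φ f hf hc, evL_evQ Φ f hf hc]; rfl
    · rw [lie_zero, map_zero, lie_zero]
    · intro x y _ _ hx hy; rw [lie_add, map_add, map_add, lie_add, hx, hy]
    · intro r x _ hx; rw [lie_smul, map_smul, map_smul, lie_smul, hx]
  · rw [zero_lie, map_zero, zero_lie]
  · intro x y _ _ hx hy; rw [add_lie, map_add, map_add, add_lie, hx, hy]
  · intro r x _ hx; rw [smul_lie, map_smul, map_smul, smul_lie, hx]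

end

/-! ## Substitution -/

section

variable {Y : Type*}

theorem lift_mem_F (u : Y → Q R X c) (hu : ∀ y, u y ∈ F R X c 1) (w : FreeMonoid Y) :
    FreeMonoid.lift u w ∈ F R X c w.length := by
  induction w using FreeMonoid.inductionOn' with
  | one => exact F_zero _ _
  | of_mul x v ih =>
    rw [map_mul, FreeMonoid.lift_eval_of, FreeMonoid.length_mul, FreeMonoid.length_of]
    exact F_mul (hu x) ih

/-- Substitution of elements of `F 1` for the letters. -/
noncomputable def sb (u : Y → Q R X c) (hu : ∀ y, u y ∈ F R X c 1) : Q R Y c →ₐ[R] Q R X c :=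
  Q.algHom u fun w hw => F_eq_zero hw (lift_mem_F u hu w)

theorem sb_lt (u : Y → Q R X c) (hu : ∀ y, u y ∈ F R X c 1) (y : Y) :
    sb u hu (lt R c y) = u y := Q.algHom_lt _ _ _

theorem sb_word (u : Y → Q R X c) (hu : ∀ y, u y ∈ F R X c 1) (w : FreeMonoid Y) :
    sb u hu (word R c w) = FreeMonoid.lift u w := Q.algHom_word _ _ _

theorem sb_F (u : Y → Q R X c) (hu : ∀ y, u y ∈ F R X c 1) {k : ℕ} {x : Q R Y c}
    (hx : x ∈ F R Y c k) : sb u hu x ∈ F R X c k := by
  refine Submodule.span_induction (p := fun x _ => sb u hu x ∈ F R X c k) ?_ ?_ ?_ ?_ hx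
  · rintro _ ⟨w, hw, rfl⟩
    rw [sb_word]
    exact F_anti hw (lift_mem_F u hu w)
  · rw [map_zero]; exact zero_mem _
  · intro x y _ _ hx hy; rw [map_add]; exact add_mem hx hy
  · intro r x _ hx; rw [map_smul]; exact Submodule.smul_mem _ _ hx

theorem sb_lie (u : Y → Q R X c) (hu : ∀ y, u y ∈ F R X c 1) (x y : Q R Y c) :
    sb u hu ⁅x, y⁆ = ⁅sb u hu x, sb u hu y⁆ := by
  rw [LieRing.of_associative_ring_bracket, LieRing.of_associative_ring_bracket, map_sub, map_mul,
    map_mul]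

theorem sb_lieS (u : Y → Q R X c) (hu : ∀ y, u y ∈ lieS R X c) {x : Q R Y c}
    (hx : x ∈ lieS R Y c) : sb u (fun y => lieS_le_F (hu y)) x ∈ lieS R X c := by
  refine Submodule.span_induction
    (p := fun x _ => sb u (fun y => lieS_le_F (hu y)) x ∈ lieS R X c) ?_ ?_ ?_ ?_ hx
  · rintro _ ⟨τ, rfl⟩
    induction τ with
    | leaf y => rw [evQ_leaf, sb_lt]; exact hu y
    | node a b ha hb => rw [evQ_node, sb_lie]; exact lieS_lie ha hb
  · rw [map_zero]; exact zero_mem _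
  · intro x y _ _ hx hy; rw [map_add]; exact add_mem hx hy
  · intro r x _ hx; rw [map_smul]; exact Submodule.smul_mem _ _ hx

theorem sb_bm (hc : Inv R c) (h1c : 1 ≤ c) (u : Y → Q R X c) (hu : ∀ y, u y ∈ lieS R X c)
    {x y : Q R Y c} (hx : x ∈ lieS R Y c) (hy : y ∈ lieS R Y c) :
    sb u (fun y => lieS_le_F (hu y)) (bm x y) =
      bm (sb u (fun y => lieS_le_F (hu y)) x) (sb u (fun y => lieS_le_F (hu y)) y) := by
  have h1 := congrArg (sb u (fun y => lieS_le_F (hu y))) (nexp_bm hc h1c hx hy)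
  rw [map_mul, map_nexp, map_nexp, map_nexp] at h1
  have h2 := nexp_bm hc h1c (sb_lieS u hu hx) (sb_lieS u hu hy)
  exact nexp_inj h1c (lieS_le_F (sb_lieS u hu (bm_mem hc h1c hx hy)))
    (lieS_le_F (bm_mem hc h1c (sb_lieS u hu hx) (sb_lieS u hu hy))) (h1.trans h2.symm)

variable {L : Type*} [LieRing L] [LieAlgebra R L]

theorem evL_sb (hc : Inv R c) (Φ : LFil R L c) (f : X → L) (hf : ∀ x, f x ∈ Φ.Λ 1)
    (u : Y → Q R X c) (hu : ∀ y, u y ∈ lieS R X c) (g : Y → L) (hg : ∀ y, g y ∈ Φ.Λ 1)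
    (h : ∀ y, g y = evL Φ f hf (u y)) {x : Q R Y c} (hx : x ∈ lieS R Y c) :
    evL Φ f hf (sb u (fun y => lieS_le_F (hu y)) x) = evL Φ g hg x := by
  refine Submodule.span_induction (p := fun x _ =>
    evL Φ f hf (sb u (fun y => lieS_le_F (hu y)) x) = evL Φ g hg x) ?_ ?_ ?_ ?_ hx
  · rintro _ ⟨τ, rfl⟩
    induction τ with
    | leaf y => rw [evQ_leaf, sb_lt, evL_lt Φ g hg hc, h]
    | node a b ha hb =>
      rw [evQ_node, sb_lie, evL_lie Φ f hf hc (sb_lieS u hu (evQ_mem_lieS a))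
        (sb_lieS u hu (evQ_mem_lieS b)), ha, hb, evL_lie Φ g hg hc (evQ_mem_lieS a)
        (evQ_mem_lieS b)]
  · rw [map_zero, map_zero, map_zero]
  · intro x y _ _ hx hy; rw [map_add, map_add, map_add, hx, hy]
  · intro r x _ hx; rw [map_smul, map_smul, map_smul, hx]

end

/-! ## The group of a Lie algebra -/

section

variable {L : Type*} [LieRing L] [LieAlgebra R L]

variable (R) in
/-- The Baker-Campbell-Hausdorff element in two letters: `nexp H = nexp X * nexp Y`. -/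
noncomputable def bchE (c : ℕ) : Q R Bool c := lg (nexp R c (lt R c false) * nexp R c (lt R c true))

/-- The two letters go to `x` and `y`. -/
def two {L : Type*} (x y : L) : Bool → L := fun b => if b then y else x

/-- The Baker-Campbell-Hausdorff product. -/
noncomputable def laz (Φ : LFil R L c) (h1 : ∀ x, x ∈ Φ.Λ 1) (x y : L) : L :=
  evL Φ (two x y) (fun _ => h1 _) (bchE R c)

variable (Φ : LFil R L c) (h1 : ∀ x, x ∈ Φ.Λ 1)

theorem evL_bm (hc : Inv R c) (h1c : 1 ≤ c) (f : X → L) {u v : Q R X c} (hu : u ∈ lieS R X c)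
    (hv : v ∈ lieS R X c) : evL Φ f (fun _ => h1 _) (bm u v) =
      laz Φ h1 (evL Φ f (fun _ => h1 _) u) (evL Φ f (fun _ => h1 _) v) := by
  have hu2 : ∀ b, two u v b ∈ lieS R X c := by
    intro b; cases b
    · exact hu
    · exact hv
  have hm : bchE R c ∈ lieS R Bool c := bm_mem hc h1c (lt_mem_lieS _) (lt_mem_lieS _)
  have h2 := evL_sb hc Φ f (fun _ => h1 _) (two u v) hu2
    (two (evL Φ f (fun _ => h1 _) u) (evL Φ f (fun _ => h1 _) v)) (fun _ => h1 _)
    (by intro b; cases b <;> rfl) hm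
  unfold laz
  rw [← h2]
  congr 1
  have h3 := sb_bm hc h1c (two u v) hu2 (lt_mem_lieS false) (lt_mem_lieS (R := R) (c := c) true)
  rw [sb_lt, sb_lt] at h3
  exact h3.symm

theorem lg_one (h1c : 1 ≤ c) : lg (1 : Q R X c) = 0 := by
  rw [← nexp_zero (R := R) (A := Q R X c) c, lg_nexp h1c (zero_mem _)]

theorem bm_assoc (hc : Inv R c) (h1c : 1 ≤ c) {u v w : Q R X c} (hu : u ∈ lieS R X c)
    (hv : v ∈ lieS R X c) (hw : w ∈ lieS R X c) : bm (bm u v) w = bm u (bm v w) := by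
  unfold bm
  congr 1
  change nexp R c (bm u v) * nexp R c w = nexp R c u * nexp R c (bm v w)
  rw [nexp_bm hc h1c hu hv, nexp_bm hc h1c hv hw, mul_assoc]

theorem zero_bm (h1c : 1 ≤ c) {u : Q R X c} (hu : u ∈ lieS R X c) : bm 0 u = u := by
  unfold bm
  rw [nexp_zero, one_mul, lg_nexp h1c (lieS_le_F hu)]

theorem bm_zero (h1c : 1 ≤ c) {u : Q R X c} (hu : u ∈ lieS R X c) : bm u 0 = u := by
  unfold bm
  rw [nexp_zero, mul_one, lg_nexp h1c (lieS_le_F hu)]

theorem neg_bm (hc : Inv R c) (h1c : 1 ≤ c) {u : Q R X c} (hu : u ∈ lieS R X c) :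
    bm (-u) u = 0 := by
  unfold bm
  rw [nexp_neg_mul hc (lieS_le_F hu), lg_one h1c]

/-- The group structure on a Lie algebra of class at most `c`. -/
@[reducible] noncomputable def lazGroup (hc : Inv R c) (h1c : 1 ≤ c) : Group L :=
  let ev := evL Φ (id : L → L) (fun _ => h1 _)
  have hlt : ∀ x : L, ev (lt R c x) = x := fun x => evL_lt Φ id (fun _ => h1 _) hc x
  have hm : ∀ {u v : Q R L c}, u ∈ lieS R L c → v ∈ lieS R L c →
    ev (bm u v) = laz Φ h1 (ev u) (ev v) := fun hu hv => evL_bm Φ h1 hc h1c id hu hv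
  have hl : ∀ x : L, lt R c x ∈ lieS R L c := fun x => lt_mem_lieS x
  { mul := laz Φ h1
    one := 0
    inv := fun x => -x
    mul_assoc := by
      intro x y z
      show laz Φ h1 (laz Φ h1 x y) z = laz Φ h1 x (laz Φ h1 y z)
      rw [← hlt x, ← hlt y, ← hlt z, ← hm (hl x) (hl y), ← hm (hl y) (hl z),
        ← hm (bm_mem hc h1c (hl x) (hl y)) (hl z), ← hm (hl x) (bm_mem hc h1c (hl y) (hl z)),
        bm_assoc hc h1c (hl x) (hl y) (hl z)]
    one_mul := by
      intro x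
      show laz Φ h1 0 x = x
      have := hm (u := 0) (zero_mem _) (hl x)
      rwa [zero_bm h1c (hl x), hlt, map_zero, eq_comm] at this
    mul_one := by
      intro x
      show laz Φ h1 x 0 = x
      have := hm (v := 0) (hl x) (zero_mem _)
      rwa [bm_zero h1c (hl x), hlt, map_zero, eq_comm] at this
    inv_mul_cancel := by
      intro x
      show laz Φ h1 (-x) x = 0
      have := hm (u := - lt R c x) (neg_mem (hl x)) (hl x)
      rwa [neg_bm hc h1c (hl x), map_neg, hlt, map_zero, eq_comm] at this }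

end

end Pool.Agent.helper40.Laz
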